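import Pool.Agent.Helper20.DL.Digits
import Pool.Agent.Helper11.LC.Dil

/-! # Dilates: interfaces -/

open MvPolynomial

namespace Pool.Agent.Helper69.DL
open Pool.Agent.Helper11.ZP Pool.Agent.Helper20.DL Pool.Agent.Helper11.LC

/-- the conditions modulo `p` on the relation `H(X, Y) = 0` of two monomials in the coordinates -/
structure GoodRel (v : AbsoluteValue ℂ ℝ) (p : ℕ) (H : MvPolynomial (Fin 2) ℤ) : Prop where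
  /-- no coset factor modulo `p` -/
  noCoset : NoCoset v H
  /-- `X`, `Y` do not divide `H` modulo `p` -/
  bot₀ : ∃ m : Fin 2 →₀ ℕ, m 0 = 0 ∧ ¬ (p : ℤ) ∣ H.coeff m
  bot₁ : ∃ m : Fin 2 →₀ ℕ, m 1 = 0 ∧ ¬ (p : ℤ) ∣ H.coeff m
  /-- the degrees in `X` and in `Y` do not drop modulo `p` -/
  top₀ : ∃ m : Fin 2 →₀ ℕ, m 0 = H.degreeOf 0 ∧ ¬ (p : ℤ) ∣ H.coeff m
  top₁ : ∃ m : Fin 2 →₀ ℕ, m 1 = H.degreeOf 1 ∧ ¬ (p : ℤ) ∣ H.coeff m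
  /-- squarefree modulo `p` -/
  sqf₀ : ∃ (A B : MvPolynomial (Fin 2) ℤ) (Δ : Polynomial ℤ),
    A * H + B * pderiv 0 H = Polynomial.aeval (X 1 : MvPolynomial (Fin 2) ℤ) Δ ∧ ∃ k, ¬ (p : ℤ) ∣ Δ.coeff k
  sqf₁ : ∃ (A B : MvPolynomial (Fin 2) ℤ) (Δ : Polynomial ℤ),
    A * H + B * pderiv 1 H = Polynomial.aeval (X 0 : MvPolynomial (Fin 2) ℤ) Δ ∧ ∃ k, ¬ (p : ℤ) ∣ Δ.coeff k
  /-- `p` is large -/
  large : 64 * (H.totalDegree + 1) ^ 2 ≤ p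

/-- `H(z ^ a, z ^ b) = 0` on `Z` -/
def Holds {n : ℕ} (H : MvPolynomial (Fin 2) ℤ) (Z : Set (Fin n → ℂ)) (a b : Fin n → ℤ) : Prop :=
  ∀ z ∈ Z, (∀ i, z i = 0 → 0 ≤ a i ∧ 0 ≤ b i) → ev H (∏ i, z i ^ a i) (∏ i, z i ^ b i) = 0

end Pool.Agent.Helper69.DL
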