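import Pool.Agent.Helper69.DL.Torsion
import Mathlib.RingTheory.RootsOfUnity.Complex

/-! # The ring generated by the rational units and the roots of unity of order prime to `p` -/

open MvPolynomial

namespace Pool.Agent.Helper69.DL
open Pool.Agent.Helper20.ZD

variable {v : AbsoluteValue ℂ ℝ}

lemma v_nat_eq_one (hv : IsNonarchimedean v) {p : ℕ} (hp : p.Prime) (hvp : v (p : ℂ) < 1) {d : ℕ}
    (hd : ¬ p ∣ d) : v (d : ℂ) = 1 := by
  have h1 : v (d : ℂ) ≤ 1 := hv.apply_natCast_le_one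
  refine le_antisymm h1 ?_
  by_contra hcon
  push Not at hcon
  have hco : IsCoprime (p : ℤ) (d : ℤ) := Nat.isCoprime_iff_coprime.2 ((Nat.Prime.coprime_iff_not_dvd hp).2 hd)
  obtain ⟨a, b, hab⟩ := hco
  have h3 : (a : ℂ) * (p : ℂ) + (b : ℂ) * (d : ℂ) = 1 := by exact_mod_cast hab
  have h4 : v ((a : ℂ) * (p : ℂ) + (b : ℂ) * (d : ℂ)) < 1 := by
    refine lt_of_le_of_lt (hv _ _) (max_lt ?_ ?_)
    · rw [map_mul]
      exact lt_of_le_of_lt (mul_le_of_le_one_left (AbsoluteValue.nonneg v _) hv.apply_intCast_le_one) hvp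
    · rw [map_mul]
      exact lt_of_le_of_lt (mul_le_of_le_one_left (AbsoluteValue.nonneg v _) hv.apply_intCast_le_one) hcon
  rw [h3, map_one] at h4
  exact lt_irrefl _ h4

lemma v_int_eq_one (hv : IsNonarchimedean v) {p : ℕ} (hp : p.Prime) (hvp : v (p : ℂ) < 1) {d : ℤ}
    (hd : ¬ (p : ℤ) ∣ d) : v (d : ℂ) = 1 := by
  have h1 : ¬ p ∣ d.natAbs := fun h => hd (Int.natCast_dvd.2 h)
  have h2 := v_nat_eq_one hv hp hvp h1
  rcases Int.natAbs_eq d with h | h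
  · rw [h, Int.cast_natCast]; exact h2
  · rw [h, Int.cast_neg, Int.cast_natCast, map_neg_eq_map]; exact h2

lemma v_int_lt_iff (hv : IsNonarchimedean v) {p : ℕ} (hp : p.Prime) (hvp : v (p : ℂ) < 1) {d : ℤ} :
    v (d : ℂ) < 1 ↔ (p : ℤ) ∣ d := by
  constructor
  · intro h
    by_contra hcon
    rw [v_int_eq_one hv hp hvp hcon] at h
    exact lt_irrefl _ h
  · rintro ⟨c, rfl⟩
    rw [Int.cast_mul, map_mul, Int.cast_natCast]
    exact lt_of_le_of_lt (mul_le_of_le_one_right (AbsoluteValue.nonneg v _) hv.apply_intCast_le_one) hvp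

/-- the denominator of a rational unit is prime to `p` -/
lemma rat_den (hv : IsNonarchimedean v) {p : ℕ} (hp : p.Prime) (hvp : v (p : ℂ) < 1) {q : ℚ}
    (hq : v (q : ℂ) ≤ 1) : ¬ p ∣ q.den := by
  intro h
  have h1 : ¬ (p : ℤ) ∣ q.num := by
    intro h2
    have h3 := Nat.dvd_gcd (Int.natCast_dvd.1 h2) h
    rw [q.reduced.gcd_eq_one] at h3
    exact hp.one_lt.ne' (Nat.dvd_one.1 h3)
  have h2 := v_int_eq_one hv hp hvp h1
  have h3 : v (q.den : ℂ) < 1 := by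
    have := (v_int_lt_iff hv hp hvp (d := (q.den : ℤ))).2 (by exact_mod_cast h)
    simpa using this
  have h4 : (q : ℂ) * (q.den : ℂ) = (q.num : ℂ) := by
    exact_mod_cast Rat.mul_den_eq_num q
  have h5 := congrArg v h4
  rw [map_mul, h2] at h5
  have h6 : v (q : ℂ) * v (q.den : ℂ) < 1 :=
    lt_of_le_of_lt (mul_le_of_le_one_left (AbsoluteValue.nonneg v _) hq) h3
  linarith

/-- the standard root of unity -/
noncomputable def zr (N : ℕ) : ℂ := Complex.exp (2 * Real.pi * Complex.I / N)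

lemma zr_prim {N : ℕ} (hN : 0 < N) : IsPrimitiveRoot (zr N) N := Complex.isPrimitiveRoot_exp N hN.ne'

lemma zr_mul {N M : ℕ} (hN : 0 < N) (hM : 0 < M) : zr (N * M) ^ M = zr N := by
  have h1 : (N : ℂ) ≠ 0 := by exact_mod_cast hN.ne'
  have h2 : (M : ℂ) ≠ 0 := by exact_mod_cast hM.ne'
  rw [zr, zr, ← Complex.exp_nat_mul]
  congr 1
  push_cast
  field_simp

/-- a multiple of `x` is an integral polynomial in a root of unity of order prime to `p` -/
def Unram (p : ℕ) (x : ℂ) : Prop :=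
  ∃ (d N : ℕ) (h : Polynomial ℤ), ¬ p ∣ d ∧ ¬ p ∣ N ∧ (d : ℂ) * x = Polynomial.aeval (zr N) h

lemma pos_of_not_dvd {p N : ℕ} (h : ¬ p ∣ N) : 0 < N := Nat.pos_of_ne_zero (by
  rintro rfl
  exact h (dvd_zero p))

lemma Unram.lift {p : ℕ} (hp : p.Prime) {d N N' : ℕ} {h : Polynomial ℤ} {x : ℂ} (hN : ¬ p ∣ N) (hN' : ¬ p ∣ N')
    (hx : (d : ℂ) * x = Polynomial.aeval (zr N) h) :
    (d : ℂ) * x = Polynomial.aeval (zr (N * N')) (h.comp (Polynomial.X ^ N')) := by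
  have _ := hp
  rw [Polynomial.aeval_comp, map_pow, Polynomial.aeval_X, zr_mul (pos_of_not_dvd hN) (pos_of_not_dvd hN')]
  exact hx

lemma unram_of_mem {p : ℕ} (hp : p.Prime) (hv : IsNonarchimedean v) (hvp : v (p : ℂ) < 1) {x : ℂ}
    (hx : x ∈ Subring.closure ({x : ℂ | ∃ q : ℚ, x = q ∧ v x = 1} ∪ {x : ℂ | ∃ g : ℕ, ¬ p ∣ g ∧ x ^ g = 1})) :
    Unram p x := by
  have hnd : ∀ {a b : ℕ}, ¬ p ∣ a → ¬ p ∣ b → ¬ p ∣ a * b := fun ha hb h =>
    ((Nat.Prime.dvd_mul hp).1 h).elim ha hb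
  have h1p : ¬ p ∣ 1 := fun h => hp.one_lt.ne' (Nat.dvd_one.1 h)
  induction hx using Subring.closure_induction with
  | mem x hx =>
    rcases hx with ⟨q, rfl, hq⟩ | ⟨g, hg, hxg⟩
    · refine ⟨q.den, 1, Polynomial.C q.num, rat_den hv hp hvp hq.le, h1p, ?_⟩
      rw [Polynomial.aeval_C, mul_comm]
      simp only [eq_intCast]
      exact_mod_cast Rat.mul_den_eq_num q
    · have hgp := pos_of_not_dvd hg
      have : NeZero g := ⟨hgp.ne'⟩
      obtain ⟨i, -, hi⟩ := (zr_prim hgp).eq_pow_of_pow_eq_one hxg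
      exact ⟨1, g, Polynomial.X ^ i, h1p, hg, by simp [hi]⟩
  | zero => exact ⟨1, 1, 0, h1p, h1p, by simp⟩
  | one => exact ⟨1, 1, 1, h1p, h1p, by simp⟩
  | add x y _ _ hx hy =>
    obtain ⟨d, N, h, hd, hN, hx⟩ := hx
    obtain ⟨d', N', h', hd', hN', hy⟩ := hy
    have e1 := Unram.lift hp hN hN' hx
    have e2 := Unram.lift hp hN' hN hy
    refine ⟨d * d', N * N', (d' : Polynomial ℤ) * h.comp (Polynomial.X ^ N') +
      (d : Polynomial ℤ) * h'.comp (Polynomial.X ^ N), hnd hd hd', hnd hN hN', ?_⟩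
    rw [map_add, map_mul, map_mul, ← e1, mul_comm N N', ← e2]
    push_cast
    simp only [map_natCast]
    ring
  | neg x _ hx =>
    obtain ⟨d, N, h, hd, hN, hx⟩ := hx
    exact ⟨d, N, -h, hd, hN, by rw [map_neg, ← hx]; ring⟩
  | mul x y _ _ hx hy =>
    obtain ⟨d, N, h, hd, hN, hx⟩ := hx
    obtain ⟨d', N', h', hd', hN', hy⟩ := hy
    have e1 := Unram.lift hp hN hN' hx
    have e2 := Unram.lift hp hN' hN hy
    refine ⟨d * d', N * N', h.comp (Polynomial.X ^ N') * h'.comp (Polynomial.X ^ N), hnd hd hd', hnd hN hN', ?_⟩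
    rw [map_mul, ← e1, mul_comm N N', ← e2]
    push_cast
    ring

/-- **there is no value in `(v p, 1)`** -/
theorem gap_unram (hv : IsNonarchimedean v) {p : ℕ} (hp : p.Prime) (hvp : v (p : ℂ) < 1) (x : ℂ)
    (hx : x ∈ Subring.closure ({x : ℂ | ∃ q : ℚ, x = q ∧ v x = 1} ∪ {x : ℂ | ∃ g : ℕ, ¬ p ∣ g ∧ x ^ g = 1}))
    (h1 : v x < 1) : v x ≤ v (p : ℂ) := by
  obtain ⟨d, N, h, hd, hN, he⟩ := unram_of_mem hp hv hvp hx
  have h2 : v (d : ℂ) = 1 := v_nat_eq_one hv hp hvp hd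
  have h3 : v x = v (Polynomial.aeval (zr N) h) := by rw [← he, map_mul, h2, one_mul]
  have h4 : Polynomial.aeval (zr N) h =
      aeval (fun _ : Fin 1 => zr N) (Polynomial.aeval (X 0 : MvPolynomial (Fin 1) ℤ) h) := by
    rw [← Polynomial.aeval_algHom_apply, aeval_X]
  rw [h3, h4] at h1 ⊢
  exact unramified hv hp ((Nat.Prime.coprime_iff_not_dvd hp).2 hN) _
    (fun _ => (zr_prim (pos_of_not_dvd hN)).pow_eq_one) h1

end Pool.Agent.Helper69.DL
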