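import Pool.Agent.Helper69.DL.Pairs2

/-! # The equations modulo the maximal ideal at the points of `pairs2` -/

open MvPolynomial

namespace Pool.Agent.Helper69.DL
open Pool.Agent.Helper20.ZD Pool.Agent.Helper20.DL Pool.Agent.Helper22.DL

variable {v : AbsoluteValue ℂ ℝ}

/-- Taylor expansion of the first order -/
lemma taylor_first (hv : IsNonarchimedean v) (H : MvPolynomial (Fin 2) ℤ) {z w : Fin 2 → ℂ}
    (hz : ∀ i, v (z i) ≤ 1) (hw : ∀ i, v (w i) ≤ 1) {r : ℝ} (hr0 : 0 ≤ r) (hzw : ∀ i, v (z i - w i) ≤ r) :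
    v (aeval z H - aeval w H - (aeval w (pderiv 0 H) * (z 0 - w 0) + aeval w (pderiv 1 H) * (z 1 - w 1))) ≤
      r ^ 2 := by
  induction H using MvPolynomial.induction_on with
  | C a => simpa using pow_nonneg hr0 2
  | add f g hf hg =>
    rw [map_add, map_add, map_add, map_add, map_add, map_add,
      show aeval z f + aeval z g - (aeval w f + aeval w g) - ((aeval w (pderiv 0 f) + aeval w (pderiv 0 g)) *
        (z 0 - w 0) + (aeval w (pderiv 1 f) + aeval w (pderiv 1 g)) * (z 1 - w 1)) =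
        (aeval z f - aeval w f - (aeval w (pderiv 0 f) * (z 0 - w 0) + aeval w (pderiv 1 f) * (z 1 - w 1))) +
        (aeval z g - aeval w g - (aeval w (pderiv 0 g) * (z 0 - w 0) + aeval w (pderiv 1 g) * (z 1 - w 1))) by ring]
    exact (hv _ _).trans (max_le hf hg)
  | mul_X f i hf =>
    have h1 : v (aeval z f - aeval w f) ≤ r := v_aeval_sub_le hv f hz hw hr0 hzw
    have key : aeval z (f * X i) - aeval w (f * X i) - (aeval w (pderiv 0 (f * X i)) * (z 0 - w 0) +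
        aeval w (pderiv 1 (f * X i)) * (z 1 - w 1)) =
        (aeval z f - aeval w f - (aeval w (pderiv 0 f) * (z 0 - w 0) + aeval w (pderiv 1 f) * (z 1 - w 1))) * w i +
        (aeval z f - aeval w f) * (z i - w i) := by
      rw [Derivation.leibniz, Derivation.leibniz]
      fin_cases i
      · have e1 : pderiv (1 : Fin 2) (X 0 : MvPolynomial (Fin 2) ℤ) = 0 := pderiv_X_of_ne (by decide)
        simp [e1]
        ring
      · have e1 : pderiv (0 : Fin 2) (X 1 : MvPolynomial (Fin 2) ℤ) = 0 := pderiv_X_of_ne (by decide)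
        simp [e1]
        ring
    rw [key]
    refine (hv _ _).trans (max_le ?_ ?_)
    · rw [map_mul]
      exact (mul_le_of_le_one_right (AbsoluteValue.nonneg v _) (hw i)).trans hf
    · rw [map_mul, sq]
      exact mul_le_mul h1 (hzw i) (AbsoluteValue.nonneg v _) hr0

/-- the term of the first order of `H` along the curve, divided by `p` -/
noncomputable def firstW (H : MvPolynomial (Fin 2) ℤ) (c : Fin 4 → ℤ) (z : ℂ × ℂ) (u : Fin 4 → ℂ) : ℂ :=
  -(z.1 * aeval ![z.1, z.2] (pderiv 0 H) * (c 0 * u 0 + c 1 * u 1) +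
    z.2 * aeval ![z.1, z.2] (pderiv 1 H) * (c 2 * u 2 + c 3 * u 3))

lemma v_sum_le (hv : IsNonarchimedean v) {u : Fin 4 → ℂ} (hu : ∀ i, v (u i) ≤ 1) (c : Fin 4 → ℤ) (i j : Fin 4) :
    v ((c i : ℂ) * u i + c j * u j) ≤ 1 := by
  refine (hv _ _).trans (max_le ?_ ?_)
  · rw [map_mul]; exact mul_le_one₀ hv.apply_intCast_le_one (AbsoluteValue.nonneg v _) (hu i)
  · rw [map_mul]; exact mul_le_one₀ hv.apply_intCast_le_one (AbsoluteValue.nonneg v _) (hu j)

lemma near_of_first (hv : IsNonarchimedean v) {p : ℕ} (hvp0 : 0 < v (p : ℂ)) {w ζ s : ℂ} (h1 : v ζ = 1)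
    (h2 : v s ≤ 1) (h3 : v (w - ζ * (1 + p * s)) < v (p : ℂ)) : v (w - ζ) ≤ v (p : ℂ) := by
  rw [show w - ζ = (w - ζ * (1 + p * s)) + ζ * (p * s) by ring]
  refine (hv _ _).trans (max_le h3.le ?_)
  rw [map_mul, map_mul, h1, one_mul]
  exact mul_le_of_le_one_right hvp0.le h2

/-- **the equations modulo the maximal ideal** at the points of `pairs2` -/
theorem pairs2_first (hv : IsNonarchimedean v) {p : ℕ} (hp : p.Prime) (hp2 : p ≠ 2) (hvp : v (p : ℂ) < 1)
    {H B : MvPolynomial (Fin 2) ℤ} (hB : H ^ p - expand p H = C (p : ℤ) * B)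
    {G : Fin 4 → MvPolynomial (Fin 2) ℤ} {c : Fin 4 → ℤ} {z : ℂ × ℂ} (hz : z ∈ pairs2 v p H G c) :
    v z.1 = 1 ∧ v z.2 = 1 ∧ v (ev H z.1 z.2) ≤ v (p : ℂ) ∧ ∃ u : Fin 4 → ℂ, (∀ i, v (u i) ≤ 1) ∧
      v (ev (G 0) (u 0) z.1) < 1 ∧ v (ev (G 1) (u 1) z.1) < 1 ∧ v (ev (G 2) (u 2) z.2) < 1 ∧
      v (ev (G 3) (u 3) z.2) < 1 ∧ v (aeval ![z.1, z.2] B + firstW H c z u ^ p) < 1 := by
  have hvp0 : 0 < v (p : ℂ) := (AbsoluteValue.pos_iff v).2 (by exact_mod_cast hp.ne_zero)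
  have hp0 : (p : ℂ) ≠ 0 := by exact_mod_cast hp.ne_zero
  obtain ⟨⟨N, hN, h1, h2⟩, x, y, u, hu, hxy, g0, g1, g2, g3, hx, hy⟩ := hz
  have hNpos : 0 < N := by
    rcases Nat.eq_zero_or_pos N with rfl | h
    · exact absurd ((Nat.coprime_zero_left p).1 hN) hp.one_lt.ne'
    · exact h
  have hz1 : v z.1 = 1 := val_root hNpos h1
  have hz2 : v z.2 = 1 := val_root hNpos h2
  have nx := near_of_first hv hvp0 hz1 (v_sum_le hv hu c 0 1) hx
  have ny := near_of_first hv hvp0 hz2 (v_sum_le hv hu c 2 3) hy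
  have hxv : v x ≤ 1 := v_le_of_near hv hz1.le (nx.trans hvp.le)
  have hyv : v y ≤ 1 := v_le_of_near hv hz2.le (ny.trans hvp.le)
  have hev : v (ev H z.1 z.2) ≤ v (p : ℂ) := by
    have h3 := ev_sub_le hv H hxv hz1.le hyv hz2.le
    rw [hxy, zero_sub, map_neg_eq_map] at h3
    exact h3.trans (max_le nx ny)
  have small : ∀ (K : MvPolynomial (Fin 2) ℤ) {s w w' : ℂ}, v s ≤ 1 → v w ≤ 1 → v w' ≤ 1 →
      v (w - w') ≤ v (p : ℂ) → ev K s w = 0 → v (ev K s w') < 1 := by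
    intro K s w w' hs hw hw' hww h0
    have h3 := ev_sub_le hv K hs hs hw hw'
    rw [h0, zero_sub, map_neg_eq_map, sub_self, map_zero] at h3
    exact h3.trans_lt (max_lt one_pos (hww.trans_lt hvp))
  refine ⟨hz1, hz2, hev, u, hu, small _ (hu 0) hxv hz1.le nx g0, small _ (hu 1) hxv hz1.le nx g1,
    small _ (hu 2) hyv hz2.le ny g2, small _ (hu 3) hyv hz2.le ny g3, ?_⟩
  -- Taylor
  have hη : ∀ i, v (![z.1, z.2] i) ≤ 1 := by
    intro i; fin_cases i
    · exact hz1.le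
    · exact hz2.le
  have hξ : ∀ i, v (![x, y] i) ≤ 1 := by
    intro i; fin_cases i
    · exact hxv
    · exact hyv
  have hd : ∀ i, v (![x, y] i - ![z.1, z.2] i) ≤ v (p : ℂ) := by
    intro i; fin_cases i
    · exact nx
    · exact ny
  have ht := taylor_first hv H hξ hη hvp0.le hd
  have ht2 : v (p : ℂ) ^ 2 < v (p : ℂ) := by
    rw [sq]; exact mul_lt_of_lt_one_left hvp0 hvp
  have hxy0 : aeval ![x, y] H = 0 := by rw [← ev_eq_aeval]; exact hxy
  have hle : v (aeval ![z.1, z.2] H) ≤ v (p : ℂ) := by rw [← ev_eq_aeval]; exact hev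
  have hA0 : v (aeval ![z.1, z.2] (pderiv 0 H)) ≤ 1 := v_aeval_le hv _ hη
  have hA1 : v (aeval ![z.1, z.2] (pderiv 1 H)) ≤ 1 := v_aeval_le hv _ hη
  rw [hxy0] at ht
  simp only [Matrix.cons_val_zero, Matrix.cons_val_one] at ht
  set A0 := aeval ![z.1, z.2] (pderiv 0 H) with hA0'
  set A1 := aeval ![z.1, z.2] (pderiv 1 H) with hA1'
  set h := aeval ![z.1, z.2] H with hh
  have hW : v (h / p - firstW H c z u) < 1 := by
    have e : h / p - firstW H c z u = -((0 - h - (A0 * (x - z.1) + A1 * (y - z.2))) +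
        (A0 * (x - z.1 * (1 + p * (c 0 * u 0 + c 1 * u 1))) +
          A1 * (y - z.2 * (1 + p * (c 2 * u 2 + c 3 * u 3))))) / p := by
      rw [firstW, ← hA0', ← hA1']
      field_simp
      ring
    rw [e, map_div₀, map_neg_eq_map, div_lt_one hvp0]
    refine (hv _ _).trans_lt (max_lt (ht.trans_lt ht2) ((hv _ _).trans_lt (max_lt ?_ ?_)))
    · rw [map_mul]
      exact lt_of_le_of_lt (mul_le_of_le_one_left (AbsoluteValue.nonneg v _) hA0) hx
    · rw [map_mul]
      exact lt_of_le_of_lt (mul_le_of_le_one_left (AbsoluteValue.nonneg v _) hA1) hy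
  have hη' : ∀ i, ![z.1, z.2] i ^ N = 1 := by
    intro i; fin_cases i
    · exact h1
    · exact h2
  have hf := frob_first_order hv hp hp2 hvp hN.symm hB hη' hle
  rw [← hh] at hf
  have hhp : v (h / p) ≤ 1 := by rw [map_div₀]; exact (div_le_one hvp0).2 hle
  have hWle : v (firstW H c z u) ≤ 1 := by
    refine v_le_of_near hv hhp ?_
    rw [← map_neg_eq_map v, neg_sub]
    exact hW.le
  have h5 := v_pow_sub_lt hv hhp hWle hW p
  rw [show aeval ![z.1, z.2] B + firstW H c z u ^ p = (aeval ![z.1, z.2] B + (h / p) ^ p) +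
    (-((h / p) ^ p - firstW H c z u ^ p)) by ring]
  refine (hv _ _).trans_lt (max_lt hf ?_)
  rw [map_neg_eq_map]
  exact h5

end Pool.Agent.Helper69.DL
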