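import Pool.Agent.Helper69.DL.Pairs2

/-! # Torsion points near the curve to the first order: rational factors, all orders -/

open MvPolynomial

namespace Pool.Agent.Helper69.DL
open Pool.Agent.Helper20.ZD Pool.Agent.Helper20.DL Pool.Agent.Helper22.DL

variable {v : AbsoluteValue ℂ ℝ}

/-- the finiteness of the pairs of order prime to `p` -/
def FinitePairs2 (v : AbsoluteValue ℂ ℝ) (p : ℕ) : Prop :=
  ∀ (H : MvPolynomial (Fin 2) ℤ) (G : Fin 4 → MvPolynomial (Fin 2) ℤ) (c : Fin 4 → ℤ), GoodRel v p H →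
    (∀ i, GoodRel v p (G i)) → ∃ F : Finset (ℂ × ℂ), ∀ z ∈ pairs2 v p H G c, z ∈ F

/-- closeness after replacing the constants by integers -/
lemma near_int (hv : IsNonarchimedean v) {p : ℕ} (hvp0 : 0 < v (p : ℂ)) (hvp : v (p : ℂ) < 1) {μ s s' : ℂ}
    {a : ℤ} (ha1 : v (a : ℂ) = 1) (ha : v (μ - a) ≤ v (p : ℂ) ^ 2) (hs : v s ≤ 1)
    (hss : v (s - s') ≤ v (p : ℂ) ^ 2) {x ζ : ℂ} (hζ : v ζ = 1)
    (hx : v (x - μ * ζ * (1 + p * s)) < v (p : ℂ)) : v (x / a - ζ * (1 + p * s')) < v (p : ℂ) := by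
  have ha0 : (a : ℂ) ≠ 0 := by
    intro h
    rw [h, map_zero] at ha1
    exact zero_ne_one ha1
  have hp2 : v (p : ℂ) ^ 2 < v (p : ℂ) := by
    rw [sq]; exact mul_lt_of_lt_one_left hvp0 hvp
  have h1s : v (1 + p * s) ≤ 1 := by
    refine (hv _ _).trans (max_le (by rw [map_one]) ?_)
    rw [map_mul]
    exact mul_le_one₀ hvp.le (AbsoluteValue.nonneg v _) hs
  have e : x / a - ζ * (1 + p * s') = ((x - μ * ζ * (1 + p * s)) + ((μ - a) * (ζ * (1 + p * s)) +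
      a * ζ * (p * (s - s')))) / a := by
    field_simp
    ring
  rw [e, map_div₀, ha1, div_one]
  refine (hv _ _).trans_lt (max_lt hx ((hv _ _).trans_lt (max_lt ?_ ?_)))
  · rw [map_mul, map_mul, hζ, one_mul]
    exact lt_of_le_of_lt (mul_le_of_le_one_right (AbsoluteValue.nonneg v _) h1s) (ha.trans_lt hp2)
  · rw [map_mul, map_mul, map_mul, ha1, hζ, one_mul, one_mul]
    have h2 : v (s - s') < 1 := hss.trans_lt (hp2.trans hvp)
    exact mul_lt_of_lt_one_right hvp0 h2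

/-- **torsion points to the first order**, from the finiteness for roots of unity of order prime to `p` -/
theorem torsion_rel2 (hv : IsNonarchimedean v) {p : ℕ} (hp : p.Prime) (hvp : v (p : ℂ) < 1)
    (hfin : FinitePairs2 v p) {H : MvPolynomial (Fin 2) ℤ} (hH : GoodRel v p H)
    {G : Fin 4 → MvPolynomial (Fin 2) ℤ} (hG : ∀ i, GoodRel v p (G i)) (μ₁ μ₂ : ℚ) (hμ₁ : v (μ₁ : ℂ) = 1)
    (hμ₂ : v (μ₂ : ℂ) = 1) (c : Fin 4 → ℚ) (hc : ∀ i, v (c i : ℂ) ≤ 1) :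
    ∃ B : ℕ, ∀ (x y : ℂ) (u : Fin 4 → ℂ) (ζ₁ ζ₂ : ℂ) (g₁ g₂ : ℕ), 0 < g₁ → 0 < g₂ → IsPrimitiveRoot ζ₁ g₁ →
      IsPrimitiveRoot ζ₂ g₂ → (∀ i, v (u i) ≤ 1) → ev H x y = 0 → ev (G 0) (u 0) x = 0 →
      ev (G 1) (u 1) x = 0 → ev (G 2) (u 2) y = 0 → ev (G 3) (u 3) y = 0 →
      v (x - μ₁ * ζ₁ * (1 + p * (c 0 * u 0 + c 1 * u 1))) < v (p : ℂ) →
      v (y - μ₂ * ζ₂ * (1 + p * (c 2 * u 2 + c 3 * u 3))) < v (p : ℂ) → g₁ ≤ B ∧ g₂ ≤ B := by
  have hvp0 : 0 < v (p : ℂ) := (AbsoluteValue.pos_iff v).2 (by exact_mod_cast hp.ne_zero)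
  have hvp2 : v (p : ℂ) ^ 2 ≤ v (p : ℂ) := by
    rw [sq]; exact mul_le_of_le_one_left hvp0.le hvp.le
  -- the integers
  have key : ∀ μ : ℚ, v (μ : ℂ) = 1 → ∃ a : ℤ, v ((μ : ℂ) - a) ≤ v (p : ℂ) ^ 2 ∧ ¬ (p : ℤ) ∣ a := by
    intro μ hμ
    obtain ⟨a, ha⟩ := exists_int_near hv hp hvp hμ.le
    refine ⟨a, ha, fun h => ?_⟩
    have h1 := (v_int_lt_iff hv hp hvp).2 h
    have h2 : v (μ : ℂ) < 1 := by
      rw [show (μ : ℂ) = (μ - a) + a by ring]
      exact lt_of_le_of_lt (hv _ _) (max_lt (lt_of_le_of_lt (ha.trans hvp2) hvp) h1)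
    rw [hμ] at h2
    exact lt_irrefl _ h2
  obtain ⟨a, ha, hpa⟩ := key μ₁ hμ₁
  obtain ⟨b, hb, hpb⟩ := key μ₂ hμ₂
  choose c' hc' using fun i => exists_int_near hv hp hvp (hc i)
  have ha0 : a ≠ 0 := by rintro rfl; exact hpa (dvd_zero _)
  have hb0 : b ≠ 0 := by rintro rfl; exact hpb (dvd_zero _)
  have ha0' : (a : ℂ) ≠ 0 := by exact_mod_cast ha0
  have hb0' : (b : ℂ) ≠ 0 := by exact_mod_cast hb0
  have hva : v (a : ℂ) = 1 := v_int_eq_one hv hp hvp hpa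
  have hvb : v (b : ℂ) = 1 := v_int_eq_one hv hp hvp hpb
  have h1p : ¬ (p : ℤ) ∣ 1 := fun h => hp.one_lt.ne' (by
    have := Int.eq_one_of_dvd_one (Int.natCast_nonneg p) h
    exact_mod_cast this)
  set H' := scale a b H with hH'
  set G' : Fin 4 → MvPolynomial (Fin 2) ℤ :=
    ![scale 1 a (G 0), scale 1 a (G 1), scale 1 b (G 2), scale 1 b (G 3)] with hG'
  have hgH : GoodRel v p H' := goodRel_scale hv hp hvp hpa hpb hH
  have hgG : ∀ i, GoodRel v p (G' i) := by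
    intro i
    fin_cases i
    · exact goodRel_scale hv hp hvp h1p hpa (hG 0)
    · exact goodRel_scale hv hp hvp h1p hpa (hG 1)
    · exact goodRel_scale hv hp hvp h1p hpb (hG 2)
    · exact goodRel_scale hv hp hvp h1p hpb (hG 3)
  obtain ⟨F, hF⟩ := hfin H' G' c' hgH hgG
  refine ⟨F.sup (fun z => orderOf z.1) ⊔ F.sup (fun z => orderOf z.2), ?_⟩
  intro x y u ζ₁ ζ₂ g₁ g₂ hg₁ hg₂ hζ₁ hζ₂ hu hxy e0 e1 e2 e3 hx hy
  have hz1 : v ζ₁ = 1 := val_root hg₁ hζ₁.pow_eq_one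
  have hz2 : v ζ₂ = 1 := val_root hg₂ hζ₂.pow_eq_one
  have hsum : ∀ i j : Fin 4, v ((c i : ℂ) * u i + c j * u j) ≤ 1 := by
    intro i j
    refine (hv _ _).trans (max_le ?_ ?_)
    · rw [map_mul]; exact mul_le_one₀ (hc i) (AbsoluteValue.nonneg v _) (hu i)
    · rw [map_mul]; exact mul_le_one₀ (hc j) (AbsoluteValue.nonneg v _) (hu j)
  have hsub : ∀ i j : Fin 4, v (((c i : ℂ) * u i + c j * u j) - ((c' i : ℂ) * u i + c' j * u j)) ≤
      v (p : ℂ) ^ 2 := by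
    intro i j
    rw [show ((c i : ℂ) * u i + c j * u j) - ((c' i : ℂ) * u i + c' j * u j) =
      ((c i : ℂ) - c' i) * u i + ((c j : ℂ) - c' j) * u j by ring]
    refine (hv _ _).trans (max_le ?_ ?_)
    · rw [map_mul]; exact (mul_le_of_le_one_right (AbsoluteValue.nonneg v _) (hu i)).trans (hc' i)
    · rw [map_mul]; exact (mul_le_of_le_one_right (AbsoluteValue.nonneg v _) (hu j)).trans (hc' j)
  have hx' := near_int hv hvp0 hvp hva ha (hsum 0 1) (hsub 0 1) hz1 hx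
  have hy' := near_int hv hvp0 hvp hvb hb (hsum 2 3) (hsub 2 3) hz2 hy
  have hsum' : ∀ i j : Fin 4, v ((c' i : ℂ) * u i + c' j * u j) ≤ 1 := by
    intro i j
    refine (hv _ _).trans (max_le ?_ ?_)
    · rw [map_mul]; exact mul_le_one₀ hv.apply_intCast_le_one (AbsoluteValue.nonneg v _) (hu i)
    · rw [map_mul]; exact mul_le_one₀ hv.apply_intCast_le_one (AbsoluteValue.nonneg v _) (hu j)
  -- first order terms forgotten
  have near : ∀ {w ζ s : ℂ}, v ζ = 1 → v s ≤ 1 → v (w - ζ * (1 + p * s)) < v (p : ℂ) → v (w - ζ) ≤ v (p : ℂ) := by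
    intro w ζ s h1 h2 h3
    rw [show w - ζ = (w - ζ * (1 + p * s)) + ζ * (p * s) by ring]
    refine (hv _ _).trans (max_le h3.le ?_)
    rw [map_mul, map_mul, h1, one_mul]
    exact mul_le_of_le_one_right hvp0.le h2
  have nx := near hz1 (hsum' 0 1) hx'
  have ny := near hz2 (hsum' 2 3) hy'
  have hxv : v (x / a) ≤ 1 := v_le_of_near hv hz1.le (nx.trans hvp.le)
  have hyv : v (y / b) ≤ 1 := v_le_of_near hv hz2.le (ny.trans hvp.le)
  have hxy' : ev H' (x / a) (y / b) = 0 := by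
    rw [hH', ev_scale ha0 hb0, mul_div_cancel₀ _ ha0', mul_div_cancel₀ _ hb0']
    exact hxy
  have hev : v (ev H' ζ₁ ζ₂) ≤ v (p : ℂ) := by
    have h1 := ev_sub_le hv H' hxv hz1.le hyv hz2.le
    rw [hxy', zero_sub, map_neg_eq_map] at h1
    exact h1.trans (max_le nx ny)
  have hpow1 : ζ₁ ^ (g₁ * g₂) = 1 := by rw [pow_mul, hζ₁.pow_eq_one, one_pow]
  have hpow2 : ζ₂ ^ (g₁ * g₂) = 1 := by rw [mul_comm, pow_mul, hζ₂.pow_eq_one, one_pow]
  have hnd := not_dvd_orderOf hv hp hvp (noCoset_of hgH.noCoset)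
    (D := H'.totalDegree) le_rfl (large_of hgH.large) (Nat.mul_pos hg₁ hg₂) hpow1 hpow2
    (by rw [← ev_eq_aeval]; exact hev)
  rw [← hζ₁.eq_orderOf, ← hζ₂.eq_orderOf] at hnd
  have hmem : ((ζ₁, ζ₂) : ℂ × ℂ) ∈ F := by
    refine hF _ ⟨⟨g₁ * g₂, ?_, hpow1, hpow2⟩, x / a, y / b, u, hu, hxy', ?_, ?_, ?_, ?_, hx', hy'⟩
    · exact Nat.Coprime.mul_left ((Nat.Prime.coprime_iff_not_dvd hp).2 hnd.1).symm
        ((Nat.Prime.coprime_iff_not_dvd hp).2 hnd.2).symm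
    · change ev (scale 1 a (G 0)) (u 0) (x / a) = 0
      rw [ev_scale one_ne_zero ha0, Int.cast_one, one_mul, mul_div_cancel₀ _ ha0']
      exact e0
    · change ev (scale 1 a (G 1)) (u 1) (x / a) = 0
      rw [ev_scale one_ne_zero ha0, Int.cast_one, one_mul, mul_div_cancel₀ _ ha0']
      exact e1
    · change ev (scale 1 b (G 2)) (u 2) (y / b) = 0
      rw [ev_scale one_ne_zero hb0, Int.cast_one, one_mul, mul_div_cancel₀ _ hb0']
      exact e2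
    · change ev (scale 1 b (G 3)) (u 3) (y / b) = 0
      rw [ev_scale one_ne_zero hb0, Int.cast_one, one_mul, mul_div_cancel₀ _ hb0']
      exact e3
  constructor
  · refine le_sup_of_le_left ?_
    have h1 := Finset.le_sup (f := fun z : ℂ × ℂ => orderOf z.1) hmem
    simp only [← hζ₁.eq_orderOf] at h1
    exact h1
  · refine le_sup_of_le_right ?_
    have h1 := Finset.le_sup (f := fun z : ℂ × ℂ => orderOf z.2) hmem
    simp only [← hζ₂.eq_orderOf] at h1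
    exact h1

end Pool.Agent.Helper69.DL
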