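import Mathlib

/-! # Descent of an element whose `p`-th power lies in the base field -/

open Polynomial

namespace Pool.Agent.Helper69.DL

/-- a root of a nonzero polynomial of degree less than the characteristic is separable -/
lemma isSeparable_of_natDegree_lt {p : ℕ} {E F : Type*} [Field E] [Field F] [Algebra E F]
    [CharP E p] {u : F} {P : Polynomial E} (hP : P ≠ 0) (hdeg : P.natDegree < p)
    (h0 : Polynomial.aeval u P = 0) : IsSeparable E u := by
  have hint : IsIntegral E u := (isAlgebraic_iff_isIntegral).1 ⟨P, hP, h0⟩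
  have hirr := minpoly.irreducible hint
  rcases Polynomial.separable_or p hirr with h | ⟨-, g, hg, hgf⟩
  · exact h
  · exfalso
    have h1 : (minpoly E u).natDegree ≤ P.natDegree :=
      Polynomial.natDegree_le_of_dvd (minpoly.dvd E u h0) hP
    have h2 : (minpoly E u).natDegree = g.natDegree * p := by rw [← hgf, natDegree_expand]
    have h3 : 0 < (minpoly E u).natDegree := minpoly.natDegree_pos hint
    have h4 : 0 < g.natDegree := by
      rcases Nat.eq_zero_or_pos g.natDegree with h | h
      · rw [h2, h, zero_mul] at h3; exact absurd h3 (lt_irrefl _)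
      · exact h
    have h5 : p ≤ g.natDegree * p := Nat.le_mul_of_pos_left p h4
    omega

/-- **descent** -/
theorem mem_range_of_pow {p : ℕ} (hp : p.Prime) {E F : Type*} [Field E] [Field F] [Algebra E F]
    [CharP E p] {s : Set F} (hs : ∀ u ∈ s, ∃ P : Polynomial E, P ≠ 0 ∧ P.natDegree < p ∧ Polynomial.aeval u P = 0)
    {W : F} (hW : W ∈ Algebra.adjoin E s) (hWp : W ^ p ∈ (algebraMap E F).range) :
    W ∈ (algebraMap E F).range := by
  have : ExpChar E p := ExpChar.prime hp
  have h1 : W ∈ separableClosure E F := by
    have h2 : Algebra.adjoin E s ≤ (separableClosure E F).toSubalgebra := by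
      rw [Algebra.adjoin_le_iff]
      intro u hu
      obtain ⟨P, h3, h4, h5⟩ := hs u hu
      exact mem_separableClosure_iff.2 (isSeparable_of_natDegree_lt h3 h4 h5)
    exact h2 hW
  have h2 : W ∈ perfectClosure E F :=
    (mem_perfectClosure_iff_pow_mem p).2 ⟨1, by rw [pow_one]; exact hWp⟩
  have h3 : W ∈ separableClosure E F ⊓ perfectClosure E F := ⟨h1, h2⟩
  rw [separableClosure_inf_perfectClosure, IntermediateField.mem_bot] at h3
  exact h3

/-- a derivation of the base field kills the element whose image is a `p`-th power of an element of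
the algebra generated by roots of polynomials of degree less than `p` -/
theorem derivation_eq_zero {p : ℕ} (hp : p.Prime) {E F k : Type*} [Field E] [Field F] [Algebra E F]
    [CharP E p] [CommRing k] [Algebra k E] {s : Set F}
    (hs : ∀ u ∈ s, ∃ P : Polynomial E, P ≠ 0 ∧ P.natDegree < p ∧ Polynomial.aeval u P = 0)
    {W : F} (hW : W ∈ Algebra.adjoin E s) {b : E} (hWp : algebraMap E F b = W ^ p)
    (δ : Derivation k E E) : δ b = 0 := by
  obtain ⟨w, hw⟩ := mem_range_of_pow hp hs hW ⟨b, hWp⟩
  have h1 : b = w ^ p := by
    apply (algebraMap E F).injective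
    rw [hWp, map_pow, hw]
  rw [h1, Derivation.leibniz_pow, nsmul_eq_mul, CharP.cast_eq_zero E p, zero_mul]

end Pool.Agent.Helper69.DL
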