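import Pool.Agent.Helper69.DL.Rel2
import Pool.Agent.Helper69.DL.First
import Pool.Agent.Helper36.DL.Unif
import Pool.Agent.Helper81.DL.Frob2

/-! # Torsion points to the first order, uniformly in the constants -/

open MvPolynomial

namespace Pool.Agent.Helper69.DL
open Pool.Agent.Helper20.ZD Pool.Agent.Helper20.DL Pool.Agent.Helper22.DL Pool.Agent.Helper36.DL

variable {v : AbsoluteValue ℂ ℝ}

/-- closeness after replacing the constants by integers -/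
lemma near_int' (hv : IsNonarchimedean v) {p : ℕ} (hvp0 : 0 < v (p : ℂ)) (hvp : v (p : ℂ) < 1) {μ s s' : ℂ}
    {a : ℤ} (ha1 : v (a : ℂ) = 1) (ha : v (μ - a) ≤ v (p : ℂ) ^ 2) (hs : v s ≤ 1)
    (hss : v (s - s') < 1) {x ζ : ℂ} (hζ : v ζ = 1)
    (hx : v (x - μ * ζ * (1 + p * s)) < v (p : ℂ)) : v (x / a - ζ * (1 + p * s')) < v (p : ℂ) := by
  have ha0 : (a : ℂ) ≠ 0 := by
    intro h
    rw [h, map_zero] at ha1
    exact zero_ne_one ha1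
  have hp2 : v (p : ℂ) ^ 2 < v (p : ℂ) := by
    rw [sq]; exact mul_lt_of_lt_one_left hvp0 hvp
  have h1s : v (1 + p * s) ≤ 1 := by
    refine (hv _ _).trans (max_le (by rw [map_one]) ?_)
    rw [map_mul]
    exact mul_le_one₀ hvp.le (AbsoluteValue.nonneg v _) hs
  have e : x / a - ζ * (1 + p * s') = ((x - μ * ζ * (1 + p * s)) + ((μ - a) * (ζ * (1 + p * s)) +
      a * ζ * (p * (s - s')))) / a := by
    field_simp
    ring
  rw [e, map_div₀, ha1, div_one]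
  refine (hv _ _).trans_lt (max_lt hx ((hv _ _).trans_lt (max_lt ?_ ?_)))
  · rw [map_mul, map_mul, hζ, one_mul]
    exact lt_of_le_of_lt (mul_le_of_le_one_right (AbsoluteValue.nonneg v _) h1s) (ha.trans_lt hp2)
  · rw [map_mul, map_mul, map_mul, ha1, hζ, one_mul, one_mul]
    exact mul_lt_of_lt_one_right hvp0 hss

/-- **torsion points to the first order**, for integral constants -/
theorem torsion_core (hv : IsNonarchimedean v) {p : ℕ} (hp : p.Prime) (hvp : v (p : ℂ) < 1)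
    (hfin : FinitePairs2 v p) {H : MvPolynomial (Fin 2) ℤ} (hH : GoodRel v p H)
    {G : Fin 4 → MvPolynomial (Fin 2) ℤ} (hG : ∀ i, GoodRel v p (G i)) (a b : ℤ) (hpa : ¬ (p : ℤ) ∣ a)
    (hpb : ¬ (p : ℤ) ∣ b) (c' : Fin 4 → ℤ) :
    ∃ B : ℕ, ∀ (x y : ℂ) (u : Fin 4 → ℂ) (ζ₁ ζ₂ : ℂ) (g₁ g₂ : ℕ), 0 < g₁ → 0 < g₂ → IsPrimitiveRoot ζ₁ g₁ →
      IsPrimitiveRoot ζ₂ g₂ → (∀ i, v (u i) ≤ 1) → ev H x y = 0 → ev (G 0) (u 0) x = 0 →
      ev (G 1) (u 1) x = 0 → ev (G 2) (u 2) y = 0 → ev (G 3) (u 3) y = 0 →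
      v (x / a - ζ₁ * (1 + p * (c' 0 * u 0 + c' 1 * u 1))) < v (p : ℂ) →
      v (y / b - ζ₂ * (1 + p * (c' 2 * u 2 + c' 3 * u 3))) < v (p : ℂ) → g₁ ≤ B ∧ g₂ ≤ B := by
  have hvp0 : 0 < v (p : ℂ) := (AbsoluteValue.pos_iff v).2 (by exact_mod_cast hp.ne_zero)
  have ha0 : a ≠ 0 := by rintro rfl; exact hpa (dvd_zero _)
  have hb0 : b ≠ 0 := by rintro rfl; exact hpb (dvd_zero _)
  have ha0' : (a : ℂ) ≠ 0 := by exact_mod_cast ha0
  have hb0' : (b : ℂ) ≠ 0 := by exact_mod_cast hb0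
  have h1p : ¬ (p : ℤ) ∣ 1 := fun h => hp.one_lt.ne' (by
    have := Int.eq_one_of_dvd_one (Int.natCast_nonneg p) h
    exact_mod_cast this)
  set H' := scale a b H with hH'
  set G' : Fin 4 → MvPolynomial (Fin 2) ℤ :=
    ![scale 1 a (G 0), scale 1 a (G 1), scale 1 b (G 2), scale 1 b (G 3)] with hG'
  have hgH : GoodRel v p H' := goodRel_scale hv hp hvp hpa hpb hH
  have hgG : ∀ i, GoodRel v p (G' i) := by
    intro i
    fin_cases i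
    · exact goodRel_scale hv hp hvp h1p hpa (hG 0)
    · exact goodRel_scale hv hp hvp h1p hpa (hG 1)
    · exact goodRel_scale hv hp hvp h1p hpb (hG 2)
    · exact goodRel_scale hv hp hvp h1p hpb (hG 3)
  obtain ⟨F, hF⟩ := hfin H' G' c' hgH hgG
  refine ⟨F.sup (fun z => orderOf z.1) ⊔ F.sup (fun z => orderOf z.2), ?_⟩
  intro x y u ζ₁ ζ₂ g₁ g₂ hg₁ hg₂ hζ₁ hζ₂ hu hxy e0 e1 e2 e3 hx' hy'
  have hz1 : v ζ₁ = 1 := val_root hg₁ hζ₁.pow_eq_one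
  have hz2 : v ζ₂ = 1 := val_root hg₂ hζ₂.pow_eq_one
  have nx := near_of_first hv hvp0 hz1 (v_sum_le hv hu c' 0 1) hx'
  have ny := near_of_first hv hvp0 hz2 (v_sum_le hv hu c' 2 3) hy'
  have hxv : v (x / a) ≤ 1 := v_le_of_near hv hz1.le (nx.trans hvp.le)
  have hyv : v (y / b) ≤ 1 := v_le_of_near hv hz2.le (ny.trans hvp.le)
  have hxy' : ev H' (x / a) (y / b) = 0 := by
    rw [hH', ev_scale ha0 hb0, mul_div_cancel₀ _ ha0', mul_div_cancel₀ _ hb0']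
    exact hxy
  have hev : v (ev H' ζ₁ ζ₂) ≤ v (p : ℂ) := by
    have h1 := ev_sub_le hv H' hxv hz1.le hyv hz2.le
    rw [hxy', zero_sub, map_neg_eq_map] at h1
    exact h1.trans (max_le nx ny)
  have hpow1 : ζ₁ ^ (g₁ * g₂) = 1 := by rw [pow_mul, hζ₁.pow_eq_one, one_pow]
  have hpow2 : ζ₂ ^ (g₁ * g₂) = 1 := by rw [mul_comm, pow_mul, hζ₂.pow_eq_one, one_pow]
  have hnd := not_dvd_orderOf hv hp hvp (noCoset_of hgH.noCoset)
    (D := H'.totalDegree) le_rfl (large_of hgH.large) (Nat.mul_pos hg₁ hg₂) hpow1 hpow2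
    (by rw [← ev_eq_aeval]; exact hev)
  rw [← hζ₁.eq_orderOf, ← hζ₂.eq_orderOf] at hnd
  have hmem : ((ζ₁, ζ₂) : ℂ × ℂ) ∈ F := by
    refine hF _ ⟨⟨g₁ * g₂, ?_, hpow1, hpow2⟩, x / a, y / b, u, hu, hxy', ?_, ?_, ?_, ?_, hx', hy'⟩
    · exact Nat.Coprime.mul_left ((Nat.Prime.coprime_iff_not_dvd hp).2 hnd.1).symm
        ((Nat.Prime.coprime_iff_not_dvd hp).2 hnd.2).symm
    · change ev (scale 1 a (G 0)) (u 0) (x / a) = 0
      rw [ev_scale one_ne_zero ha0, Int.cast_one, one_mul, mul_div_cancel₀ _ ha0']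
      exact e0
    · change ev (scale 1 a (G 1)) (u 1) (x / a) = 0
      rw [ev_scale one_ne_zero ha0, Int.cast_one, one_mul, mul_div_cancel₀ _ ha0']
      exact e1
    · change ev (scale 1 b (G 2)) (u 2) (y / b) = 0
      rw [ev_scale one_ne_zero hb0, Int.cast_one, one_mul, mul_div_cancel₀ _ hb0']
      exact e2
    · change ev (scale 1 b (G 3)) (u 3) (y / b) = 0
      rw [ev_scale one_ne_zero hb0, Int.cast_one, one_mul, mul_div_cancel₀ _ hb0']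
      exact e3
  constructor
  · refine le_sup_of_le_left ?_
    have h1 := Finset.le_sup (f := fun z : ℂ × ℂ => orderOf z.1) hmem
    simp only [← hζ₁.eq_orderOf] at h1
    exact h1
  · refine le_sup_of_le_right ?_
    have h1 := Finset.le_sup (f := fun z : ℂ × ℂ => orderOf z.2) hmem
    simp only [← hζ₂.eq_orderOf] at h1
    exact h1

/-- reduction of a `p`-adic integer modulo `p ^ k` -/
lemma exists_small (hv : IsNonarchimedean v) {p : ℕ} (hp : p.Prime) {μ : ℂ} (hμ : Zp v p μ) (k : ℕ) :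
    ∃ a : ℕ, a < p ^ k ∧ v (μ - a) ≤ v (p : ℂ) ^ k := by
  obtain ⟨q, hq⟩ := hμ k
  have hpk : (0 : ℤ) < (p : ℤ) ^ k := pow_pos (by exact_mod_cast hp.pos) k
  have h1 := Int.emod_nonneg q hpk.ne'
  have h2 := Int.emod_lt_of_pos q hpk
  obtain ⟨a, ha⟩ := Int.eq_ofNat_of_zero_le h1
  refine ⟨a, ?_, ?_⟩
  · rw [ha] at h2
    exact_mod_cast h2
  · have h3 : q = a + (p : ℤ) ^ k * (q / (p : ℤ) ^ k) := by
      rw [← ha]; exact (Int.emod_add_mul_ediv q _).symm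
    have h4 : ((q : ℤ) : ℂ) = (a : ℂ) + (p : ℂ) ^ k * ((q / (p : ℤ) ^ k : ℤ) : ℂ) := by
      exact_mod_cast congrArg (fun x : ℤ => (x : ℂ)) h3
    rw [show μ - (a : ℂ) = (μ - q) + (p : ℂ) ^ k * ((q / (p : ℤ) ^ k : ℤ) : ℂ) by rw [h4]; ring]
    refine (hv _ _).trans (max_le hq ?_)
    rw [map_mul, map_pow]
    exact mul_le_of_le_one_right (pow_nonneg (AbsoluteValue.nonneg v _) _) hv.apply_intCast_le_one

/-- **torsion points to the first order**, uniformly in the constants -/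
theorem torsion_relU (hv : IsNonarchimedean v) {p : ℕ} (hp : p.Prime) (hvp : v (p : ℂ) < 1)
    (hfin : FinitePairs2 v p) {H : MvPolynomial (Fin 2) ℤ} (hH : GoodRel v p H)
    {G : Fin 4 → MvPolynomial (Fin 2) ℤ} (hG : ∀ i, GoodRel v p (G i)) :
    ∃ B : ℕ, ∀ (μ₁ μ₂ : ℂ) (_ : Zp v p μ₁) (_ : Zp v p μ₂) (_ : v μ₁ = 1)
    (_ : v μ₂ = 1) (c : Fin 4 → ℂ) (_ : ∀ i, Zp v p (c i))
    (x y : ℂ) (u : Fin 4 → ℂ) (ζ₁ ζ₂ : ℂ) (g₁ g₂ : ℕ), 0 < g₁ → 0 < g₂ →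
      IsPrimitiveRoot ζ₁ g₁ → IsPrimitiveRoot ζ₂ g₂ → (∀ i, v (u i) ≤ 1) → ev H x y = 0 →
      ev (G 0) (u 0) x = 0 → ev (G 1) (u 1) x = 0 → ev (G 2) (u 2) y = 0 → ev (G 3) (u 3) y = 0 →
      v (x - μ₁ * ζ₁ * (1 + p * (c 0 * u 0 + c 1 * u 1))) < v (p : ℂ) →
      v (y - μ₂ * ζ₂ * (1 + p * (c 2 * u 2 + c 3 * u 3))) < v (p : ℂ) → g₁ ≤ B ∧ g₂ ≤ B := by
  classical
  have hvp0 : 0 < v (p : ℂ) := (AbsoluteValue.pos_iff v).2 (by exact_mod_cast hp.ne_zero)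
  have key : ∀ (a b : ℕ) (c' : Fin 4 → ℕ), ∃ B : ℕ, ¬ (p : ℤ) ∣ a → ¬ (p : ℤ) ∣ b →
      ∀ (x y : ℂ) (u : Fin 4 → ℂ) (ζ₁ ζ₂ : ℂ) (g₁ g₂ : ℕ), 0 < g₁ → 0 < g₂ → IsPrimitiveRoot ζ₁ g₁ →
      IsPrimitiveRoot ζ₂ g₂ → (∀ i, v (u i) ≤ 1) → ev H x y = 0 → ev (G 0) (u 0) x = 0 →
      ev (G 1) (u 1) x = 0 → ev (G 2) (u 2) y = 0 → ev (G 3) (u 3) y = 0 →
      v (x / (a : ℤ) - ζ₁ * (1 + p * (((c' 0 : ℕ) : ℤ) * u 0 + ((c' 1 : ℕ) : ℤ) * u 1))) < v (p : ℂ) →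
      v (y / (b : ℤ) - ζ₂ * (1 + p * (((c' 2 : ℕ) : ℤ) * u 2 + ((c' 3 : ℕ) : ℤ) * u 3))) < v (p : ℂ) →
        g₁ ≤ B ∧ g₂ ≤ B := by
    intro a b c'
    by_cases h : ¬ (p : ℤ) ∣ a ∧ ¬ (p : ℤ) ∣ b
    · obtain ⟨B, hB⟩ := torsion_core hv hp hvp hfin hH hG a b h.1 h.2 fun i => (c' i : ℤ)
      exact ⟨B, fun _ _ => hB⟩
    · exact ⟨0, fun h1 h2 => absurd ⟨h1, h2⟩ h⟩
  choose B hB using key
  set T : Finset (ℕ × ℕ × (Fin 4 → ℕ)) := Finset.range (p ^ 2) ×ˢ Finset.range (p ^ 2) ×ˢ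
    Fintype.piFinset fun _ => Finset.range (p ^ 1) with hT
  refine ⟨T.sup fun t => B t.1 t.2.1 t.2.2, ?_⟩
  intro μ₁ μ₂ hμ₁ hμ₂ h1 h2 c hc x y u ζ₁ ζ₂ g₁ g₂ hg₁ hg₂ hζ₁ hζ₂ hu hxy e0 e1 e2 e3 hx hy
  obtain ⟨a, ha, hav⟩ := exists_small hv hp hμ₁ 2
  obtain ⟨b, hb, hbv⟩ := exists_small hv hp hμ₂ 2
  choose c' hc' hcv using fun i => exists_small hv hp (hc i) 1
  have hvp2 : v (p : ℂ) ^ 2 ≤ v (p : ℂ) := by
    rw [sq]; exact mul_le_of_le_one_left hvp0.le hvp.le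
  have unit : ∀ {μ : ℂ} {a : ℕ}, v μ = 1 → v (μ - a) ≤ v (p : ℂ) ^ 2 → ¬ (p : ℤ) ∣ (a : ℤ) := by
    intro μ a hμ h3 h4
    have h5 := (v_int_lt_iff hv hp hvp).2 h4
    have h6 : v μ < 1 := by
      rw [show μ = (μ - a) + ((a : ℤ) : ℂ) by push_cast; ring]
      exact (hv _ _).trans_lt (max_lt ((h3.trans hvp2).trans_lt hvp) h5)
    rw [hμ] at h6
    exact lt_irrefl _ h6
  have hpa := unit h1 hav
  have hpb := unit h2 hbv
  have hva : v (((a : ℕ) : ℤ) : ℂ) = 1 := v_int_eq_one hv hp hvp hpa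
  have hvb : v (((b : ℕ) : ℤ) : ℂ) = 1 := v_int_eq_one hv hp hvp hpb
  have hc1 : ∀ i, v (c i) ≤ 1 := by
    intro i
    rw [show c i = (c i - c' i) + ((c' i : ℤ) : ℂ) by push_cast; ring]
    refine (hv _ _).trans (max_le ?_ hv.apply_intCast_le_one)
    exact (hcv i).trans (by rw [pow_one]; exact hvp.le)
  have hsum : ∀ i j : Fin 4, v (c i * u i + c j * u j) ≤ 1 := by
    intro i j
    refine (hv _ _).trans (max_le ?_ ?_)
    · rw [map_mul]; exact mul_le_one₀ (hc1 i) (AbsoluteValue.nonneg v _) (hu i)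
    · rw [map_mul]; exact mul_le_one₀ (hc1 j) (AbsoluteValue.nonneg v _) (hu j)
  have hsub : ∀ i j : Fin 4, v ((c i * u i + c j * u j) -
      (((c' i : ℕ) : ℤ) * u i + ((c' j : ℕ) : ℤ) * u j)) < 1 := by
    intro i j
    rw [show (c i * u i + c j * u j) - ((((c' i : ℕ) : ℤ) : ℂ) * u i + (((c' j : ℕ) : ℤ) : ℂ) * u j) =
      (c i - c' i) * u i + (c j - c' j) * u j by push_cast; ring]
    have : ∀ k, v ((c k - c' k) * u k) < 1 := by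
      intro k
      rw [map_mul]
      have h3 := hcv k
      rw [pow_one] at h3
      exact lt_of_le_of_lt (mul_le_of_le_one_right (AbsoluteValue.nonneg v _) (hu k)) (h3.trans_lt hvp)
    exact (hv _ _).trans_lt (max_lt (this i) (this j))
  have hz1 : v ζ₁ = 1 := val_root hg₁ hζ₁.pow_eq_one
  have hz2 : v ζ₂ = 1 := val_root hg₂ hζ₂.pow_eq_one
  have hx' := near_int' hv hvp0 hvp (a := (a : ℤ)) hva (by push_cast; exact hav) (hsum 0 1) (hsub 0 1) hz1 hx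
  have hy' := near_int' hv hvp0 hvp (a := (b : ℤ)) hvb (by push_cast; exact hbv) (hsum 2 3) (hsub 2 3) hz2 hy
  have hres := hB a b c' hpa hpb x y u ζ₁ ζ₂ g₁ g₂ hg₁ hg₂ hζ₁ hζ₂ hu hxy e0 e1 e2 e3 hx' hy'
  have hmem : ((a, b, c') : ℕ × ℕ × (Fin 4 → ℕ)) ∈ T := by
    rw [hT, Finset.mem_product, Finset.mem_product, Fintype.mem_piFinset]
    exact ⟨Finset.mem_range.2 ha, Finset.mem_range.2 hb, fun i => Finset.mem_range.2 (hc' i)⟩
  have hle := Finset.le_sup (f := fun t : ℕ × ℕ × (Fin 4 → ℕ) => B t.1 t.2.1 t.2.2) hmem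
  exact ⟨hres.1.trans hle, hres.2.trans hle⟩

/-- **torsion points to the first order**, uniformly in the constants -/
theorem torsionRelU_of (h : ∀ (v : AbsoluteValue ℂ ℝ) (_ : IsNonarchimedean v) (p : ℕ) (_ : p.Prime)
    (_ : v (p : ℂ) < 1), FinitePairs2 v p) : TorsionRelU := by
  intro v hv p hp hvp H hH G hG
  obtain ⟨B, hB⟩ := torsion_relU hv hp hvp (h v hv p hp hvp) hH hG
  exact ⟨B, fun μ₁ μ₂ h1 h2 h3 h4 c hc x y u ζ₁ ζ₂ g₁ g₂ a1 a2 a3 a4 hu =>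
    hB μ₁ μ₂ h1 h2 h3 h4 c hc x y u ζ₁ ζ₂ g₁ g₂ a1 a2 a3 a4 hu⟩

/-- **torsion points to the first order**, uniformly in the constants -/
theorem torsionRelU : TorsionRelU :=
  torsionRelU_of fun _ hv _ hp hvp => Pool.Agent.Helper81.DL.finitePairs2 hv hp hvp

end Pool.Agent.Helper69.DL
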