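import Pool.Agent.Helper69.DL.Gap
import Pool.Agent.Helper69.DL.Defs

/-! # Rational units as factors of the coordinates -/

open MvPolynomial

namespace Pool.Agent.Helper69.DL
open Pool.Agent.Helper20.ZD Pool.Agent.Helper20.DL

variable {v : AbsoluteValue ℂ ℝ}

lemma noCoset_of {H : MvPolynomial (Fin 2) ℤ} (h : Pool.Agent.Helper20.DL.NoCoset v H) :
    Pool.Agent.Helper69.DL.NoCoset v H := by
  intro u w huw α β hα hβ hcon
  obtain ⟨e, he⟩ := h α β hα hβ u w (fun h0 => huw.elim (fun h => h h0.1) fun h => h h0.2)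
  have h1 := hcon e
  rw [coset_coeff, ← Finset.sum_filter] at h1
  have h2 : (H.support.filter fun m : Fin 2 →₀ ℕ => (m 0 : ℤ) * u + m 1 * w = e) =
      (H.support.filter fun m : Fin 2 →₀ ℕ => u * m 0 + w * m 1 = e) := by
    refine Finset.filter_congr fun m _ => ?_
    rw [mul_comm u, mul_comm w]
  rw [h2, he] at h1
  exact lt_irrefl _ h1

/-- `H(a X, b Y)` -/
noncomputable def scale (a b : ℤ) : MvPolynomial (Fin 2) ℤ →ₐ[ℤ] MvPolynomial (Fin 2) ℤ :=
  aeval ![C a * X 0, C b * X 1]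

lemma scale_monomial (a b : ℤ) (m : Fin 2 →₀ ℕ) (c : ℤ) :
    scale a b (monomial m c) = monomial m (c * a ^ m 0 * b ^ m 1) := by
  rw [scale, aeval_monomial, Finsupp.prod_fintype _ _ (by simp)]
  simp only [Fin.prod_univ_two, Matrix.cons_val_zero, Matrix.cons_val_one, mul_pow]
  have h1 : monomial m (c * a ^ m 0 * b ^ m 1) =
      C (c * a ^ m 0 * b ^ m 1) * (X 0 ^ m 0 * X 1 ^ m 1 : MvPolynomial (Fin 2) ℤ) := by
    rw [monomial_eq, Finsupp.prod_fintype _ _ (by simp), Fin.prod_univ_two]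
  rw [h1]
  simp only [eq_intCast, map_mul, map_pow]
  ring

lemma scale_coeff (a b : ℤ) (H : MvPolynomial (Fin 2) ℤ) (m : Fin 2 →₀ ℕ) :
    (scale a b H).coeff m = H.coeff m * a ^ m 0 * b ^ m 1 := by
  conv_lhs => rw [H.as_sum, map_sum]
  rw [coeff_sum]
  simp only [scale_monomial, coeff_monomial]
  by_cases hm : m ∈ H.support
  · rw [Finset.sum_eq_single m]
    · simp
    · intro b _ hb
      rw [if_neg hb]
    · intro h; exact absurd hm h
  · rw [Finset.sum_eq_zero]
    · rw [notMem_support_iff.1 hm]; ring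
    · intro b hb
      rw [if_neg]
      rintro rfl
      exact hm hb

lemma scale_support {a b : ℤ} (ha : a ≠ 0) (hb : b ≠ 0) (H : MvPolynomial (Fin 2) ℤ) :
    (scale a b H).support = H.support := by
  ext m
  rw [mem_support_iff, mem_support_iff, scale_coeff]
  constructor
  · intro h h1
    rw [h1] at h
    exact h (by ring)
  · intro h h1
    rcases mul_eq_zero.1 h1 with h2 | h2
    · rcases mul_eq_zero.1 h2 with h3 | h3
      · exact h h3
      · exact pow_ne_zero _ ha h3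
    · exact pow_ne_zero _ hb h2

lemma ev_scale {a b : ℤ} (ha : a ≠ 0) (hb : b ≠ 0) (H : MvPolynomial (Fin 2) ℤ) (x y : ℂ) :
    ev (scale a b H) x y = ev H (a * x) (b * y) := by
  rw [ev, ev, scale_support ha hb]
  refine Finset.sum_congr rfl fun m _ => ?_
  rw [scale_coeff, mul_pow, mul_pow]
  push_cast
  ring

lemma scale_noCoset (hv : IsNonarchimedean v) {p : ℕ} (hp : p.Prime) (hvp : v (p : ℂ) < 1) {a b : ℤ}
    (ha : ¬ (p : ℤ) ∣ a) (hb : ¬ (p : ℤ) ∣ b) {H : MvPolynomial (Fin 2) ℤ}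
    (h : Pool.Agent.Helper20.DL.NoCoset v H) : Pool.Agent.Helper20.DL.NoCoset v (scale a b H) := by
  have ha0 : a ≠ 0 := by rintro rfl; exact ha (dvd_zero _)
  have hb0 : b ≠ 0 := by rintro rfl; exact hb (dvd_zero _)
  intro α β hα hβ u w huw
  obtain ⟨e, he⟩ := h (a * α) (b * β) (by rw [map_mul, hα, mul_one]; exact v_int_eq_one hv hp hvp ha)
    (by rw [map_mul, hβ, mul_one]; exact v_int_eq_one hv hp hvp hb) u w huw
  refine ⟨e, ?_⟩
  rw [← he, scale_support ha0 hb0]
  congr 1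
  refine Finset.sum_congr rfl fun m _ => ?_
  rw [scale_coeff, mul_pow, mul_pow]
  push_cast
  ring

lemma pderiv_scale₀ (a b : ℤ) (H : MvPolynomial (Fin 2) ℤ) :
    pderiv 0 (scale a b H) = C a * scale a b (pderiv 0 H) := by
  induction H using MvPolynomial.induction_on with
  | C c => simp [scale]
  | add f g hf hg => rw [map_add, map_add, hf, hg, map_add, map_add, mul_add]
  | mul_X f i hf =>
    rw [map_mul, Derivation.leibniz, hf, Derivation.leibniz, map_add, smul_eq_mul, smul_eq_mul, smul_eq_mul,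
      smul_eq_mul, map_mul, map_mul]
    fin_cases i
    · simp [scale]
      ring
    · have h1 : pderiv (0 : Fin 2) (X 1 : MvPolynomial (Fin 2) ℤ) = 0 := pderiv_X_of_ne (by decide)
      simp [scale, h1]
      ring

lemma pderiv_scale₁ (a b : ℤ) (H : MvPolynomial (Fin 2) ℤ) :
    pderiv 1 (scale a b H) = C b * scale a b (pderiv 1 H) := by
  induction H using MvPolynomial.induction_on with
  | C c => simp [scale]
  | add f g hf hg => rw [map_add, map_add, hf, hg, map_add, map_add, mul_add]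
  | mul_X f i hf =>
    rw [map_mul, Derivation.leibniz, hf, Derivation.leibniz, map_add, smul_eq_mul, smul_eq_mul, smul_eq_mul,
      smul_eq_mul, map_mul, map_mul]
    fin_cases i
    · have h1 : pderiv (1 : Fin 2) (X 0 : MvPolynomial (Fin 2) ℤ) = 0 := pderiv_X_of_ne (by decide)
      simp [scale, h1]
      ring
    · simp [scale]
      ring

lemma sqf_scale {p : ℕ} (hp : p.Prime) {a b : ℤ} (i j : Fin 2)
    {H : MvPolynomial (Fin 2) ℤ} (c d : ℤ) (hc : ¬ (p : ℤ) ∣ c) (hd : ¬ (p : ℤ) ∣ d)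
    (hpd : pderiv i (scale a b H) = C c * scale a b (pderiv i H))
    (hX : scale a b (X j) = C d * X j)
    (h : ∃ (A B : MvPolynomial (Fin 2) ℤ) (Δ : Polynomial ℤ),
      A * H + B * pderiv i H = Polynomial.aeval (X j : MvPolynomial (Fin 2) ℤ) Δ ∧
        ∃ k, ¬ (p : ℤ) ∣ Δ.coeff k) :
    ∃ (A B : MvPolynomial (Fin 2) ℤ) (Δ : Polynomial ℤ),
      A * scale a b H + B * pderiv i (scale a b H) = Polynomial.aeval (X j : MvPolynomial (Fin 2) ℤ) Δ ∧
        ∃ k, ¬ (p : ℤ) ∣ Δ.coeff k := by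
  obtain ⟨A, B, Δ, h1, k, hk⟩ := h
  have hpi : Prime (p : ℤ) := Nat.prime_iff_prime_int.1 hp
  refine ⟨C c * scale a b A, scale a b B, Polynomial.C c * Δ.comp (Polynomial.C d * Polynomial.X), ?_, k, ?_⟩
  · have h2 := congrArg (scale a b) h1
    rw [map_add, map_mul, map_mul] at h2
    rw [hpd, map_mul, Polynomial.aeval_C, Polynomial.aeval_comp, map_mul, Polynomial.aeval_C,
      Polynomial.aeval_X]
    have h3 : scale a b (Polynomial.aeval (X j : MvPolynomial (Fin 2) ℤ) Δ) =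
        Polynomial.aeval ((algebraMap ℤ (MvPolynomial (Fin 2) ℤ)) d * X j) Δ := by
      rw [← Polynomial.aeval_algHom_apply, hX]
      simp
    rw [← h3, ← h2]
    simp only [eq_intCast]
    ring
  · rw [Polynomial.coeff_C_mul, Polynomial.comp_C_mul_X_coeff]
    intro h2
    rcases hpi.dvd_or_dvd h2 with h3 | h3
    · exact hc h3
    · rcases hpi.dvd_or_dvd h3 with h4 | h4
      · exact hk h4
      · exact hd (hpi.dvd_of_dvd_pow h4)

/-- a rational number of absolute value at most one is congruent to an integer modulo `p ^ 2` -/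
lemma exists_int_near (hv : IsNonarchimedean v) {p : ℕ} (hp : p.Prime) (hvp : v (p : ℂ) < 1) {q : ℚ}
    (hq : v (q : ℂ) ≤ 1) : ∃ m : ℤ, v ((q : ℂ) - m) ≤ v (p : ℂ) ^ 2 := by
  have h1 := rat_den hv hp hvp hq
  have hco : IsCoprime ((p ^ 2 : ℕ) : ℤ) (q.den : ℤ) :=
    Nat.isCoprime_iff_coprime.2 (((Nat.Prime.coprime_iff_not_dvd hp).2 h1).pow_left 2)
  obtain ⟨a, b, hab⟩ := hco
  refine ⟨q.num * b, ?_⟩
  have h2 := v_nat_eq_one hv hp hvp h1
  have h3 : (q : ℂ) * (q.den : ℂ) = (q.num : ℂ) := by exact_mod_cast Rat.mul_den_eq_num q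
  have h4 : (a : ℂ) * (p : ℂ) ^ 2 + (b : ℂ) * (q.den : ℂ) = 1 := by exact_mod_cast hab
  have h5 : (q : ℂ) - ((q.num * b : ℤ) : ℂ) = (q : ℂ) * ((a : ℂ) * (p : ℂ) ^ 2) := by
    push_cast
    rw [← h3]
    linear_combination (-(q : ℂ)) * h4
  rw [h5, map_mul, map_mul, map_pow]
  calc v (q : ℂ) * (v (a : ℂ) * v (p : ℂ) ^ 2) ≤ 1 * (1 * v (p : ℂ) ^ 2) := by
        gcongr
        exact hv.apply_intCast_le_one
    _ = v (p : ℂ) ^ 2 := by ring

end Pool.Agent.Helper69.DL
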