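import Pool.Agent.Helper69.DL.Coset

/-! # Torsion points of order divisible by `p` are not near the curve -/

open MvPolynomial

namespace Pool.Agent.Helper69.DL
open Pool.Agent.Helper20.ZD

variable {v : AbsoluteValue ℂ ℝ}

/-- a small direction -/
lemma exists_direction {p : ℕ} (hp : p.Prime) (b : ℤ) :
    ∃ u w c : ℤ, 0 < u ∧ u ≤ Nat.sqrt p ∧ |w| ≤ Nat.sqrt p ∧ u * b - w = p * c := by
  have hS : 0 < Nat.sqrt p := Nat.sqrt_pos.2 hp.pos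
  obtain ⟨j, k, hk0, hk, hjk⟩ := Real.exists_int_int_abs_mul_sub_le ((b : ℝ) / p) hS
  refine ⟨k, k * b - p * j, j, hk0, hk, ?_, by ring⟩
  have hp0 : (0 : ℝ) < p := by exact_mod_cast hp.pos
  have h1 : |((k * b - p * j : ℤ) : ℝ)| ≤ p / (Nat.sqrt p + 1) := by
    have h2 : ((k * b - p * j : ℤ) : ℝ) = p * (k * (b / p) - j) := by
      push_cast
      field_simp
    rw [h2, abs_mul, abs_of_pos hp0, div_eq_mul_one_div (p : ℝ) (Nat.sqrt p + 1)]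
    exact mul_le_mul_of_nonneg_left hjk hp0.le
  have h3 : (p : ℝ) / (Nat.sqrt p + 1) < Nat.sqrt p + 1 := by
    rw [div_lt_iff₀ (by positivity)]
    exact_mod_cast Nat.lt_succ_sqrt p
  have h4 : |((k * b - p * j : ℤ) : ℝ)| < Nat.sqrt p + 1 := lt_of_le_of_lt h1 h3
  have h5 : |k * b - p * j| < (Nat.sqrt p : ℤ) + 1 := by exact_mod_cast h4
  omega

lemma root_sub_lt (hv : IsNonarchimedean v) {p : ℕ} (hp : p.Prime) (hvp : v (p : ℂ) < 1) {k : ℕ} {ξ : ℂ}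
    (hξ : ξ ^ p ^ k = 1) : v (ξ - 1) < 1 := by
  obtain ⟨B, hB⟩ := exists_frob hp k (X 0 - 1 : MvPolynomial (Fin 1) ℤ)
  have h1 := congrArg (aeval (fun _ => ξ) : MvPolynomial (Fin 1) ℤ →ₐ[ℤ] ℂ) hB
  rw [map_sub, map_pow, map_mul, aeval_expand, algHom_C] at h1
  simp only [map_sub, aeval_X, map_one, Pi.pow_apply, hξ, sub_self, sub_zero] at h1
  have h5 : (algebraMap ℤ ℂ) (p : ℤ) = (p : ℂ) := by simp
  rw [h5] at h1
  have hv1 : v ξ = 1 := val_root (pow_pos hp.pos k) hξ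
  have h2 : v (ξ - 1) ^ p ^ k < 1 := by
    rw [← map_pow, h1, map_mul]
    exact lt_of_le_of_lt (mul_le_of_le_one_right (AbsoluteValue.nonneg v _)
      (v_aeval_le hv B fun _ => hv1.le)) hvp
  by_contra hcon
  push Not at hcon
  exact absurd (one_le_pow₀ hcon) (not_le.2 h2)

lemma pow_p_sub_one (hv : IsNonarchimedean v) {p : ℕ} (hp : p.Prime) {ξ : ℂ} (hξ : v ξ = 1) :
    v (ξ ^ p - 1) ≤ max (v (ξ - 1) ^ p) (v (p : ℂ) * v (ξ - 1)) := by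
  obtain ⟨r, hr⟩ := exists_add_pow_prime_eq hp (Polynomial.X : Polynomial ℤ) 1
  have h1 := congrArg (Polynomial.aeval (ξ - 1)) hr
  simp only [map_pow, map_add, Polynomial.aeval_X, map_one, one_pow, map_mul, mul_one, map_natCast,
    sub_add_cancel] at h1
  have h2 : ξ ^ p - 1 = (ξ - 1) ^ p + (p : ℂ) * ((ξ - 1) * Polynomial.aeval (ξ - 1) r) := by
    rw [h1]; ring
  have h3 : v (ξ - 1) ≤ 1 := by
    rw [sub_eq_add_neg]
    refine (hv _ _).trans (max_le hξ.le ?_)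
    rw [map_neg_eq_map, map_one]
  have h4 : v (Polynomial.aeval (ξ - 1) r) ≤ 1 := by
    rw [Polynomial.aeval_eq_sum_range]
    refine val_sum_le hv _ _ zero_le_one fun i _ => ?_
    rw [zsmul_eq_mul, map_mul, map_pow]
    exact mul_le_one₀ hv.apply_intCast_le_one (pow_nonneg (AbsoluteValue.nonneg v _) _)
      (pow_le_one₀ (AbsoluteValue.nonneg v _) h3)
  rw [h2]
  refine (hv _ _).trans (max_le_max (by rw [map_pow]) ?_)
  rw [map_mul, map_mul]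
  refine mul_le_mul_of_nonneg_left ?_ (AbsoluteValue.nonneg v _)
  exact mul_le_of_le_one_right (AbsoluteValue.nonneg v _) h4

lemma val_zpow_sub_one (hv : IsNonarchimedean v) {ξ : ℂ} (hξ : v ξ = 1) (k : ℤ) :
    v (ξ ^ k - 1) ≤ v (ξ - 1) := by
  have hξ0 : ξ ≠ 0 := by
    rintro rfl
    rw [map_zero] at hξ
    exact zero_ne_one hξ
  rcases Int.eq_nat_or_neg k with ⟨n, rfl | rfl⟩
  · rw [zpow_natCast]
    exact val_pow_sub_one hv hξ.le n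
  · have h1 : ξ ^ (-(n : ℤ)) - 1 = -((ξ ^ n - 1) / ξ ^ n) := by
      rw [zpow_neg, zpow_natCast]
      field_simp
      ring
    rw [h1, map_neg_eq_map, map_div₀, map_pow, hξ, one_pow, div_one]
    exact val_pow_sub_one hv hξ.le n

/-- values at near points -/
lemma v_aeval_sub_le (hv : IsNonarchimedean v) {σ : Type*} (h : MvPolynomial σ ℤ) {x y : σ → ℂ}
    (hx : ∀ i, v (x i) ≤ 1) (hy : ∀ i, v (y i) ≤ 1) {r : ℝ} (hr : 0 ≤ r) (hxy : ∀ i, v (x i - y i) ≤ r) :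
    v (aeval x h - aeval y h) ≤ r := by
  induction h using MvPolynomial.induction_on with
  | C a => simpa using hr
  | add f g hf hg =>
    rw [map_add, map_add, show aeval x f + aeval x g - (aeval y f + aeval y g) =
      (aeval x f - aeval y f) + (aeval x g - aeval y g) by ring]
    exact (hv _ _).trans (max_le hf hg)
  | mul_X f i hf =>
    rw [map_mul, map_mul, aeval_X, aeval_X, show aeval x f * x i - aeval y f * y i =
      (aeval x f - aeval y f) * x i + aeval y f * (x i - y i) by ring]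
    refine (hv _ _).trans (max_le ?_ ?_)
    · rw [map_mul]
      exact (mul_le_of_le_one_right (AbsoluteValue.nonneg v _) (hx i)).trans hf
    · rw [map_mul]
      exact (mul_le_of_le_one_left (AbsoluteValue.nonneg v _) (v_aeval_le hv f hy)).trans (hxy i)

/-- **a torsion point of order divisible by `p`**, first form -/
theorem digits (hv : IsNonarchimedean v) {p N : ℕ} (hp : p.Prime) (hvp : v (p : ℂ) < 1)
    (hpN : Nat.Coprime p N) {H : MvPolynomial (Fin 2) ℤ} (hNC : NoCoset v H) {D : ℕ}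
    (hD : ∀ m ∈ H.support, m 0 + m 1 ≤ D) (hpD : 2 * (Nat.sqrt p * D) < p - 1) {η₁ η₂ : ℂ}
    (h₁ : η₁ ^ N = 1) (h₂ : η₂ ^ N = 1) {t : ℕ} {ξ : ℂ} (hξ : IsPrimitiveRoot ξ (p ^ (t + 1))) (b : ℕ) :
    v (ξ - 1) ^ (2 * (Nat.sqrt p * D)) ≤ v (aeval ![η₁ * ξ, η₂ * ξ ^ b] H) := by
  have hN := coprime_pos hp hpN
  have hpos : 0 < p ^ (t + 1) := pow_pos hp.pos _
  have hvξ : v ξ = 1 := val_root hpos hξ.pow_eq_one
  have hξ0 : ξ ≠ 0 := hξ.ne_zero hpos.ne'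
  have hp1 : 1 < p ^ (t + 1) := Nat.one_lt_pow (by omega) hp.one_lt
  set T := v (ξ - 1) with hT
  have hT1 : T < 1 := root_sub_lt hv hp hvp hξ.pow_eq_one
  have hT0 : 0 < T := (AbsoluteValue.pos_iff v).2 (sub_ne_zero.2 (hξ.ne_one hp1))
  have hpT : v (p : ℂ) ≤ T ^ (p - 1) := by
    refine (val_prime_le hv hp hξ).trans (pow_le_pow_of_le_one hT0.le hT1.le ?_)
    rw [Nat.totient_prime_pow_succ hp]
    exact Nat.le_mul_of_pos_left _ (pow_pos hp.pos _)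
  obtain ⟨u, w, c, hu0, huS, hwS, hc⟩ := exists_direction hp (b : ℤ)
  -- the generator
  have hSp : Nat.sqrt p < p := Nat.sqrt_lt_self hp.one_lt
  have hup : IsCoprime u ((p ^ (t + 1) : ℕ) : ℤ) := by
    have h1 : IsCoprime u (p : ℤ) := by
      rw [isCoprime_comm, (Nat.prime_iff_prime_int.1 hp).coprime_iff_not_dvd]
      intro h
      have h2 := Int.le_of_dvd hu0 h
      have h3 : (p : ℤ) ≤ Nat.sqrt p := h2.trans huS
      exact absurd hSp (not_lt.2 (by exact_mod_cast h3))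
    have h2 := h1.pow_right (n := t + 1)
    exact_mod_cast h2
  obtain ⟨s, s', hs⟩ := hup
  set ω := ξ ^ s with hω
  have hωu : ω ^ u = ξ := by
    rw [hω, ← zpow_mul, show s * u = 1 - s' * ((p ^ (t + 1) : ℕ) : ℤ) by linarith, zpow_sub₀ hξ0, zpow_one,
      mul_comm s', zpow_mul, zpow_natCast, hξ.pow_eq_one, one_zpow, div_one]
  have hvω : v ω = 1 := by rw [hω, map_zpow₀, hvξ, one_zpow]
  have hωT : v (ω - 1) = T := by
    refine le_antisymm (val_zpow_sub_one hv hvξ s) ?_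
    have h1 := val_zpow_sub_one hv hvω u
    rwa [hωu] at h1
  have hωw : v (ξ ^ b - ω ^ w) ≤ T ^ p := by
    have hp' : 1 ≤ p := hp.one_lt.le
    have h1 : ω ^ w = ξ ^ b * (ξ ^ p) ^ (-(s * c + s' * (p : ℤ) ^ t * b)) := by
      rw [hω, ← zpow_natCast ξ b, ← zpow_natCast ξ p, ← zpow_mul, ← zpow_mul, ← zpow_add₀ hξ0]
      congr 1
      have h2 : w = u * b - p * c := by linarith
      have h3 : s * u = 1 - s' * ((p : ℤ) * (p : ℤ) ^ t) := by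
        have := hs
        push_cast at this
        rw [pow_succ] at this
        linarith
      rw [h2]
      linear_combination (b : ℤ) * h3
    have h2 : ξ ^ b - ω ^ w = -(ξ ^ b * ((ξ ^ p) ^ (-(s * c + s' * (p : ℤ) ^ t * b)) - 1)) := by
      rw [h1]; ring
    rw [h2, map_neg_eq_map, map_mul, map_pow, hvξ, one_pow, one_mul]
    refine (val_zpow_sub_one hv (by rw [map_pow, hvξ, one_pow]) _).trans ?_
    refine (pow_p_sub_one hv hp hvξ).trans (max_le le_rfl ?_)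
    calc v (p : ℂ) * T ≤ T ^ (p - 1) * T := by gcongr
      _ = T ^ p := by
        rw [← pow_succ]
        congr 1
        omega
  have hlt : 2 * (Nat.sqrt p * D) < p := by omega
  have hone := digits_one hv hp hpN hNC hD (Or.inl hu0.ne') (by rw [abs_of_pos hu0]; exact huS) hwS h₁ h₂ hvω
    (by rw [hωT]; exact hT0) (by rw [hωT]; exact hT1)
    (by rw [hωT]; exact lt_of_le_of_lt hpT (pow_lt_pow_right_of_lt_one₀ hT0 hT1 hpD))
  rw [hωT, hωu] at hone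
  have hv1 := val_root (v := v) hN h₁
  have hv2 := val_root (v := v) hN h₂
  have hdiff : v (aeval ![η₁ * ξ, η₂ * ξ ^ b] H - aeval ![η₁ * ξ, η₂ * ω ^ w] H) ≤ T ^ p := by
    refine v_aeval_sub_le hv H ?_ ?_ (pow_nonneg hT0.le _) ?_
    · intro i
      fin_cases i
      · change v (η₁ * ξ) ≤ 1
        rw [map_mul, hv1, hvξ, one_mul]
      · change v (η₂ * ξ ^ b) ≤ 1
        rw [map_mul, map_pow, hv2, hvξ, one_mul, one_pow]
    · intro i
      fin_cases i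
      · change v (η₁ * ξ) ≤ 1
        rw [map_mul, hv1, hvξ, one_mul]
      · change v (η₂ * ω ^ w) ≤ 1
        rw [map_mul, map_zpow₀, hv2, hvω, one_mul, one_zpow]
    · intro i
      fin_cases i
      · change v (η₁ * ξ - η₁ * ξ) ≤ T ^ p
        rw [sub_self, map_zero]
        exact pow_nonneg hT0.le _
      · change v (η₂ * ξ ^ b - η₂ * ω ^ w) ≤ T ^ p
        rw [← mul_sub, map_mul, hv2, one_mul]
        exact hωw
  have hTp : T ^ p < T ^ (2 * (Nat.sqrt p * D)) := pow_lt_pow_right_of_lt_one₀ hT0 hT1 hlt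
  by_contra hcon
  push Not at hcon
  have h3 : aeval ![η₁ * ξ, η₂ * ω ^ w] H = aeval ![η₁ * ξ, η₂ * ξ ^ b] H +
      -(aeval ![η₁ * ξ, η₂ * ξ ^ b] H - aeval ![η₁ * ξ, η₂ * ω ^ w] H) := by ring
  have h4 : v (aeval ![η₁ * ξ, η₂ * ω ^ w] H) < T ^ (2 * (Nat.sqrt p * D)) := by
    rw [h3]
    refine lt_of_le_of_lt (hv _ _) (max_lt hcon ?_)
    rw [map_neg_eq_map]
    exact lt_of_le_of_lt hdiff hTp
  exact absurd hone (not_le.2 h4)

/-- exchange of the variables -/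
noncomputable def swp (H : MvPolynomial (Fin 2) ℤ) : MvPolynomial (Fin 2) ℤ := rename (Equiv.swap 0 1) H

lemma aeval_swp (H : MvPolynomial (Fin 2) ℤ) {A : Type*} [CommRing A] (x y : A) :
    aeval ![x, y] (swp H) = aeval ![y, x] H := by
  rw [swp, aeval_rename]
  congr 1
  congr 1
  funext i
  fin_cases i <;> rfl

lemma swp_totalDegree (H : MvPolynomial (Fin 2) ℤ) : (swp H).totalDegree ≤ H.totalDegree :=
  totalDegree_rename_le _ _

lemma coset_swp (u w : ℤ) (α β : ℂ) (H : MvPolynomial (Fin 2) ℤ) :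
    coset u w α β (swp H) = coset w u β α H := aeval_swp H _ _

lemma NoCoset.swp {H : MvPolynomial (Fin 2) ℤ} (h : NoCoset v H) : NoCoset v (swp H) := by
  intro u w huw α β hα hβ
  rw [coset_swp]
  exact h w u huw.symm β α hβ hα

lemma supp_le {R : Type*} [CommSemiring R] {H : MvPolynomial (Fin 2) R} {D : ℕ} (hD : H.totalDegree ≤ D)
    {m : Fin 2 →₀ ℕ} (hm : m ∈ H.support) : m 0 + m 1 ≤ D := by
  have h1 := (le_totalDegree hm).trans hD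
  rwa [Finsupp.sum_fintype _ _ (fun _ => rfl), Fin.sum_univ_two] at h1

/-- the decomposition of a root of unity -/
lemma exists_decomp {p N k : ℕ} (hp : p.Prime) (hpN : Nat.Coprime p N) {ζ : ℂ} (hζ : ζ ^ (p ^ k * N) = 1) :
    ∃ η ξ : ℂ, η ^ N = 1 ∧ ξ ^ p ^ k = 1 ∧ ζ = η * ξ ∧ ∀ t, p ^ t ∣ orderOf ζ → p ^ t ∣ orderOf ξ := by
  have hN := coprime_pos hp hpN
  have hpos : 0 < p ^ k := pow_pos hp.pos _
  have hζ0 : ζ ≠ 0 := by
    rintro rfl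
    rw [zero_pow (Nat.mul_pos hpos hN).ne'] at hζ
    exact zero_ne_one hζ
  have hcop : IsCoprime ((p ^ k : ℕ) : ℤ) (N : ℤ) := Nat.isCoprime_iff_coprime.2 (hpN.pow_left k)
  obtain ⟨a, b, hab⟩ := hcop
  have hζ' : ζ ^ (((p ^ k : ℕ) : ℤ) * N) = 1 := by exact_mod_cast hζ
  have h1 : (ζ ^ (a * ((p ^ k : ℕ) : ℤ))) ^ N = 1 := by
    rw [← zpow_natCast, ← zpow_mul, show a * ((p ^ k : ℕ) : ℤ) * N = (((p ^ k : ℕ) : ℤ) * N) * a by ring, zpow_mul,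
      hζ', one_zpow]
  have h2 : (ζ ^ (b * (N : ℤ))) ^ p ^ k = 1 := by
    rw [← zpow_natCast, ← zpow_mul, show b * (N : ℤ) * ((p ^ k : ℕ) : ℤ) = (((p ^ k : ℕ) : ℤ) * N) * b by ring,
      zpow_mul, hζ', one_zpow]
  have h3 : ζ = ζ ^ (a * ((p ^ k : ℕ) : ℤ)) * ζ ^ (b * (N : ℤ)) := by
    rw [← zpow_add₀ hζ0, hab, zpow_one]
  refine ⟨_, _, h1, h2, h3, fun t ht => ?_⟩
  have h4' : ∀ o : ℕ, (ζ ^ (b * (N : ℤ))) ^ o = 1 → ζ ^ (N * o) = 1 := by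
    intro o ho
    calc ζ ^ (N * o) = (ζ ^ (a * ((p ^ k : ℕ) : ℤ)) * ζ ^ (b * (N : ℤ))) ^ (N * o) := by rw [← h3]
      _ = ((ζ ^ (a * ((p ^ k : ℕ) : ℤ))) ^ N) ^ o * ((ζ ^ (b * (N : ℤ))) ^ o) ^ N := by
          rw [mul_pow, ← pow_mul, ← pow_mul, mul_comm o N]
      _ = 1 := by rw [h1, ho, one_pow, one_pow, one_mul]
  have h4 := h4' _ (pow_orderOf_eq_one (ζ ^ (b * (N : ℤ))))
  have h5 : p ^ t ∣ N * orderOf (ζ ^ (b * (N : ℤ))) := ht.trans (orderOf_dvd_of_pow_eq_one h4)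
  exact (Nat.Coprime.dvd_mul_left (hpN.pow_left t)).1 h5

/-- the case in which the first coordinate has the larger `p`-part -/
lemma digits_aux (hv : IsNonarchimedean v) {p N k : ℕ} (hp : p.Prime) (hvp : v (p : ℂ) < 1)
    (hpN : Nat.Coprime p N) {H : MvPolynomial (Fin 2) ℤ} (hNC : NoCoset v H) {D : ℕ}
    (hD : H.totalDegree ≤ D) (hpD : 2 * (Nat.sqrt p * D) < p - 1) {η₁ η₂ ξ₁ ξ₂ : ℂ}
    (h₁ : η₁ ^ N = 1) (h₂ : η₂ ^ N = 1) (k₁ : ξ₁ ^ p ^ k = 1) (k₂ : ξ₂ ^ orderOf ξ₁ = 1) {t : ℕ}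
    (ht : p ^ (t + 1) ∣ orderOf ξ₁) :
    v (p : ℂ) ^ (2 * (Nat.sqrt p * D)) ≤
      v (aeval ![η₁ * ξ₁, η₂ * ξ₂] H) ^ (Nat.totient (p ^ (t + 1))) := by
  obtain ⟨t₁, -, ht₁⟩ := (Nat.dvd_prime_pow hp).1 (orderOf_dvd_of_pow_eq_one k₁)
  have htt : t + 1 ≤ t₁ := by
    rw [ht₁] at ht
    exact (Nat.pow_dvd_pow_iff_le_right hp.one_lt).1 ht
  obtain ⟨t₂, rfl⟩ : ∃ t₂, t₁ = t₂ + 1 := ⟨t₁ - 1, by omega⟩
  have hξ : IsPrimitiveRoot ξ₁ (p ^ (t₂ + 1)) := by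
    rw [← ht₁]
    exact IsPrimitiveRoot.orderOf ξ₁
  have : NeZero (p ^ (t₂ + 1)) := ⟨(pow_pos hp.pos _).ne'⟩
  rw [ht₁] at k₂
  obtain ⟨b, -, rfl⟩ := hξ.eq_pow_of_pow_eq_one k₂
  have h3 := digits hv hp hvp hpN hNC (fun m hm => supp_le hD hm) hpD h₁ h₂ hξ b
  set T := v (ξ₁ - 1)
  set V := v (aeval ![η₁ * ξ₁, η₂ * ξ₁ ^ b] H) with hV
  have hT0 : 0 ≤ T := AbsoluteValue.nonneg v _
  have hV1 : V ≤ 1 := by
    have hN := coprime_pos hp hpN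
    have hvξ : v ξ₁ = 1 := val_root (pow_pos hp.pos _) hξ.pow_eq_one
    refine v_aeval_le hv H fun i => ?_
    fin_cases i
    · change v (η₁ * ξ₁) ≤ 1
      rw [map_mul, val_root hN h₁, hvξ, one_mul]
    · change v (η₂ * ξ₁ ^ b) ≤ 1
      rw [map_mul, map_pow, val_root hN h₂, hvξ, one_mul, one_pow]
  calc v (p : ℂ) ^ (2 * (Nat.sqrt p * D))
      ≤ (T ^ (Nat.totient (p ^ (t₂ + 1)))) ^ (2 * (Nat.sqrt p * D)) :=
        pow_le_pow_left₀ (AbsoluteValue.nonneg v _) (val_prime_le hv hp hξ) _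
    _ = (T ^ (2 * (Nat.sqrt p * D))) ^ (Nat.totient (p ^ (t₂ + 1))) := by rw [← pow_mul, ← pow_mul, mul_comm]
    _ ≤ V ^ (Nat.totient (p ^ (t₂ + 1))) := pow_le_pow_left₀ (pow_nonneg hT0 _) h3 _
    _ ≤ V ^ (Nat.totient (p ^ (t + 1))) := by
        refine pow_le_pow_of_le_one (AbsoluteValue.nonneg v _) hV1 ?_
        exact Nat.le_of_dvd (Nat.totient_pos.2 (pow_pos hp.pos _))
          (Nat.totient_dvd_of_dvd (Nat.pow_dvd_pow p htt))

/-- **torsion points of order divisible by `p ^ (t + 1)`** -/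
theorem digits_gen (hv : IsNonarchimedean v) {p : ℕ} (hp : p.Prime) (hvp : v (p : ℂ) < 1)
    {H : MvPolynomial (Fin 2) ℤ} (hNC : NoCoset v H) {D : ℕ} (hD : H.totalDegree ≤ D)
    (hpD : 2 * (Nat.sqrt p * D) < p - 1) {ζ₁ ζ₂ : ℂ} {g : ℕ} (hg : 0 < g) (h₁ : ζ₁ ^ g = 1) (h₂ : ζ₂ ^ g = 1)
    {t : ℕ} (ht : p ^ (t + 1) ∣ orderOf ζ₁ ∨ p ^ (t + 1) ∣ orderOf ζ₂) :
    v (p : ℂ) ^ (2 * (Nat.sqrt p * D)) ≤ v (aeval ![ζ₁, ζ₂] H) ^ (Nat.totient (p ^ (t + 1))) := by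
  obtain ⟨k, N, hpN, rfl⟩ := Nat.exists_eq_pow_mul_and_not_dvd hg.ne' p hp.ne_one
  have hcop : Nat.Coprime p N := (Nat.Prime.coprime_iff_not_dvd hp).2 hpN
  obtain ⟨η₁, ξ₁, a₁, b₁, rfl, c₁⟩ := exists_decomp hp hcop h₁
  obtain ⟨η₂, ξ₂, a₂, b₂, rfl, c₂⟩ := exists_decomp hp hcop h₂
  have ht' : p ^ (t + 1) ∣ orderOf ξ₁ ∨ p ^ (t + 1) ∣ orderOf ξ₂ := ht.imp (c₁ _) (c₂ _)
  obtain ⟨i, -, hi⟩ := (Nat.dvd_prime_pow hp).1 (orderOf_dvd_of_pow_eq_one b₁)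
  obtain ⟨j, -, hj⟩ := (Nat.dvd_prime_pow hp).1 (orderOf_dvd_of_pow_eq_one b₂)
  rcases le_total j i with hij | hij
  · have h5 : orderOf ξ₂ ∣ orderOf ξ₁ := by rw [hi, hj]; exact Nat.pow_dvd_pow p hij
    exact digits_aux hv hp hvp hcop hNC hD hpD a₁ a₂ b₁ (orderOf_dvd_iff_pow_eq_one.1 h5)
      (ht'.elim id fun h => h.trans h5)
  · have h5 : orderOf ξ₁ ∣ orderOf ξ₂ := by rw [hi, hj]; exact Nat.pow_dvd_pow p hij
    have h6 := digits_aux hv hp hvp hcop hNC.swp ((swp_totalDegree H).trans hD) hpD a₂ a₁ b₂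
      (orderOf_dvd_iff_pow_eq_one.1 h5) (ht'.elim (fun h => h.trans h5) id)
    rwa [aeval_swp] at h6

/-- torsion points near the curve have order prime to `p` -/
theorem not_dvd_orderOf (hv : IsNonarchimedean v) {p : ℕ} (hp : p.Prime) (hvp : v (p : ℂ) < 1)
    {H : MvPolynomial (Fin 2) ℤ} (hNC : NoCoset v H) {D : ℕ} (hD : H.totalDegree ≤ D)
    (hpD : 2 * (Nat.sqrt p * D) < p - 1) {ζ₁ ζ₂ : ℂ} {g : ℕ} (hg : 0 < g) (h₁ : ζ₁ ^ g = 1) (h₂ : ζ₂ ^ g = 1)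
    (hlt : v (aeval ![ζ₁, ζ₂] H) ≤ v (p : ℂ)) : ¬ p ∣ orderOf ζ₁ ∧ ¬ p ∣ orderOf ζ₂ := by
  have h0 : 0 < v (p : ℂ) := (AbsoluteValue.pos_iff v).2 (by exact_mod_cast hp.ne_zero)
  have key : ¬ (p ∣ orderOf ζ₁ ∨ p ∣ orderOf ζ₂) := by
    intro h
    have h3 := digits_gen (t := 0) hv hp hvp hNC hD hpD hg h₁ h₂ (by simpa using h)
    rw [zero_add, pow_one, Nat.totient_prime hp] at h3
    have h4 : v (aeval ![ζ₁, ζ₂] H) ^ (p - 1) ≤ v (p : ℂ) ^ (p - 1) :=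
      pow_le_pow_left₀ (AbsoluteValue.nonneg v _) hlt _
    have h5 : v (p : ℂ) ^ (p - 1) < v (p : ℂ) ^ (2 * (Nat.sqrt p * D)) :=
      pow_lt_pow_right_of_lt_one₀ h0 hvp hpD
    exact absurd (h3.trans h4) (not_le.2 h5)
  exact ⟨fun h => key (Or.inl h), fun h => key (Or.inr h)⟩

end Pool.Agent.Helper69.DL
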