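import Pool.Agent.Helper69.DL.Gap
import Pool.Agent.Helper69.DL.Defs
import Mathlib.Analysis.Complex.Cardinality

/-! # A coset modulo a place is the reduction of points near the origin of the coset -/

open MvPolynomial

namespace Pool.Agent.Helper69.DL
open Pool.Agent.Helper20.ZD Pool.Agent.Helper20.DL

variable {v : AbsoluteValue ℂ ℝ}

/-- a transcendental number -/
lemma exists_transcendental : ∃ s : ℂ, Transcendental ℤ s := by
  by_contra hcon
  push Not at hcon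
  have h1 : ({x : ℂ | IsAlgebraic ℤ x} : Set ℂ) = Set.univ := by
    ext x
    simp only [Set.mem_ofPred_eq, Set.mem_univ, iff_true]
    by_contra h
    exact hcon x h
  have h2 := Algebraic.countable ℤ ℂ
  rw [h1] at h2
  exact not_countable_complex h2

lemma alg_zpow {x : ℂ} (hx : IsAlgebraic ℤ x) (k : ℤ) : IsAlgebraic ℤ (x ^ k) := by
  rcases Int.eq_nat_or_neg k with ⟨n, rfl | rfl⟩
  · rw [zpow_natCast]; exact hx.pow n
  · rw [zpow_neg, zpow_natCast]; exact (hx.pow n).inv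

/-- numbers of absolute value near one -/
lemma exists_tau (hv : IsNonarchimedean v) {p : ℕ} (hp : p.Prime) (hvp : v (p : ℂ) < 1) {α : ℂ}
    (hα : α ≠ 0) {u : ℤ} (hu : u ≠ 0) {r : ℝ} (hr0 : 0 ≤ r) (hr : r < 1) :
    ∃ τ : ℂ, r < v τ ∧ v τ < 1 ∧ Transcendental ℤ (α * τ ^ u) := by
  have hvp0 : 0 < v (p : ℂ) := (AbsoluteValue.pos_iff v).2 (by exact_mod_cast hp.ne_zero)
  obtain ⟨N, hN⟩ := exists_pow_lt_of_lt_one hvp0 hr
  have hN0 : 0 < N + 1 := Nat.succ_pos N
  obtain ⟨τ₀, hτ₀⟩ := IsAlgClosed.exists_pow_nat_eq (p : ℂ) hN0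
  have h1 : v τ₀ ^ (N + 1) = v (p : ℂ) := by rw [← map_pow, hτ₀]
  have hlt : v τ₀ < 1 := by
    by_contra hcon
    push Not at hcon
    have := one_le_pow₀ hcon (n := N + 1)
    linarith
  have hgt : r < v τ₀ := by
    by_contra hcon
    push Not at hcon
    have h2 : v τ₀ ^ (N + 1) ≤ r ^ (N + 1) := pow_le_pow_left₀ (AbsoluteValue.nonneg v _) hcon _
    have h3 : r ^ (N + 1) ≤ r ^ N := pow_le_pow_of_le_one hr0 hr.le (Nat.le_succ N)
    linarith
  have hτ0 : τ₀ ≠ 0 := by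
    rintro rfl
    rw [map_zero] at hgt
    exact absurd hr0 (not_le.2 hgt)
  have hτalg : IsAlgebraic ℤ τ₀ := by
    refine IsAlgebraic.of_pow hN0 ?_
    rw [hτ₀]
    exact isAlgebraic_natCast p
  by_cases hαalg : IsAlgebraic ℤ α
  · obtain ⟨s, hs⟩ := exists_transcendental
    obtain ⟨k, hk⟩ : ∃ k : ℕ, v ((p : ℂ) ^ k * s) < 1 := by
      by_cases hs0 : v s = 0
      · exact ⟨0, by rw [map_mul, hs0, mul_zero]; exact one_pos⟩
      · have hspos : 0 < v s := lt_of_le_of_ne (AbsoluteValue.nonneg v _) (Ne.symm hs0)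
        obtain ⟨k, hk⟩ := exists_pow_lt_of_lt_one (inv_pos.2 hspos) hvp
        refine ⟨k, ?_⟩
        rw [map_mul, map_pow]
        calc v (p : ℂ) ^ k * v s < (v s)⁻¹ * v s := by gcongr
          _ = 1 := inv_mul_cancel₀ hs0
    set s' := 1 + (p : ℂ) ^ k * s with hs'
    have hvs' : v s' = 1 := by
      rw [hs', hv.add_eq_left_of_lt (by rw [map_one]; exact hk), map_one]
    have hs't : Transcendental ℤ s' := by
      intro h
      apply hs
      have hp0 : (p : ℂ) ^ k ≠ 0 := pow_ne_zero _ (by exact_mod_cast hp.ne_zero)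
      have h2 : s = (s' - 1) * ((p : ℂ) ^ k)⁻¹ := by
        rw [hs']; field_simp; ring
      rw [h2]
      exact (h.sub isAlgebraic_one).mul (((isAlgebraic_natCast p).pow k).inv)
    have hs'0 : s' ≠ 0 := by
      intro h
      rw [h, map_zero] at hvs'
      exact zero_ne_one hvs'
    refine ⟨τ₀ * s', by rw [map_mul, hvs', mul_one]; exact hgt, by rw [map_mul, hvs', mul_one]; exact hlt, ?_⟩
    intro h
    have h3 : IsAlgebraic ℤ (s' ^ u) := by
      have h4 : s' ^ u = (α * (τ₀ * s') ^ u) * (α * τ₀ ^ u)⁻¹ := by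
        rw [mul_zpow]
        have : τ₀ ^ u ≠ 0 := zpow_ne_zero _ hτ0
        field_simp
      rw [h4]
      exact h.mul ((hαalg.mul (alg_zpow hτalg u)).inv)
    apply hs't
    rcases Int.eq_nat_or_neg u with ⟨n, rfl | rfl⟩
    · rw [zpow_natCast] at h3
      exact IsAlgebraic.of_pow (by omega) h3
    · have h5 := h3.inv
      rw [zpow_neg, inv_inv, zpow_natCast] at h5
      exact IsAlgebraic.of_pow (by omega) h5
  · refine ⟨τ₀, hgt, hlt, fun h => hαalg ?_⟩
    have h4 : α = (α * τ₀ ^ u) * (τ₀ ^ u)⁻¹ := by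
      have : τ₀ ^ u ≠ 0 := zpow_ne_zero _ hτ0
      field_simp
    rw [h4]
    exact h.mul ((alg_zpow hτalg u).inv)

/-- if no root of `P` is a unit, then the value at `1` is the Gauss norm -/
lemma coeff_le_eval_one (hv : IsNonarchimedean v) (s : Multiset ℂ) (hs : ∀ r ∈ s, v r ≠ 1) (j : ℕ) :
    v ((s.map fun r => Polynomial.X - Polynomial.C r).prod.coeff j) ≤
      v ((s.map fun r => Polynomial.X - Polynomial.C r).prod.eval 1) := by
  induction s using Multiset.induction_on generalizing j with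
  | empty =>
    simp only [Multiset.map_zero, Multiset.prod_zero, Polynomial.eval_one, map_one]
    rw [Polynomial.coeff_one]
    split_ifs
    · rw [map_one]
    · rw [map_zero]; exact zero_le_one
  | cons a s ih =>
    have ih' := fun j => ih (fun r hr => hs r (Multiset.mem_cons_of_mem hr)) j
    set Q := (s.map fun r => Polynomial.X - Polynomial.C r).prod with hQ
    rw [Multiset.map_cons, Multiset.prod_cons, ← hQ, Polynomial.eval_mul, Polynomial.eval_sub,
      Polynomial.eval_X, Polynomial.eval_C, map_mul]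
    have ha := hs a (Multiset.mem_cons_self a s)
    have h1 : v (1 - a) = max 1 (v a) := by
      rcases lt_or_gt_of_ne ha with h | h
      · rw [max_eq_left h.le, sub_eq_add_neg, hv.add_eq_left_of_lt (by rw [map_neg_eq_map, map_one]; exact h),
          map_one]
      · rw [max_eq_right h.le, sub_eq_add_neg, hv.add_eq_right_of_lt
          (by rw [map_neg_eq_map, map_one]; exact h), map_neg_eq_map]
    rw [h1, sub_mul, Polynomial.coeff_sub, Polynomial.coeff_C_mul, sub_eq_add_neg]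
    have hmax : (0 : ℝ) ≤ max 1 (v a) := zero_le_one.trans (le_max_left _ _)
    refine (hv _ _).trans (max_le ?_ ?_)
    · rcases j with _ | j
      · rw [Polynomial.coeff_X_mul_zero, map_zero]
        exact mul_nonneg hmax (AbsoluteValue.nonneg v _)
      · rw [Polynomial.coeff_X_mul]
        calc v (Q.coeff j) ≤ 1 * v (Q.eval 1) := by rw [one_mul]; exact ih' j
          _ ≤ max 1 (v a) * v (Q.eval 1) := by
            gcongr
            exact le_max_left _ _
    · rw [map_neg_eq_map, map_mul]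
      exact mul_le_mul (le_max_right _ _) (ih' j) (AbsoluteValue.nonneg v _) hmax

/-- a polynomial whose value at `1` is smaller than a coefficient has a unit root -/
lemma exists_unit_root (hv : IsNonarchimedean v) {P : Polynomial ℂ} {j : ℕ}
    (h : v (P.eval 1) < v (P.coeff j)) : ∃ r : ℂ, P.eval r = 0 ∧ v r = 1 := by
  by_contra hcon
  push Not at hcon
  have hP0 : P ≠ 0 := by
    rintro rfl
    simp at h
  have hsp := (IsAlgClosed.splits P).eq_prod_roots
  have h1 := coeff_le_eval_one hv P.roots (fun r hr => hcon r ((Polynomial.mem_roots hP0).1 hr)) j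
  rw [hsp, Polynomial.coeff_C_mul, Polynomial.eval_mul, Polynomial.eval_C, map_mul, map_mul] at h
  exact absurd h (not_lt.2 (mul_le_mul_of_nonneg_left h1 (AbsoluteValue.nonneg v _)))

/-- the class sums -/
noncomputable def cls (H : MvPolynomial (Fin 2) ℤ) (u w : ℤ) (α β : ℂ) (e : ℤ) : ℂ :=
  ∑ m ∈ H.support with u * m 0 + w * m 1 = e, ((H.coeff m : ℤ) : ℂ) * α ^ m 0 * β ^ m 1

/-- no coset in the direction `(u, w)` -/
def NoCosetDir (v : AbsoluteValue ℂ ℝ) (H : MvPolynomial (Fin 2) ℤ) (u w : ℤ) : Prop :=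
  ∀ α β : ℂ, v α = 1 → v β = 1 → ∃ e : ℤ, v (cls H u w α β e) = 1

lemma cls_le (hv : IsNonarchimedean v) (H : MvPolynomial (Fin 2) ℤ) (u w : ℤ) {α β : ℂ} (hα : v α = 1)
    (hβ : v β = 1) (e : ℤ) : v (cls H u w α β e) ≤ 1 := by
  refine val_sum_le hv _ _ zero_le_one fun m _ => ?_
  rw [map_mul, map_mul, map_pow, map_pow, hα, hβ, one_pow, one_pow, mul_one, mul_one]
  exact hv.apply_intCast_le_one

lemma ev_eq_cls (H : MvPolynomial (Fin 2) ℤ) (u w : ℤ) (α β : ℂ) {τ : ℂ} (hτ : τ ≠ 0) :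
    ev H (α * τ ^ u) (β * τ ^ w) = ∑ e ∈ H.support.image (fun m => u * (m 0 : ℤ) + w * m 1),
      cls H u w α β e * τ ^ e := by
  classical
  rw [ev, ← Finset.sum_fiberwise_of_maps_to (s := H.support)
    (t := H.support.image (fun m => u * (m 0 : ℤ) + w * m 1)) (g := fun m => u * (m 0 : ℤ) + w * m 1)
    (fun m hm => Finset.mem_image_of_mem _ hm)]
  refine Finset.sum_congr rfl fun e _ => ?_
  rw [cls, Finset.sum_mul]
  refine Finset.sum_congr rfl fun m hm => ?_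
  rw [← (Finset.mem_filter.1 hm).2, mul_pow, mul_pow, zpow_add₀ hτ, zpow_mul, zpow_mul, zpow_natCast,
    zpow_natCast]
  ring

lemma e_abs_le {u w : ℤ} {D : ℕ} {m : Fin 2 →₀ ℕ} (hm : m 0 + m 1 ≤ D) :
    |u * (m 0 : ℤ) + w * m 1| ≤ ((u.natAbs + w.natAbs) * D : ℕ) := by
  have h0 : (0 : ℤ) ≤ m 0 := Int.natCast_nonneg _
  have h1 : (0 : ℤ) ≤ m 1 := Int.natCast_nonneg _
  have hm0 : (m 0 : ℤ) ≤ D := by exact_mod_cast (Nat.le_add_right _ _).trans hm
  have hm1 : (m 1 : ℤ) ≤ D := by exact_mod_cast (Nat.le_add_left _ _).trans hm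
  calc |u * (m 0 : ℤ) + w * m 1| ≤ |u * (m 0 : ℤ)| + |w * (m 1 : ℤ)| := abs_add_le _ _
    _ = |u| * m 0 + |w| * m 1 := by rw [abs_mul, abs_mul, abs_of_nonneg h0, abs_of_nonneg h1]
    _ ≤ |u| * D + |w| * D := by gcongr
    _ = ((u.natAbs + w.natAbs) * D : ℕ) := by
      push_cast
      ring

/-- zpow bounds for `0 < t < 1` -/
lemma zpow_bounds {t : ℝ} (ht0 : 0 < t) (ht1 : t < 1) {e : ℤ} {K : ℕ} (he : |e| ≤ K) :
    t ^ K ≤ t ^ e ∧ t ^ e ≤ (t ^ K)⁻¹ := by
  obtain ⟨h1, h2⟩ := abs_le.1 he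
  constructor
  · rw [← zpow_natCast]
    exact zpow_le_zpow_right_of_le_one₀ ht0 ht1.le h2
  · rw [← zpow_natCast, ← zpow_neg]
    exact zpow_le_zpow_right_of_le_one₀ ht0 ht1.le h1

/-- **the points above a coset modulo `v`**, `u ≠ 0` -/
theorem exists_point₀ (hv : IsNonarchimedean v) {p : ℕ} (hp : p.Prime) (hvp : v (p : ℂ) < 1)
    {H : MvPolynomial (Fin 2) ℤ} (hcoef : ∃ m, ¬ (p : ℤ) ∣ H.coeff m) {u w : ℤ} (hu : u ≠ 0)
    (h : ¬ NoCosetDir v H u w) :
    ∃ (x y : ℂ) (t : ℝ), 0 < t ∧ t < 1 ∧ Transcendental ℤ x ∧ ev H x y = 0 ∧ v x = t ^ u ∧ v y = t ^ w := by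
  classical
  rw [NoCosetDir] at h
  push Not at h
  obtain ⟨α, β, hα, hβ, hcls⟩ := h
  have hα0 : α ≠ 0 := by
    rintro rfl
    rw [map_zero] at hα
    exact zero_ne_one hα
  set D := H.totalDegree with hD
  set K : ℕ := (u.natAbs + w.natAbs) * D with hK
  set I := H.support.image (fun m => u * (m 0 : ℤ) + w * m 1) with hI
  -- the bound for the class sums
  obtain ⟨R, hR0, hR1, hRp, hR⟩ : ∃ R : ℝ, 0 ≤ R ∧ R < 1 ∧ v (p : ℂ) ≤ R ∧ ∀ e ∈ I, v (cls H u w α β e) ≤ R := by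
    have hlt : ∀ e, v (cls H u w α β e) < 1 := fun e => lt_of_le_of_ne (cls_le hv H u w hα hβ e) (hcls e)
    rcases I.eq_empty_or_nonempty with h0 | hne
    · exact ⟨v (p : ℂ), AbsoluteValue.nonneg v _, hvp, le_rfl, fun e he => by rw [h0] at he; simp at he⟩
    · obtain ⟨e₀, -, he₀⟩ := Finset.exists_max_image I (fun e => v (cls H u w α β e)) hne
      exact ⟨max (v (p : ℂ)) (v (cls H u w α β e₀)), le_max_of_le_left (AbsoluteValue.nonneg v _),
        max_lt hvp (hlt e₀), le_max_left _ _, fun e he => (he₀ e he).trans (le_max_right _ _)⟩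
  obtain ⟨ρ, hρ0, hρ1, hρ⟩ := exists_rho hR1 hR0 (2 * K)
  obtain ⟨τ, hτρ, hτ1, htr⟩ := exists_tau hv hp hvp hα0 hu hρ0 hρ1
  set t := v τ with ht
  have ht0 : 0 < t := lt_of_le_of_lt hρ0 hτρ
  have hτ0 : τ ≠ 0 := (AbsoluteValue.pos_iff v).1 ht0
  have htK : R < t ^ K * t ^ K := by
    rw [← pow_add, ← two_mul]
    exact hρ.trans_le (pow_le_pow_left₀ hρ0 hτρ.le _)
  have htK0 : 0 < t ^ K := pow_pos ht0 K
  set x := α * τ ^ u with hx
  set B := β * τ ^ w with hB
  have hvB : v B = t ^ w := by rw [hB, map_mul, hβ, one_mul, map_zpow₀]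
  set P : Polynomial ℂ := ∑ m ∈ H.support, Polynomial.monomial (m 1) (((H.coeff m : ℤ) : ℂ) * x ^ m 0 * B ^ m 1)
    with hP
  have hPeval : ∀ y, P.eval y = ev H x (B * y) := by
    intro y
    rw [hP, Polynomial.eval_finsetSum, ev]
    refine Finset.sum_congr rfl fun m _ => ?_
    rw [Polynomial.eval_monomial, mul_pow]
    ring
  have hP1 : v (P.eval 1) * t ^ K ≤ R := by
    rw [hPeval, mul_one, hx, hB, ev_eq_cls H u w α β hτ0, ← hI]
    have h1 : v (∑ e ∈ I, cls H u w α β e * τ ^ e) ≤ R * (t ^ K)⁻¹ := by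
      refine val_sum_le hv _ _ (mul_nonneg hR0 (inv_nonneg.2 htK0.le)) fun e he => ?_
      rw [map_mul, map_zpow₀]
      obtain ⟨m, hm, rfl⟩ := Finset.mem_image.1 he
      exact mul_le_mul (hR _ he) (zpow_bounds ht0 hτ1 (e_abs_le (supp_le le_rfl hm))).2
        (zpow_nonneg ht0.le _) hR0
    calc v (∑ e ∈ I, cls H u w α β e * τ ^ e) * t ^ K ≤ R * (t ^ K)⁻¹ * t ^ K := by gcongr
      _ = R := by field_simp
  -- a large coefficient
  obtain ⟨m₀, hm₀⟩ := hcoef
  have hm₀s : m₀ ∈ H.support := by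
    rw [mem_support_iff]
    intro h0
    exact hm₀ (by rw [h0]; exact dvd_zero _)
  set j := m₀ 1 with hj
  set S := H.support.filter (fun m => m 1 = j) with hS
  have hPj : P.coeff j = ∑ m ∈ S, ((H.coeff m : ℤ) : ℂ) * x ^ m 0 * B ^ m 1 := by
    rw [hP, Polynomial.finsetSum_coeff, hS, Finset.sum_filter]
    refine Finset.sum_congr rfl fun m _ => ?_
    rw [Polynomial.coeff_monomial]
  have hterm : ∀ m, v (((H.coeff m : ℤ) : ℂ) * x ^ m 0 * B ^ m 1) =
      v ((H.coeff m : ℤ) : ℂ) * t ^ (u * (m 0 : ℤ) + w * m 1) := by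
    intro m
    rw [hx, map_mul, map_mul, map_pow, map_pow, hvB, map_mul, hα, one_mul, map_zpow₀, zpow_add₀ ht0.ne',
      zpow_mul, zpow_mul, zpow_natCast, zpow_natCast]
    ring
  set U := S.filter (fun m => ¬ (p : ℤ) ∣ H.coeff m) with hU
  have hUne : U.Nonempty := ⟨m₀, by
    rw [hU, Finset.mem_filter, hS, Finset.mem_filter]
    exact ⟨⟨hm₀s, rfl⟩, hm₀⟩⟩
  obtain ⟨m₁, hm₁U, hm₁⟩ := Finset.exists_max_image U (fun m => t ^ (u * (m 0 : ℤ) + w * m 1)) hUne
  have hm₁' := Finset.mem_filter.1 hm₁U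
  have hm₁S : m₁ ∈ S := hm₁'.1
  have hm₁s : m₁ ∈ H.support := (Finset.mem_filter.1 hm₁S).1
  have hm₁j : m₁ 1 = j := (Finset.mem_filter.1 hm₁S).2
  have hv1 : v ((H.coeff m₁ : ℤ) : ℂ) = 1 := v_int_eq_one hv hp hvp hm₁'.2
  have hbig : v (P.coeff j) = t ^ (u * (m₁ 0 : ℤ) + w * m₁ 1) := by
    rw [hPj, ← Finset.add_sum_erase _ _ hm₁S]
    have hlt : v (∑ m ∈ S.erase m₁, ((H.coeff m : ℤ) : ℂ) * x ^ m 0 * B ^ m 1) <
        v (((H.coeff m₁ : ℤ) : ℂ) * x ^ m₁ 0 * B ^ m₁ 1) := by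
      rw [hterm m₁, hv1, one_mul]
      rcases (S.erase m₁).eq_empty_or_nonempty with h0 | hne
      · rw [h0, Finset.sum_empty, map_zero]
        exact zpow_pos ht0 _
      · obtain ⟨m₂, hm₂, hmax⟩ := Finset.exists_max_image (S.erase m₁)
          (fun m => v (((H.coeff m : ℤ) : ℂ) * x ^ m 0 * B ^ m 1)) hne
        refine lt_of_le_of_lt (val_sum_le hv _ _ (AbsoluteValue.nonneg v _) fun m hm => hmax m hm) ?_
        obtain ⟨hne12, hm₂S⟩ := Finset.mem_erase.1 hm₂
        have hm₂s : m₂ ∈ H.support := (Finset.mem_filter.1 hm₂S).1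
        have hm₂j : m₂ 1 = j := (Finset.mem_filter.1 hm₂S).2
        rw [hterm m₂]
        by_cases hdv : (p : ℤ) ∣ H.coeff m₂
        · obtain ⟨c, hc⟩ := hdv
          have h5 : v ((H.coeff m₂ : ℤ) : ℂ) ≤ v (p : ℂ) := by
            rw [hc, Int.cast_mul, map_mul, Int.cast_natCast]
            exact mul_le_of_le_one_right (AbsoluteValue.nonneg v _) hv.apply_intCast_le_one
          calc v ((H.coeff m₂ : ℤ) : ℂ) * t ^ (u * (m₂ 0 : ℤ) + w * m₂ 1)
              ≤ R * (t ^ K)⁻¹ :=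
                mul_le_mul (h5.trans hRp) (zpow_bounds ht0 hτ1 (e_abs_le (supp_le le_rfl hm₂s))).2
                  (zpow_nonneg ht0.le _) hR0
            _ < t ^ K * t ^ K * (t ^ K)⁻¹ := by gcongr
            _ = t ^ K := by field_simp
            _ ≤ _ := (zpow_bounds ht0 hτ1 (e_abs_le (supp_le le_rfl hm₁s))).1
        · have h6 : v ((H.coeff m₂ : ℤ) : ℂ) = 1 := v_int_eq_one hv hp hvp hdv
          rw [h6, one_mul]
          refine lt_of_le_of_ne (hm₁ m₂ (Finset.mem_filter.2 ⟨hm₂S, hdv⟩)) fun heq => ?_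
          have h7 := (zpow_right_injective₀ ht0 hτ1.ne) heq
          rw [hm₂j, hm₁j] at h7
          have h8 : (m₂ 0 : ℤ) = m₁ 0 := mul_left_cancel₀ hu (by linarith)
          apply hne12
          ext i
          fin_cases i
          · exact_mod_cast h8
          · change m₂ 1 = m₁ 1
            rw [hm₂j, hm₁j]
    rw [hv.add_eq_left_of_lt hlt, hterm m₁, hv1, one_mul]
  have hcmp : v (P.eval 1) < v (P.coeff j) := by
    rw [hbig]
    refine lt_of_lt_of_le ?_ (zpow_bounds ht0 hτ1 (e_abs_le (supp_le le_rfl hm₁s))).1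
    by_contra hcon
    push Not at hcon
    have h9 : t ^ K * t ^ K ≤ v (P.eval 1) * t ^ K := by gcongr
    linarith
  obtain ⟨r, hr0, hr1⟩ := exists_unit_root hv hcmp
  refine ⟨x, B * r, t, ht0, hτ1, htr, ?_, ?_, ?_⟩
  · rw [← hPeval]; exact hr0
  · rw [hx, map_mul, hα, one_mul, map_zpow₀]
  · rw [map_mul, hvB, hr1, mul_one]

lemma cls_eq_coset (H : MvPolynomial (Fin 2) ℤ) (u w : ℤ) (α β : ℂ) (e : ℤ) :
    cls H u w α β e = (coset u w α β H).coeff e := by
  rw [coset_coeff, cls, Finset.sum_filter]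
  refine Finset.sum_congr rfl fun m _ => ?_
  rw [mul_comm u, mul_comm w]

lemma cls_swp (H : MvPolynomial (Fin 2) ℤ) (u w : ℤ) (α β : ℂ) (e : ℤ) :
    cls (swp H) u w α β e = cls H w u β α e := by
  rw [cls_eq_coset, cls_eq_coset, coset_swp]

lemma ev_swp (H : MvPolynomial (Fin 2) ℤ) (x y : ℂ) : ev (swp H) x y = ev H y x := by
  rw [ev_eq_aeval, ev_eq_aeval, aeval_swp]

/-- **the points above a coset modulo `v`** -/
theorem exists_point (hv : IsNonarchimedean v) {p : ℕ} (hp : p.Prime) (hvp : v (p : ℂ) < 1)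
    {H : MvPolynomial (Fin 2) ℤ} (hcoef : ∃ m, ¬ (p : ℤ) ∣ H.coeff m) {u w : ℤ} (huw : u ≠ 0 ∨ w ≠ 0)
    (h : ¬ NoCosetDir v H u w) :
    ∃ (x y : ℂ) (t : ℝ), 0 < t ∧ t < 1 ∧ (Transcendental ℤ x ∨ Transcendental ℤ y) ∧ ev H x y = 0 ∧
      v x = t ^ u ∧ v y = t ^ w := by
  rcases huw with hu | hw
  · obtain ⟨x, y, t, h0, h1, h2, h3, h4, h5⟩ := exists_point₀ hv hp hvp hcoef hu h
    exact ⟨x, y, t, h0, h1, Or.inl h2, h3, h4, h5⟩
  · obtain ⟨m, hm⟩ := hcoef
    have hcoef' : ∃ m, ¬ (p : ℤ) ∣ (swp H).coeff m :=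
      ⟨m.mapDomain (Equiv.swap 0 1), by
        rw [swp, coeff_rename_mapDomain _ (Equiv.swap (0 : Fin 2) 1).injective]; exact hm⟩
    have h' : ¬ NoCosetDir v (swp H) w u := by
      intro h1
      apply h
      intro α β hα hβ
      obtain ⟨e, he⟩ := h1 β α hβ hα
      rw [cls_swp] at he
      exact ⟨e, he⟩
    obtain ⟨x, y, t, h0, h1, h2, h3, h4, h5⟩ := exists_point₀ hv hp hvp hcoef' hw h'
    rw [ev_swp] at h3
    exact ⟨y, x, t, h0, h1, Or.inr h2, h3, h5, h4⟩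

end Pool.Agent.Helper69.DL
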