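import Pool.Agent.Helper69.DL.Scale

/-! # Torsion points modulo `p ^ 2` on the curve `H(X, Y) = 0` -/

open MvPolynomial

namespace Pool.Agent.Helper69.DL
open Pool.Agent.Helper20.ZD Pool.Agent.Helper20.DL

variable {v : AbsoluteValue ℂ ℝ}

/-- the pairs of roots of unity of order prime to `p` near the curve -/
def pairs (v : AbsoluteValue ℂ ℝ) (p : ℕ) (H : MvPolynomial (Fin 2) ℤ) : Set (ℂ × ℂ) :=
  {z : ℂ × ℂ | (∃ N : ℕ, N.Coprime p ∧ 0 < N ∧ z.1 ^ N = 1 ∧ z.2 ^ N = 1) ∧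
    v (ev H z.1 z.2) ≤ v (p : ℂ) ^ 2}

lemma large_of {p D : ℕ} (h : 64 * (D + 1) ^ 2 ≤ p) : 2 * (Nat.sqrt p * D) < p - 1 := by
  have h1 : 8 * (D + 1) ≤ Nat.sqrt p := by
    rw [Nat.le_sqrt]
    nlinarith
  have h2 : Nat.sqrt p * Nat.sqrt p ≤ p := Nat.sqrt_le p
  have h3 : 2 * (Nat.sqrt p * D) + 2 ≤ Nat.sqrt p * Nat.sqrt p := by nlinarith
  omega

lemma scale_totalDegree {a b : ℤ} (ha : a ≠ 0) (hb : b ≠ 0) (H : MvPolynomial (Fin 2) ℤ) :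
    (scale a b H).totalDegree = H.totalDegree := by
  rw [totalDegree, totalDegree, scale_support ha hb]

/-- **torsion points modulo `p ^ 2`**, from the finiteness for roots of unity of order prime to `p` -/
theorem torsion_rel_of (hv : IsNonarchimedean v) {p : ℕ} (hp : p.Prime) (hvp : v (p : ℂ) < 1)
    {H : MvPolynomial (Fin 2) ℤ} (hH : GoodRel v p H)
    (hfin : ∀ a b : ℤ, ¬ (p : ℤ) ∣ a → ¬ (p : ℤ) ∣ b → (pairs v p (scale a b H)).Finite) (μ₁ μ₂ : ℚ)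
    (hμ₁ : v (μ₁ : ℂ) = 1) (hμ₂ : v (μ₂ : ℂ) = 1) :
    ∃ G : ℕ, ∀ (x y ζ₁ ζ₂ : ℂ) (g₁ g₂ : ℕ), 0 < g₁ → 0 < g₂ → IsPrimitiveRoot ζ₁ g₁ →
      IsPrimitiveRoot ζ₂ g₂ → v (x - μ₁ * ζ₁) ≤ v (p : ℂ) ^ 2 → v (y - μ₂ * ζ₂) ≤ v (p : ℂ) ^ 2 →
      ev H x y = 0 → g₁ ≤ G ∧ g₂ ≤ G := by
  have hvp0 : 0 ≤ v (p : ℂ) := AbsoluteValue.nonneg v _
  have hvp2 : v (p : ℂ) ^ 2 ≤ v (p : ℂ) := by
    rw [sq]; exact mul_le_of_le_one_left hvp0 hvp.le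
  -- the integers
  have key : ∀ μ : ℚ, v (μ : ℂ) = 1 → ∃ a : ℤ, v ((μ : ℂ) - a) ≤ v (p : ℂ) ^ 2 ∧ ¬ (p : ℤ) ∣ a := by
    intro μ hμ
    obtain ⟨a, ha⟩ := exists_int_near hv hp hvp hμ.le
    refine ⟨a, ha, fun h => ?_⟩
    have h1 := (v_int_lt_iff hv hp hvp).2 h
    have h2 : v (μ : ℂ) < 1 := by
      rw [show (μ : ℂ) = (μ - a) + a by ring]
      exact lt_of_le_of_lt (hv _ _) (max_lt (lt_of_le_of_lt (ha.trans hvp2) hvp) h1)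
    rw [hμ] at h2
    exact lt_irrefl _ h2
  obtain ⟨a, ha, hpa⟩ := key μ₁ hμ₁
  obtain ⟨b, hb, hpb⟩ := key μ₂ hμ₂
  have ha0 : a ≠ 0 := by rintro rfl; exact hpa (dvd_zero _)
  have hb0 : b ≠ 0 := by rintro rfl; exact hpb (dvd_zero _)
  have hva : v (a : ℂ) = 1 := v_int_eq_one hv hp hvp hpa
  have hvb : v (b : ℂ) = 1 := v_int_eq_one hv hp hvp hpb
  have hF := hfin a b hpa hpb
  set F := hF.toFinset with hFdef
  refine ⟨F.sup (fun z => orderOf z.1) ⊔ F.sup (fun z => orderOf z.2),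
    fun x y ζ₁ ζ₂ g₁ g₂ hg₁ hg₂ hζ₁ hζ₂ hx hy hxy => ?_⟩
  have hz1 : v ζ₁ = 1 := val_root hg₁ hζ₁.pow_eq_one
  have hz2 : v ζ₂ = 1 := val_root hg₂ hζ₂.pow_eq_one
  have near : ∀ {μ : ℚ} {c : ℤ} {z ζ : ℂ}, v ((μ : ℂ) - c) ≤ v (p : ℂ) ^ 2 → v ζ = 1 →
      v (z - μ * ζ) ≤ v (p : ℂ) ^ 2 → v (z - c * ζ) ≤ v (p : ℂ) ^ 2 := by
    intro μ c z ζ h1 h2 h3
    rw [show z - c * ζ = (z - μ * ζ) + (μ - c) * ζ by ring]
    refine (hv _ _).trans (max_le h3 ?_)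
    rw [map_mul, h2, mul_one]
    exact h1
  have hx' := near ha hz1 hx
  have hy' := near hb hz2 hy
  have hxv : v x ≤ 1 := by
    rw [show x = (x - a * ζ₁) + a * ζ₁ by ring]
    refine (hv _ _).trans (max_le (hx'.trans (hvp2.trans hvp.le)) ?_)
    rw [map_mul, hva, hz1, one_mul]
  have hyv : v y ≤ 1 := by
    rw [show y = (y - b * ζ₂) + b * ζ₂ by ring]
    refine (hv _ _).trans (max_le (hy'.trans (hvp2.trans hvp.le)) ?_)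
    rw [map_mul, hvb, hz2, one_mul]
  have hev : v (ev (scale a b H) ζ₁ ζ₂) ≤ v (p : ℂ) ^ 2 := by
    rw [ev_scale ha0 hb0]
    have h1 := ev_sub_le hv H hxv (x' := a * ζ₁) (by rw [map_mul, hva, hz1, one_mul]) hyv (y' := b * ζ₂)
      (by rw [map_mul, hvb, hz2, one_mul])
    rw [hxy, zero_sub, map_neg_eq_map] at h1
    exact h1.trans (max_le hx' hy')
  have hpow1 : ζ₁ ^ (g₁ * g₂) = 1 := by rw [pow_mul, hζ₁.pow_eq_one, one_pow]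
  have hpow2 : ζ₂ ^ (g₁ * g₂) = 1 := by rw [mul_comm, pow_mul, hζ₂.pow_eq_one, one_pow]
  have hnd := not_dvd_orderOf hv hp hvp (noCoset_of (scale_noCoset hv hp hvp hpa hpb hH.noCoset))
    (D := H.totalDegree) (scale_totalDegree ha0 hb0 H).le (large_of hH.large) (Nat.mul_pos hg₁ hg₂) hpow1 hpow2
    (by rw [← ev_eq_aeval]; exact hev.trans hvp2)
  rw [← hζ₁.eq_orderOf, ← hζ₂.eq_orderOf] at hnd
  have hmem : ((ζ₁, ζ₂) : ℂ × ℂ) ∈ F := by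
    rw [hFdef, Set.Finite.mem_toFinset]
    refine ⟨⟨g₁ * g₂, ?_, Nat.mul_pos hg₁ hg₂, hpow1, hpow2⟩, hev⟩
    exact Nat.Coprime.mul_left ((Nat.Prime.coprime_iff_not_dvd hp).2 hnd.1).symm
      ((Nat.Prime.coprime_iff_not_dvd hp).2 hnd.2).symm
  constructor
  · refine le_sup_of_le_left ?_
    have h1 := Finset.le_sup (f := fun z : ℂ × ℂ => orderOf z.1) hmem
    simp only [← hζ₁.eq_orderOf] at h1
    exact h1
  · refine le_sup_of_le_right ?_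
    have h1 := Finset.le_sup (f := fun z : ℂ × ℂ => orderOf z.2) hmem
    simp only [← hζ₂.eq_orderOf] at h1
    exact h1

end Pool.Agent.Helper69.DL
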