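import Pool.Agent.Helper69.DL.Dir
import Pool.Agent.Helper69.DL.Rel
import Pool.Agent.Helper22.DL.Alg
import Pool.Agent.Helper22.DL.CaseAB

/-! # Dilates: the relations -/

open MvPolynomial

namespace Pool.Agent.Helper69.DL
open Pool.Agent.Helper20.ZD Pool.Agent.Helper20.DL Pool.Agent.Helper22.DL

variable {v : AbsoluteValue ℂ ℝ}

/-- a polynomial in one variable makes this variable algebraic -/
lemma degreeOf_pos₀ {H : MvPolynomial (Fin 2) ℤ} (hH0 : H ≠ 0) {x y : ℂ} (hxy : ev H x y = 0)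
    (hy : Transcendental ℤ y) : 0 < H.degreeOf 0 := by
  by_contra hcon
  have h0 : H.degreeOf 0 = 0 := by omega
  have hm0 : ∀ m ∈ H.support, m 0 = 0 := fun m hm =>
    Nat.le_zero.1 ((monomial_le_degreeOf 0 hm).trans h0.le)
  apply hy
  refine ⟨∑ m ∈ H.support, Polynomial.monomial (m 1) (H.coeff m), ?_, ?_⟩
  · obtain ⟨m₀, hm₀⟩ := MvPolynomial.ne_zero_iff.1 hH0
    intro h
    have h1 := congrArg (fun P => Polynomial.coeff P (m₀ 1)) h
    simp only [Polynomial.finsetSum_coeff, Polynomial.coeff_monomial, Polynomial.coeff_zero] at h1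
    rw [Finset.sum_eq_single m₀] at h1
    · rw [if_pos rfl] at h1
      exact hm₀ h1
    · intro m hm hne
      rw [if_neg]
      intro h2
      apply hne
      ext i
      fin_cases i
      · change m 0 = m₀ 0
        rw [hm0 m hm, hm0 m₀ (mem_support_iff.2 hm₀)]
      · exact h2
    · intro h2
      exact absurd (mem_support_iff.2 hm₀) h2
  · rw [map_sum, ← hxy, ev]
    refine Finset.sum_congr rfl fun m hm => ?_
    rw [Polynomial.aeval_monomial, hm0 m hm, pow_zero, mul_one]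
    simp

lemma swp_ne_zero {H : MvPolynomial (Fin 2) ℤ} (h : H ≠ 0) : swp H ≠ 0 := by
  intro h0
  apply h
  rw [swp] at h0
  exact (rename_injective _ (Equiv.swap (0 : Fin 2) 1).injective) (by rw [h0, map_zero])

lemma degreeOf_pos₁ {H : MvPolynomial (Fin 2) ℤ} (hH0 : H ≠ 0) {x y : ℂ} (hxy : ev H x y = 0)
    (hx : Transcendental ℤ x) : 0 < H.degreeOf 1 := by
  have h1 : 0 < (swp H).degreeOf 0 :=
    degreeOf_pos₀ (swp_ne_zero hH0) (x := y) (y := x) (by rw [ev_swp]; exact hxy) hx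
  have h2 : (swp H).degreeOf ((Equiv.swap (0 : Fin 2) 1) 1) = H.degreeOf 1 :=
    degreeOf_rename_of_injective (Equiv.swap (0 : Fin 2) 1).injective 1
  rw [Equiv.swap_apply_right] at h2
  rwa [h2] at h1

/-- **the conditions modulo `p`** -/
theorem goodRel_of_data {n : ℕ} (a b : Fin n → ℤ) {H : MvPolynomial (Fin 2) ℤ} (hH : Irreducible H) {M : ℕ}
    (hM : 0 < M) {x y : ℂ} (hxy : ev H x y = 0)
    (hT : ∀ s t : ℤ, (s ≠ 0 ∨ t ≠ 0) → Transcendental ℤ (x ^ s * y ^ t))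
    (hK : ∀ x₀ y₀ : ℂ, ev H x₀ y₀ = 0 → (Transcendental ℤ x₀ ∨ Transcendental ℤ y₀) →
      ∀ G : MvPolynomial (Fin 2) ℤ, ev G x₀ y₀ = 0 → H ∣ G)
    (hE : ∀ p : ℕ, p.Prime → ¬ p ∣ M → ∀ v : AbsoluteValue ℂ ℝ, IsNonarchimedean v → v (p : ℂ) < 1 →
      ∀ x₀ y₀ : ℂ, ev H x₀ y₀ = 0 → (Transcendental ℤ x₀ ∨ Transcendental ℤ y₀) →
        ∃ z : Fin n → ℂ, (∀ i, z i ≠ 0) ∧ ∏ i, z i ^ a i = x₀ ∧ ∏ i, z i ^ b i = y₀ ∧
          ∀ i j, i ≠ j → v (z i) = 1 ∨ v (z j) = 1) :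
    ∃ M' : ℕ, 0 < M' ∧ ∀ p : ℕ, p.Prime → ¬ p ∣ M' → ∀ v : AbsoluteValue ℂ ℝ, IsNonarchimedean v →
      v (p : ℂ) < 1 → GoodRel v p H := by
  obtain ⟨M₁, hM₁, h1⟩ := noCoset_of_data a b hH.ne_zero hM hxy hT hK hE
  have hx : Transcendental ℤ x := by
    have := hT 1 0 (Or.inl one_ne_zero)
    rwa [zpow_one, zpow_zero, mul_one] at this
  have hy : Transcendental ℤ y := by
    have := hT 0 1 (Or.inr one_ne_zero)
    rwa [zpow_one, zpow_zero, one_mul] at this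
  obtain ⟨M₂, hM₂, h2⟩ := good_of_irreducible hH (degreeOf_pos₀ hH.ne_zero hxy hy)
    (degreeOf_pos₁ hH.ne_zero hxy hx)
  refine ⟨M₁ * M₂, Nat.mul_pos hM₁ hM₂, fun p hp hpM v hv hvp => ?_⟩
  have h3 := h1 p hp (fun h => hpM (h.mul_right _)) v hv hvp
  have h4 := h2 p hp fun h => hpM (h.mul_left _)
  exact ⟨h3, h4.bot₀, h4.bot₁, h4.top₀, h4.top₁, h4.sqf₀, h4.sqf₁, h4.large⟩

/-- **torsion points modulo `p ^ 2`** from the finiteness of the pairs -/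
theorem torsionRel_of (hfin : ∀ (v : AbsoluteValue ℂ ℝ) (_ : IsNonarchimedean v) (p : ℕ) (_ : p.Prime)
    (_ : v (p : ℂ) < 1) (H : MvPolynomial (Fin 2) ℤ) (_ : Pool.Agent.Helper20.DL.NoCoset v H)
    (_ : 64 * (H.totalDegree + 1) ^ 2 ≤ p)
    (_ : ∃ (A B : MvPolynomial (Fin 2) ℤ) (Δ : Polynomial ℤ),
      A * H + B * pderiv 0 H = Polynomial.aeval (X 1 : MvPolynomial (Fin 2) ℤ) Δ ∧ ∃ k, ¬ (p : ℤ) ∣ Δ.coeff k)
    (_ : ∃ (A B : MvPolynomial (Fin 2) ℤ) (Δ : Polynomial ℤ),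
      A * H + B * pderiv 1 H = Polynomial.aeval (X 0 : MvPolynomial (Fin 2) ℤ) Δ ∧ ∃ k, ¬ (p : ℤ) ∣ Δ.coeff k),
    (pairs v p H).Finite) : TorsionRel := by
  intro v hv p hp hvp H hH μ₁ μ₂ hμ₁ hμ₂
  refine torsion_rel_of hv hp hvp hH (fun a b ha hb => ?_) μ₁ μ₂ hμ₁ hμ₂
  have ha0 : a ≠ 0 := by rintro rfl; exact ha (dvd_zero _)
  have hb0 : b ≠ 0 := by rintro rfl; exact hb (dvd_zero _)
  refine hfin v hv p hp hvp _ (scale_noCoset hv hp hvp ha hb hH.noCoset)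
    (by rw [scale_totalDegree ha0 hb0]; exact hH.large) ?_ ?_
  · refine sqf_scale hp 0 1 a b ha hb (pderiv_scale₀ a b H) ?_ hH.sqf₀
    simp [scale]
  · refine sqf_scale hp 1 0 b a hb ha (pderiv_scale₁ a b H) ?_ hH.sqf₁
    simp [scale]

end Pool.Agent.Helper69.DL
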