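import Pool.Agent.Helper69.DL.Digits

/-! # Cosets of one-dimensional tori modulo a place -/

open MvPolynomial

namespace Pool.Agent.Helper69.DL
open Pool.Agent.Helper20.ZD

variable {v : AbsoluteValue ℂ ℝ}

/-- `H(α T ^ u, β T ^ w)` -/
noncomputable def coset (u w : ℤ) (α β : ℂ) : MvPolynomial (Fin 2) ℤ →ₐ[ℤ] LaurentPolynomial ℂ :=
  aeval ![LaurentPolynomial.C α * LaurentPolynomial.T u, LaurentPolynomial.C β * LaurentPolynomial.T w]

/-- modulo the place `v` the polynomial `H` vanishes on no coset `{(α t ^ u, β t ^ w)}` -/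
def NoCoset (v : AbsoluteValue ℂ ℝ) (H : MvPolynomial (Fin 2) ℤ) : Prop :=
  ∀ u w : ℤ, (u ≠ 0 ∨ w ≠ 0) → ∀ α β : ℂ, v α = 1 → v β = 1 → ¬ ∀ e, v ((coset u w α β H).coeff e) < 1

lemma coset_monomial (u w : ℤ) (α β : ℂ) (m : Fin 2 →₀ ℕ) (a : ℤ) :
    coset u w α β (monomial m a) =
      LaurentPolynomial.C ((a : ℂ) * α ^ m 0 * β ^ m 1) * LaurentPolynomial.T (m 0 * u + m 1 * w) := by
  rw [coset, aeval_monomial, Finsupp.prod_fintype _ _ (by simp)]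
  simp only [Fin.prod_univ_two, Matrix.cons_val_zero, Matrix.cons_val_one, mul_pow, LaurentPolynomial.T_pow]
  rw [map_mul, map_mul, map_pow, map_pow, LaurentPolynomial.T_add]
  have h1 : (algebraMap ℤ (LaurentPolynomial ℂ)) a = LaurentPolynomial.C (a : ℂ) := by simp
  rw [h1]
  ring

lemma coset_coeff (u w : ℤ) (α β : ℂ) (H : MvPolynomial (Fin 2) ℤ) (e : ℤ) :
    (coset u w α β H).coeff e = ∑ m ∈ H.support,
      if (m 0 : ℤ) * u + m 1 * w = e then ((H.coeff m : ℤ) : ℂ) * α ^ m 0 * β ^ m 1 else 0 := by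
  conv_lhs => rw [H.as_sum, map_sum]
  rw [AddMonoidAlgebra.coeff_sum, Finset.sum_apply']
  refine Finset.sum_congr rfl fun m _ => ?_
  rw [coset_monomial, ← LaurentPolynomial.single_eq_C_mul_T, AddMonoidAlgebra.coeff_single,
    Finsupp.single_apply]


lemma v_coset_le (hv : IsNonarchimedean v) (u w : ℤ) {α β : ℂ} (hα : v α ≤ 1) (hβ : v β ≤ 1)
    (H : MvPolynomial (Fin 2) ℤ) (e : ℤ) : v ((coset u w α β H).coeff e) ≤ 1 := by
  rw [coset_coeff]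
  refine val_sum_le hv _ _ zero_le_one fun m _ => ?_
  split_ifs
  · rw [map_mul, map_mul, map_pow, map_pow]
    have h1 : v ((H.coeff m : ℤ) : ℂ) ≤ 1 := hv.apply_intCast_le_one
    exact mul_le_one₀ (mul_le_one₀ h1 (pow_nonneg (AbsoluteValue.nonneg v _) _)
      (pow_le_one₀ (AbsoluteValue.nonneg v _) hα)) (pow_nonneg (AbsoluteValue.nonneg v _) _)
      (pow_le_one₀ (AbsoluteValue.nonneg v _) hβ)
  · rw [map_zero]; exact zero_le_one

/-- the polynomial `T ^ L H(X T ^ u, Y T ^ w)` in `T` -/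
noncomputable def shift (u w : ℤ) (L : ℕ) (H : MvPolynomial (Fin 2) ℤ) :
    Polynomial (MvPolynomial (Fin 2) ℤ) :=
  ∑ m ∈ H.support, Polynomial.monomial (((m 0 : ℤ) * u + m 1 * w + L).toNat) (monomial m (H.coeff m))

lemma line_le {u w : ℤ} {S D : ℕ} (hu : |u| ≤ S) (hw : |w| ≤ S) {m : Fin 2 →₀ ℕ} (hm : m 0 + m 1 ≤ D) :
    |(m 0 : ℤ) * u + m 1 * w| ≤ (S * D : ℕ) := by
  have h0 : (0 : ℤ) ≤ m 0 := Int.natCast_nonneg _
  have h1 : (0 : ℤ) ≤ m 1 := Int.natCast_nonneg _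
  have hm' : (m 0 : ℤ) + m 1 ≤ D := by exact_mod_cast hm
  calc |(m 0 : ℤ) * u + m 1 * w| ≤ |(m 0 : ℤ) * u| + |(m 1 : ℤ) * w| := abs_add_le _ _
    _ = m 0 * |u| + m 1 * |w| := by rw [abs_mul, abs_mul, abs_of_nonneg h0, abs_of_nonneg h1]
    _ ≤ m 0 * S + m 1 * S := by gcongr
    _ = S * (m 0 + m 1) := by ring
    _ ≤ S * D := by gcongr
    _ = (S * D : ℕ) := by push_cast; ring

lemma shift_natDegree {u w : ℤ} {S D : ℕ} (hu : |u| ≤ S) (hw : |w| ≤ S) {H : MvPolynomial (Fin 2) ℤ}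
    (hD : ∀ m ∈ H.support, m 0 + m 1 ≤ D) : (shift u w (S * D) H).natDegree ≤ 2 * (S * D) := by
  refine Polynomial.natDegree_sum_le_of_forall_le _ _ fun m hm => ?_
  refine (Polynomial.natDegree_monomial_le _).trans ?_
  have h1 := abs_le.1 (line_le hu hw (hD m hm))
  omega

lemma aeval_mono (a : ℤ) (m : Fin 2 →₀ ℕ) (x y : ℂ) :
    aeval ![x, y] (monomial m a) = (a : ℂ) * x ^ m 0 * y ^ m 1 := by
  rw [aeval_monomial, Finsupp.prod_fintype _ _ (by simp)]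
  simp [mul_assoc]

lemma shift_coeff {u w : ℤ} {S D : ℕ} (hu : |u| ≤ S) (hw : |w| ≤ S) {H : MvPolynomial (Fin 2) ℤ}
    (hD : ∀ m ∈ H.support, m 0 + m 1 ≤ D) (η₁ η₂ : ℂ) (k : ℕ) :
    ((shift u w (S * D) H).map (aeval ![η₁, η₂] : MvPolynomial (Fin 2) ℤ →ₐ[ℤ] ℂ).toRingHom).coeff k =
      (coset u w η₁ η₂ H).coeff ((k : ℤ) - (S * D : ℕ)) := by
  rw [coset_coeff, shift, Polynomial.map_sum, Polynomial.finsetSum_coeff]
  refine Finset.sum_congr rfl fun m hm => ?_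
  have h1 := abs_le.1 (line_le hu hw (hD m hm))
  rw [Polynomial.map_monomial, Polynomial.coeff_monomial]
  have h2 : (((m 0 : ℤ) * u + m 1 * w + (S * D : ℕ)).toNat = k) ↔
      ((m 0 : ℤ) * u + m 1 * w = (k : ℤ) - (S * D : ℕ)) := by omega
  simp only [h2]
  split_ifs
  · exact aeval_mono _ _ _ _
  · rfl

lemma shift_eval {u w : ℤ} {S D : ℕ} (hu : |u| ≤ S) (hw : |w| ≤ S) {H : MvPolynomial (Fin 2) ℤ}
    (hD : ∀ m ∈ H.support, m 0 + m 1 ≤ D) (η₁ η₂ : ℂ) {ω : ℂ} (hω : ω ≠ 0) :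
    ((shift u w (S * D) H).map (aeval ![η₁, η₂] : MvPolynomial (Fin 2) ℤ →ₐ[ℤ] ℂ).toRingHom).eval ω =
      ω ^ (S * D) * aeval ![η₁ * ω ^ u, η₂ * ω ^ w] H := by
  rw [shift, Polynomial.map_sum, Polynomial.eval_finsetSum]
  conv_rhs => rw [H.as_sum, map_sum, Finset.mul_sum]
  refine Finset.sum_congr rfl fun m hm => ?_
  have h1 := abs_le.1 (line_le hu hw (hD m hm))
  rw [Polynomial.map_monomial, Polynomial.eval_monomial, aeval_mono]
  have h2 : (aeval ![η₁, η₂] : MvPolynomial (Fin 2) ℤ →ₐ[ℤ] ℂ).toRingHom (monomial m (H.coeff m)) =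
      ((H.coeff m : ℤ) : ℂ) * η₁ ^ m 0 * η₂ ^ m 1 := aeval_mono _ _ _ _
  have h3 : ω ^ (((m 0 : ℤ) * u + m 1 * w + (S * D : ℕ)).toNat) =
      (ω ^ u) ^ m 0 * (ω ^ w) ^ m 1 * ω ^ (S * D) := by
    rw [← zpow_natCast, Int.toNat_of_nonneg (by omega), zpow_add₀ hω, zpow_add₀ hω, mul_comm (m 0 : ℤ) u,
      mul_comm (m 1 : ℤ) w, zpow_mul, zpow_mul, zpow_natCast, zpow_natCast, zpow_natCast]
  rw [h2, h3, mul_pow, mul_pow]
  ring

/-- **a point on a coset, near `1`** -/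
theorem digits_one (hv : IsNonarchimedean v) {p N : ℕ} (hp : p.Prime) (hpN : Nat.Coprime p N)
    {H : MvPolynomial (Fin 2) ℤ} (hNC : NoCoset v H) {S D : ℕ} (hD : ∀ m ∈ H.support, m 0 + m 1 ≤ D)
    {u w : ℤ} (huw : u ≠ 0 ∨ w ≠ 0) (hu : |u| ≤ S) (hw : |w| ≤ S) {η₁ η₂ : ℂ} (h₁ : η₁ ^ N = 1)
    (h₂ : η₂ ^ N = 1) {ω : ℂ} (hω : v ω = 1) (h0 : 0 < v (ω - 1)) (h1 : v (ω - 1) < 1)
    (hpd : v (p : ℂ) < v (ω - 1) ^ (2 * (S * D))) :
    v (ω - 1) ^ (2 * (S * D)) ≤ v (aeval ![η₁ * ω ^ u, η₂ * ω ^ w] H) := by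
  have hω0 : ω ≠ 0 := by
    rintro rfl
    rw [map_zero] at hω
    exact zero_ne_one hω
  have hN := coprime_pos hp hpN
  have hη : ∀ i, (![η₁, η₂] : Fin 2 → ℂ) i ^ N = 1 := by
    intro i
    fin_cases i
    · exact h₁
    · exact h₂
  have hge := eval_ge hv hp hpN hη (shift u w (S * D) H) (shift_natDegree hu hw hD) (fun hcon => ?_) h0 h1 hpd
  · rw [shift_eval hu hw hD η₁ η₂ hω0, map_mul, map_pow, hω, one_pow, one_mul] at hge
    exact hge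
  · refine hNC u w huw η₁ η₂ (val_root hN h₁) (val_root hN h₂) fun e => ?_
    rcases lt_or_ge (e + (S * D : ℕ)) 0 with he | he
    · rw [coset_coeff]
      have h3 : ∀ m ∈ H.support, (if (m 0 : ℤ) * u + m 1 * w = e then
          ((H.coeff m : ℤ) : ℂ) * η₁ ^ m 0 * η₂ ^ m 1 else 0) = 0 := by
        intro m hm
        have h4 := abs_le.1 (line_le hu hw (hD m hm))
        rw [if_neg (by omega)]
      rw [Finset.sum_eq_zero h3, map_zero]
      exact one_pos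
    · obtain ⟨k, hk⟩ := Int.eq_ofNat_of_zero_le he
      have h5 := hcon k
      rw [shift_coeff hu hw hD] at h5
      have h6 : (k : ℤ) - (S * D : ℕ) = e := by omega
      rw [h6] at h5
      exact h5

end Pool.Agent.Helper69.DL
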