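import Pool.Agent.Helper69.DL.Frob

/-! # Torsion points of order divisible by `p` -/

open MvPolynomial

namespace Pool.Agent.Helper69.DL
open Pool.Agent.Helper20.ZD

variable {σ : Type*} {v : AbsoluteValue ℂ ℝ}

/-- translation by `r` does not increase the coefficients -/
lemma taylor_coeff_lt (hv : IsNonarchimedean v) {P : Polynomial ℂ} (h : ∀ k, v (P.coeff k) < 1) {r : ℂ}
    (hr : v r ≤ 1) (k : ℕ) : v ((Polynomial.taylor r P).coeff k) < 1 := by
  rw [Polynomial.taylor_coeff, Polynomial.eval_eq_sum_range]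
  obtain ⟨B, hB0, hB1, hB⟩ : ∃ B : ℝ, 0 ≤ B ∧ B < 1 ∧ ∀ j ∈ Finset.range (P.natDegree + 1), v (P.coeff j) ≤ B := by
    obtain ⟨j₀, -, hj₀⟩ := Finset.exists_max_image (Finset.range (P.natDegree + 1)) (fun j => v (P.coeff j))
      ⟨0, by simp⟩
    exact ⟨v (P.coeff j₀), AbsoluteValue.nonneg v _, h j₀, fun j hj => hj₀ j hj⟩
  have hB' : ∀ j, v (P.coeff j) ≤ B := by
    intro j
    by_cases hj : j ∈ Finset.range (P.natDegree + 1)
    · exact hB j hj
    · rw [Polynomial.coeff_eq_zero_of_natDegree_lt (by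
        rw [Finset.mem_range] at hj; omega), map_zero]
      exact hB0
  refine lt_of_le_of_lt (val_sum_le hv _ _ hB0 fun i _ => ?_) hB1
  rw [Polynomial.hasseDeriv_coeff, map_mul, map_mul, map_pow]
  have h1 : v (((i + k).choose k : ℕ) : ℂ) ≤ 1 := hv.apply_natCast_le_one
  calc v (((i + k).choose k : ℕ) : ℂ) * v (P.coeff (i + k)) * v r ^ i ≤ 1 * B * 1 := by
        gcongr
        · exact hB' _
        · exact pow_le_one₀ (AbsoluteValue.nonneg v _) hr
    _ = B := by ring

/-- the value near `1` of a polynomial with unramified coefficients, one of which is a unit -/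
theorem eval_ge (hv : IsNonarchimedean v) {p N : ℕ} (hp : p.Prime) (hpN : Nat.Coprime p N) {η : σ → ℂ}
    (hη : ∀ i, η i ^ N = 1) (P : Polynomial (MvPolynomial σ ℤ)) {d : ℕ} (hd : P.natDegree ≤ d)
    (hu : ¬ ∀ k, v ((P.map (aeval η : MvPolynomial σ ℤ →ₐ[ℤ] ℂ).toRingHom).coeff k) < 1)
    {ω : ℂ} (h0 : 0 < v (ω - 1)) (h1 : v (ω - 1) < 1) (hpd : v (p : ℂ) < v (ω - 1) ^ d) :
    v (ω - 1) ^ d ≤ v ((P.map (aeval η : MvPolynomial σ ℤ →ₐ[ℤ] ℂ).toRingHom).eval ω) := by
  set φ := (aeval η : MvPolynomial σ ℤ →ₐ[ℤ] ℂ).toRingHom with hφ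
  set Q := Polynomial.taylor 1 P with hQ
  have hQm : Q.map φ = Polynomial.taylor 1 (P.map φ) := by
    rw [hQ, Polynomial.map_taylor, map_one]
  have hPm : P.map φ = Polynomial.taylor (-1) (Q.map φ) := by
    rw [hQm, Polynomial.taylor_taylor]
    simp
  have hev : (P.map φ).eval ω = (Q.map φ).eval (ω - 1) := by
    rw [hQm, Polynomial.taylor_eval]
    congr 1
    ring
  have hex : ∃ k, ¬ v ((Q.map φ).coeff k) < 1 := by
    by_contra hcon
    push Not at hcon
    apply hu
    intro k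
    rw [hPm]
    exact taylor_coeff_lt hv hcon (by simp) k
  classical
  have hk1 := Nat.find_spec hex
  have hkmin := fun k (hk : k < Nat.find hex) => Nat.find_min hex hk
  set k₀ := Nat.find hex with hk₀
  have hcoef : ∀ k, (Q.map φ).coeff k = aeval η (Q.coeff k) := fun k => by
    rw [Polynomial.coeff_map]; rfl
  have hle := root_le hv hp hpN hη
  have hcle : ∀ k, v ((Q.map φ).coeff k) ≤ 1 := fun k => by
    rw [hcoef]; exact v_aeval_le hv _ hle
  have hk1' : v ((Q.map φ).coeff k₀) = 1 := le_antisymm (hcle _) (not_lt.1 hk1)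
  have hQd : (Q.map φ).natDegree ≤ d := by
    refine (Polynomial.natDegree_map_le).trans ?_
    rw [hQ, Polynomial.natDegree_taylor]
    exact hd
  have hk₀d : k₀ ≤ d := by
    refine le_trans (Polynomial.le_natDegree_of_ne_zero ?_) hQd
    intro h
    rw [h, map_zero] at hk1'
    exact zero_ne_one hk1'
  set t := v (ω - 1) with ht
  rw [hev, Polynomial.eval_eq_sum_range' (lt_of_le_of_lt hQd (Nat.lt_succ_self d))]
  rw [← Finset.add_sum_erase _ _ (Finset.mem_range.2 (Nat.lt_succ_of_le hk₀d) : k₀ ∈ Finset.range d.succ)]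
  have hB : v (∑ k ∈ (Finset.range d.succ).erase k₀, (Q.map φ).coeff k * (ω - 1) ^ k)
      ≤ max (v (p : ℂ)) (t ^ (k₀ + 1)) := by
    refine val_sum_le hv _ _ (le_max_of_le_left (AbsoluteValue.nonneg v _)) fun k hk => ?_
    obtain ⟨hkk, -⟩ := Finset.mem_erase.1 hk
    rw [map_mul, map_pow]
    rcases lt_or_gt_of_ne hkk with h | h
    · refine le_max_of_le_left ?_
      have h2 := hkmin k h
      push Not at h2
      have h3 : v ((Q.map φ).coeff k) ≤ v (p : ℂ) := by
        rw [hcoef] at h2 ⊢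
        exact unramified hv hp hpN _ hη h2
      calc v ((Q.map φ).coeff k) * t ^ k ≤ v (p : ℂ) * 1 := by
            gcongr
            exact pow_le_one₀ h0.le h1.le
        _ = v (p : ℂ) := mul_one _
    · refine le_max_of_le_right ?_
      calc v ((Q.map φ).coeff k) * t ^ k ≤ 1 * t ^ k := by
            gcongr
            exact hcle k
        _ ≤ t ^ (k₀ + 1) := by
            rw [one_mul]
            exact pow_le_pow_of_le_one h0.le h1.le h
  have hmain : v ((Q.map φ).coeff k₀ * (ω - 1) ^ k₀) = t ^ k₀ := by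
    rw [map_mul, map_pow, hk1', one_mul]
  have hlt : max (v (p : ℂ)) (t ^ (k₀ + 1)) < t ^ k₀ := by
    refine max_lt (hpd.trans_le (pow_le_pow_of_le_one h0.le h1.le hk₀d)) ?_
    exact pow_lt_pow_right_of_lt_one₀ h0 h1 (Nat.lt_succ_self _)
  rw [hv.add_eq_left_of_lt (by rw [hmain]; exact lt_of_le_of_lt hB hlt), hmain]
  exact pow_le_pow_of_le_one h0.le h1.le hk₀d

end Pool.Agent.Helper69.DL
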