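import Pool.Agent.Helper69.DL.Point
import Mathlib.RingTheory.Nullstellensatz
import Mathlib.FieldTheory.IsAlgClosed.AlgebraicClosure

/-! # The class sums in one direction have no common zero -/

open MvPolynomial

namespace Pool.Agent.Helper69.DL
open Pool.Agent.Helper20.ZD Pool.Agent.Helper20.DL

variable {v : AbsoluteValue ℂ ℝ}

/-- the class of weight `e` over `ℚ` -/
noncomputable def clsQ (H : MvPolynomial (Fin 2) ℤ) (u w e : ℤ) : MvPolynomial (Fin 2) ℚ :=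
  ∑ m ∈ H.support with u * m 0 + w * m 1 = e, monomial m ((H.coeff m : ℤ) : ℚ)

lemma aeval_clsQ {L : Type*} [Field L] [Algebra ℚ L] (H : MvPolynomial (Fin 2) ℤ) (u w e : ℤ) (α β : L) :
    aeval ![α, β] (clsQ H u w e) =
      ∑ m ∈ H.support with u * m 0 + w * m 1 = e, ((H.coeff m : ℤ) : L) * α ^ m 0 * β ^ m 1 := by
  rw [clsQ, map_sum]
  refine Finset.sum_congr rfl fun m _ => ?_
  rw [aeval_monomial, Finsupp.prod_fintype _ _ (by simp)]
  simp [mul_assoc]

/-- the numerator of `f(X ^ s Y ^ t)` -/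
lemma exists_numerator (f : Polynomial ℤ) (s t : ℤ) : ∃ (G : MvPolynomial (Fin 2) ℤ) (K : ℕ),
    ∀ x y : ℂ, x ≠ 0 → y ≠ 0 → ev G x y = x ^ K * y ^ K * Polynomial.aeval (x ^ s * y ^ t) f := by
  set K := (s.natAbs + t.natAbs) * f.natDegree with hK
  refine ⟨∑ k ∈ Finset.range (f.natDegree + 1), C (f.coeff k) *
    (X 0 ^ (s * k + K).toNat * X 1 ^ (t * k + K).toNat), K, fun x y hx hy => ?_⟩
  rw [ev_eq_aeval, map_sum, Polynomial.aeval_eq_sum_range, Finset.mul_sum]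
  refine Finset.sum_congr rfl fun k hk => ?_
  have hkn : (k : ℤ) ≤ f.natDegree := by
    have := Finset.mem_range.1 hk
    omega
  have hk0 : (0 : ℤ) ≤ k := Int.natCast_nonneg k
  have key : ∀ a b : ℤ, |a| ≤ b → 0 ≤ a * k + b * f.natDegree := by
    intro a b hab
    have h1 := (abs_le.1 hab).1
    have hb : 0 ≤ b := (abs_nonneg a).trans hab
    nlinarith
  have hKs : (K : ℤ) = (|s| + |t|) * f.natDegree := by rw [hK]; push_cast; ring
  have hs : 0 ≤ s * k + K := by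
    rw [hKs]
    exact key s _ (le_add_of_nonneg_right (abs_nonneg _))
  have ht : 0 ≤ t * k + K := by
    rw [hKs]
    exact key t _ (le_add_of_nonneg_left (abs_nonneg _))
  rw [map_mul, map_mul, map_pow, map_pow, aeval_X, aeval_X, algHom_C]
  simp only [Matrix.cons_val_zero, Matrix.cons_val_one]
  rw [← zpow_natCast x ((s * k + K).toNat), ← zpow_natCast y ((t * k + K).toNat), Int.toNat_of_nonneg hs,
    Int.toNat_of_nonneg ht, zpow_add₀ hx, zpow_add₀ hy, zpow_mul, zpow_mul, zpow_natCast, zpow_natCast,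
    zpow_natCast, zpow_natCast, zsmul_eq_mul, mul_pow]
  simp only [algebraMap_int_eq, eq_intCast]
  ring

lemma isAlgebraic_int_of {L : Type*} [Field L] [Algebra ℚ L] [Algebra.IsAlgebraic ℚ L] (φ : L →ₐ[ℚ] ℂ) (a : L) :
    IsAlgebraic ℤ (φ a) := by
  have h1 : IsAlgebraic ℚ (φ a) := (Algebra.IsAlgebraic.isAlgebraic a).algHom φ
  exact (IsFractionRing.isAlgebraic_iff ℤ ℚ ℂ).2 h1

/-- the class sums have no common zero with nonzero algebraic coordinates -/
theorem no_common_zero {H : MvPolynomial (Fin 2) ℤ} {x y : ℂ} (hxy : ev H x y = 0)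
    (hT : ∀ s t : ℤ, (s ≠ 0 ∨ t ≠ 0) → Transcendental ℤ (x ^ s * y ^ t))
    (hK : ∀ x₀ y₀ : ℂ, ev H x₀ y₀ = 0 → (Transcendental ℤ x₀ ∨ Transcendental ℤ y₀) →
      ∀ G : MvPolynomial (Fin 2) ℤ, ev G x₀ y₀ = 0 → H ∣ G) {u w : ℤ} (huw : u ≠ 0 ∨ w ≠ 0) {α β : ℂ}
    (hα : α ≠ 0) (hβ : β ≠ 0) (hαa : IsAlgebraic ℤ α) (hβa : IsAlgebraic ℤ β)
    (h : ∀ e, cls H u w α β e = 0) : False := by
  obtain ⟨τ, hτ⟩ := exists_transcendental
  have hτ0 : τ ≠ 0 := by
    rintro rfl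
    exact hτ isAlgebraic_zero
  have hx0 : x ≠ 0 := by
    rintro rfl
    have := hT 1 0 (Or.inl one_ne_zero)
    rw [zpow_one, zpow_zero, mul_one] at this
    exact this isAlgebraic_zero
  have hy0 : y ≠ 0 := by
    rintro rfl
    have := hT 0 1 (Or.inr one_ne_zero)
    rw [zpow_one, zpow_zero, one_mul] at this
    exact this isAlgebraic_zero
  have htr : ∀ {a : ℂ} {k : ℤ}, a ≠ 0 → IsAlgebraic ℤ a → k ≠ 0 → Transcendental ℤ (a * τ ^ k) := by
    intro a k ha0 ha hk hcon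
    have h3 : IsAlgebraic ℤ (τ ^ k) := by
      have h4 : τ ^ k = (a * τ ^ k) * a⁻¹ := by field_simp
      rw [h4]
      exact hcon.mul ha.inv
    apply hτ
    rcases Int.eq_nat_or_neg k with ⟨n, rfl | rfl⟩
    · rw [zpow_natCast] at h3
      exact IsAlgebraic.of_pow (by omega) h3
    · have h5 := h3.inv
      rw [zpow_neg, inv_inv, zpow_natCast] at h5
      exact IsAlgebraic.of_pow (by omega) h5
  have hev : ev H (α * τ ^ u) (β * τ ^ w) = 0 := by
    rw [ev_eq_cls H u w α β hτ0]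
    exact Finset.sum_eq_zero fun e _ => by rw [h e, zero_mul]
  have htr2 : Transcendental ℤ (α * τ ^ u) ∨ Transcendental ℤ (β * τ ^ w) :=
    huw.imp (htr hα hαa) (htr hβ hβa)
  -- the invariant
  have hγ : (α * τ ^ u) ^ w * (β * τ ^ w) ^ (-u) = α ^ w * β ^ (-u) := by
    rw [mul_zpow, mul_zpow, ← zpow_mul, ← zpow_mul,
      show α ^ w * τ ^ (u * w) * (β ^ (-u) * τ ^ (w * -u)) = α ^ w * β ^ (-u) * (τ ^ (u * w) * τ ^ (w * -u)) by ring,
      ← zpow_add₀ hτ0, show u * w + w * -u = 0 by ring, zpow_zero, mul_one]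
  have hγalg : IsAlgebraic ℤ ((α * τ ^ u) ^ w * (β * τ ^ w) ^ (-u)) := by
    rw [hγ]
    exact (alg_zpow hαa w).mul (alg_zpow hβa _)
  obtain ⟨f, hf0, hf⟩ := hγalg
  obtain ⟨G, K, hG⟩ := exists_numerator f w (-u)
  have h1 : ev G (α * τ ^ u) (β * τ ^ w) = 0 := by
    rw [hG _ _ (mul_ne_zero hα (zpow_ne_zero _ hτ0)) (mul_ne_zero hβ (zpow_ne_zero _ hτ0)), hf, mul_zero]
  obtain ⟨Q, hQ⟩ := hK _ _ hev htr2 G h1
  have h2 : ev G x y = 0 := by
    rw [ev_eq_aeval, hQ, map_mul, ← ev_eq_aeval, hxy, zero_mul]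
  rw [hG x y hx0 hy0] at h2
  have h3 : Polynomial.aeval (x ^ w * y ^ (-u)) f = 0 := by
    rcases mul_eq_zero.1 h2 with h4 | h4
    · exact absurd h4 (mul_ne_zero (pow_ne_zero _ hx0) (pow_ne_zero _ hy0))
    · exact h4
  refine hT w (-u) ?_ ⟨f, hf0, h3⟩
  rcases huw with hu | hw
  · exact Or.inr (neg_ne_zero.2 hu)
  · exact Or.inl hw

lemma v_sum_lt_one (hv : IsNonarchimedean v) {ι : Type*} (s : Finset ι) (f : ι → ℂ)
    (h : ∀ i ∈ s, v (f i) < 1) : v (∑ i ∈ s, f i) < 1 := by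
  classical
  induction s using Finset.induction_on with
  | empty => simp
  | insert a s ha ih =>
    rw [Finset.sum_insert ha]
    exact lt_of_le_of_lt (hv _ _) (max_lt (h a (Finset.mem_insert_self _ _))
      (ih fun i hi => h i (Finset.mem_insert_of_mem hi)))

/-- the values of a polynomial with rational coefficients outside finitely many primes -/
lemma exists_den (A : MvPolynomial (Fin 2) ℚ) : ∃ M : ℕ, 0 < M ∧ ∀ p : ℕ, p.Prime → ¬ p ∣ M →
    ∀ v : AbsoluteValue ℂ ℝ, IsNonarchimedean v → v (p : ℂ) < 1 → ∀ α β : ℂ, v α = 1 → v β = 1 →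
      v (aeval ![α, β] A) ≤ 1 := by
  refine ⟨∏ m ∈ A.support, (A.coeff m).den, Finset.prod_pos fun m _ => (A.coeff m).den_pos,
    fun p hp hpM v hv hvp α β hα hβ => ?_⟩
  rw [aeval_def, eval₂_eq']
  refine val_sum_le hv _ _ zero_le_one fun m hm => ?_
  rw [Fin.prod_univ_two]
  simp only [Matrix.cons_val_zero, Matrix.cons_val_one, eq_ratCast]
  rw [map_mul, map_mul, map_pow, map_pow, hα, hβ, one_pow, one_pow, mul_one, mul_one]
  have h1 : ¬ p ∣ (A.coeff m).den := fun h => hpM (h.trans (Finset.dvd_prod_of_mem _ hm))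
  have h2 := v_nat_eq_one hv hp hvp h1
  have h3 : ((A.coeff m : ℚ) : ℂ) * ((A.coeff m).den : ℂ) = ((A.coeff m).num : ℂ) := by
    exact_mod_cast Rat.mul_den_eq_num (A.coeff m)
  have h4 := congrArg v h3
  rw [map_mul, h2, mul_one] at h4
  rw [h4]
  exact hv.apply_intCast_le_one

lemma cls_zero_of_notMem (H : MvPolynomial (Fin 2) ℤ) (u w : ℤ) {e : ℤ}
    (he : e ∉ H.support.image (fun m => u * (m 0 : ℤ) + w * m 1)) (α β : ℂ) : cls H u w α β e = 0 := by
  rw [cls, Finset.filter_eq_empty_iff.2, Finset.sum_empty]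
  intro m hm h
  exact he (Finset.mem_image.2 ⟨m, hm, h⟩)

/-- **one direction** -/
theorem dir_generic {H : MvPolynomial (Fin 2) ℤ} {x y : ℂ} (hxy : ev H x y = 0)
    (hT : ∀ s t : ℤ, (s ≠ 0 ∨ t ≠ 0) → Transcendental ℤ (x ^ s * y ^ t))
    (hK : ∀ x₀ y₀ : ℂ, ev H x₀ y₀ = 0 → (Transcendental ℤ x₀ ∨ Transcendental ℤ y₀) →
      ∀ G : MvPolynomial (Fin 2) ℤ, ev G x₀ y₀ = 0 → H ∣ G) {u w : ℤ} (huw : u ≠ 0 ∨ w ≠ 0) :
    ∃ M : ℕ, 0 < M ∧ ∀ p : ℕ, p.Prime → ¬ p ∣ M → ∀ v : AbsoluteValue ℂ ℝ, IsNonarchimedean v →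
      v (p : ℂ) < 1 → NoCosetDir v H u w := by
  classical
  set E := H.support.image (fun m => u * (m 0 : ℤ) + w * m 1) with hE
  set I : Ideal (MvPolynomial (Fin 2) ℚ) := Ideal.span (Set.range fun e : E => clsQ H u w e.1) with hI
  have halg : Algebra.IsAlgebraic ℚ (AlgebraicClosure ℚ) := by
    have h := AlgebraicClosure.isAlgebraic ℚ
    convert h
    · rfl
    · exact Subsingleton.elim _ _
  let φ : AlgebraicClosure ℚ →ₐ[ℚ] ℂ := IsAlgClosed.lift
  have hmem : (X 0 * X 1 : MvPolynomial (Fin 2) ℚ) ∈ I.radical := by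
    rw [← vanishingIdeal_zeroLocus_eq_radical (K := AlgebraicClosure ℚ) I, mem_vanishingIdeal_iff]
    intro z hz
    rw [mem_zeroLocus_iff] at hz
    rw [map_mul, aeval_X, aeval_X]
    by_contra hne
    have h0 : z 0 ≠ 0 := fun h => hne (by rw [h, zero_mul])
    have h1 : z 1 ≠ 0 := fun h => hne (by rw [h, mul_zero])
    refine no_common_zero hxy hT hK huw (α := φ (z 0)) (β := φ (z 1))
      (by rwa [ne_eq, map_eq_zero]) (by rwa [ne_eq, map_eq_zero]) (isAlgebraic_int_of φ _)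
      (isAlgebraic_int_of φ _) fun e => ?_
    by_cases he : e ∈ E
    · have h2 := hz (clsQ H u w e) (Ideal.subset_span ⟨⟨e, he⟩, rfl⟩)
      have h3 : z = ![z 0, z 1] := by
        funext i
        fin_cases i <;> rfl
      rw [h3, aeval_clsQ] at h2
      have h4 := congrArg φ h2
      rw [map_sum, map_zero] at h4
      rw [cls, ← h4]
      refine Finset.sum_congr rfl fun m _ => ?_
      rw [map_mul, map_mul, map_pow, map_pow, map_intCast]
    · exact cls_zero_of_notMem H u w he _ _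
  obtain ⟨k, hk⟩ := hmem
  rw [hI, Ideal.mem_span_range_iff_exists_fun] at hk
  obtain ⟨A, hA⟩ := hk
  choose M hM0 hM using fun e => exists_den (A e)
  refine ⟨∏ e, M e, Finset.prod_pos fun e _ => hM0 e, fun p hp hpM v hv hvp α β hα hβ => ?_⟩
  by_contra hcon
  push Not at hcon
  have h1 := congrArg (aeval ![α, β] : MvPolynomial (Fin 2) ℚ →ₐ[ℚ] ℂ) hA
  rw [map_pow, map_mul, aeval_X, aeval_X, map_sum] at h1
  simp only [Matrix.cons_val_zero, Matrix.cons_val_one, map_mul, aeval_clsQ] at h1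
  have h2 : v ((α * β) ^ k) = 1 := by rw [map_pow, map_mul, hα, hβ, one_mul, one_pow]
  rw [← h1] at h2
  have h3 : v (∑ e : E, aeval ![α, β] (A e) *
      ∑ m ∈ H.support with u * m 0 + w * m 1 = e.1, ((H.coeff m : ℤ) : ℂ) * α ^ m 0 * β ^ m 1) < 1 := by
    refine v_sum_lt_one hv _ _ fun e _ => ?_
    rw [map_mul]
    have h4 := hM e p hp (fun h => hpM (h.trans (Finset.dvd_prod_of_mem _ (Finset.mem_univ e)))) v hv hvp α β
      hα hβ
    have h5 : v (cls H u w α β e.1) < 1 := lt_of_le_of_ne (cls_le hv H u w hα hβ _) (hcon _)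
    exact lt_of_le_of_lt (mul_le_of_le_one_left (AbsoluteValue.nonneg v _) h4) h5
  rw [h2] at h3
  exact lt_irrefl _ h3

/-- the classes depend only on the direction -/
lemma dir_of_prop {H : MvPolynomial (Fin 2) ℤ} {a b u w : ℤ} (hab : a ≠ 0 ∨ b ≠ 0) (huw : u ≠ 0 ∨ w ≠ 0)
    (h : a * w = b * u) (hH : NoCosetDir v H a b) : NoCosetDir v H u w := by
  intro α β hα hβ
  obtain ⟨e', he'⟩ := hH α β hα hβ
  have hne : (H.support.filter fun m : Fin 2 →₀ ℕ => a * m 0 + b * m 1 = e').Nonempty := by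
    rw [Finset.nonempty_iff_ne_empty]
    intro h0
    rw [cls, h0, Finset.sum_empty, map_zero] at he'
    exact zero_ne_one he'
  obtain ⟨m₁, hm₁⟩ := hne
  have hm₁' := (Finset.mem_filter.1 hm₁).2
  refine ⟨u * m₁ 0 + w * m₁ 1, ?_⟩
  rw [← he', cls, cls]
  congr 2
  refine Finset.filter_congr fun m _ => ?_
  rw [← hm₁']
  have key : ∀ {a b u w i j : ℤ}, (a ≠ 0 ∨ b ≠ 0) → a * w = b * u → a * i + b * j = 0 → u * i + w * j = 0 := by
    intro a b u w i j hab h h1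
    rcases hab with ha | hb
    · have h2 : a * (u * i + w * j) = 0 := by linear_combination u * h1 + j * h
      exact (mul_eq_zero.1 h2).resolve_left ha
    · have h2 : b * (u * i + w * j) = 0 := by linear_combination w * h1 - i * h
      exact (mul_eq_zero.1 h2).resolve_left hb
  constructor
  · intro h1
    have h2 := key (a := u) (b := w) (u := a) (w := b) (i := m 0 - m₁ 0) (j := m 1 - m₁ 1) huw (by linarith)
      (by linear_combination h1)
    linear_combination h2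
  · intro h1
    have h2 := key (a := a) (b := b) (u := u) (w := w) (i := m 0 - m₁ 0) (j := m 1 - m₁ 1) hab h
      (by linear_combination h1)
    linear_combination h2

/-- **no coset in any direction** -/
theorem noCoset_of_data {n : ℕ} (a b : Fin n → ℤ) {H : MvPolynomial (Fin 2) ℤ} (hH0 : H ≠ 0) {M : ℕ}
    (hM : 0 < M) {x y : ℂ} (hxy : ev H x y = 0)
    (hT : ∀ s t : ℤ, (s ≠ 0 ∨ t ≠ 0) → Transcendental ℤ (x ^ s * y ^ t))
    (hK : ∀ x₀ y₀ : ℂ, ev H x₀ y₀ = 0 → (Transcendental ℤ x₀ ∨ Transcendental ℤ y₀) →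
      ∀ G : MvPolynomial (Fin 2) ℤ, ev G x₀ y₀ = 0 → H ∣ G)
    (hE : ∀ p : ℕ, p.Prime → ¬ p ∣ M → ∀ v : AbsoluteValue ℂ ℝ, IsNonarchimedean v → v (p : ℂ) < 1 →
      ∀ x₀ y₀ : ℂ, ev H x₀ y₀ = 0 → (Transcendental ℤ x₀ ∨ Transcendental ℤ y₀) →
        ∃ z : Fin n → ℂ, (∀ i, z i ≠ 0) ∧ ∏ i, z i ^ a i = x₀ ∧ ∏ i, z i ^ b i = y₀ ∧
          ∀ i j, i ≠ j → v (z i) = 1 ∨ v (z j) = 1) :
    ∃ M' : ℕ, 0 < M' ∧ ∀ p : ℕ, p.Prime → ¬ p ∣ M' → ∀ v : AbsoluteValue ℂ ℝ, IsNonarchimedean v →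
      v (p : ℂ) < 1 → Pool.Agent.Helper20.DL.NoCoset v H := by
  classical
  have hdir : ∀ i : Fin n, ∃ M' : ℕ, 0 < M' ∧ ((a i ≠ 0 ∨ b i ≠ 0) → ∀ p : ℕ, p.Prime → ¬ p ∣ M' →
      ∀ v : AbsoluteValue ℂ ℝ, IsNonarchimedean v → v (p : ℂ) < 1 → NoCosetDir v H (a i) (b i)) := by
    intro i
    by_cases h : a i ≠ 0 ∨ b i ≠ 0
    · obtain ⟨M', h1, h2⟩ := dir_generic hxy hT hK h
      exact ⟨M', h1, fun _ => h2⟩
    · exact ⟨1, one_pos, fun h' => absurd h' h⟩
  choose N hN0 hN using hdir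
  obtain ⟨m₀, hm₀⟩ := MvPolynomial.ne_zero_iff.1 hH0
  refine ⟨M * (H.coeff m₀).natAbs * ∏ i, N i, Nat.mul_pos (Nat.mul_pos hM (Int.natAbs_pos.2 hm₀))
    (Finset.prod_pos fun i _ => hN0 i), fun p hp hpM v hv hvp => ?_⟩
  have hp1 : ¬ p ∣ M := fun h => hpM ((h.mul_right _).mul_right _)
  have hp2 : ¬ (p : ℤ) ∣ H.coeff m₀ := fun h => hpM (((Int.natCast_dvd.1 h).mul_left _).mul_right _)
  have hp3 : ∀ i, ¬ p ∣ N i := fun i h =>
    hpM ((h.trans (Finset.dvd_prod_of_mem _ (Finset.mem_univ i))).mul_left _)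
  have main : ∀ u w : ℤ, (u ≠ 0 ∨ w ≠ 0) → NoCosetDir v H u w := by
    intro u w huw
    by_contra hcon
    obtain ⟨x₀, y₀, t, ht0, ht1, htr, hev, hx, hy⟩ := exists_point hv hp hvp ⟨m₀, hp2⟩ huw hcon
    obtain ⟨z, hz0, hza, hzb, hz⟩ := hE p hp hp1 v hv hvp x₀ y₀ hev htr
    -- one coordinate is not a unit
    obtain ⟨i, hi⟩ : ∃ i, v (z i) ≠ 1 := by
      by_contra h
      push Not at h
      have h1 : ∀ c : Fin n → ℤ, v (∏ i, z i ^ c i) = 1 := by
        intro c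
        rw [map_prod]
        exact Finset.prod_eq_one fun i _ => by rw [map_zpow₀, h i, one_zpow]
      rcases huw with hu | hw
      · have h2 := h1 a
        rw [hza, hx] at h2
        have h3 := zpow_right_injective₀ ht0 ht1.ne (h2.trans (zpow_zero t).symm)
        exact hu h3
      · have h2 := h1 b
        rw [hzb, hy] at h2
        have h3 := zpow_right_injective₀ ht0 ht1.ne (h2.trans (zpow_zero t).symm)
        exact hw h3
    have hval : ∀ c : Fin n → ℤ, v (∏ i, z i ^ c i) = v (z i) ^ c i := by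
      intro c
      rw [map_prod, Finset.prod_eq_single i, map_zpow₀]
      · intro j _ hj
        rw [map_zpow₀, (hz j i hj).resolve_right hi, one_zpow]
      · intro h; exact absurd (Finset.mem_univ i) h
    have e1 : v (z i) ^ a i = t ^ u := by rw [← hval a, hza, hx]
    have e2 : v (z i) ^ b i = t ^ w := by rw [← hval b, hzb, hy]
    have hzi : 0 < v (z i) := (AbsoluteValue.pos_iff v).2 (hz0 i)
    have e3 : v (z i) ^ (a i * w) = v (z i) ^ (b i * u) := by
      rw [zpow_mul, zpow_mul, e1, e2, ← zpow_mul, ← zpow_mul, mul_comm u w]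
    have e4 : a i * w = b i * u := zpow_right_injective₀ hzi hi e3
    have hab : a i ≠ 0 ∨ b i ≠ 0 := by
      by_contra h
      push Not at h
      rw [h.1, zpow_zero] at e1
      rw [h.2, zpow_zero] at e2
      rcases huw with hu | hw
      · exact hu (zpow_right_injective₀ ht0 ht1.ne (e1.symm.trans (zpow_zero t).symm))
      · exact hw (zpow_right_injective₀ ht0 ht1.ne (e2.symm.trans (zpow_zero t).symm))
    exact hcon (dir_of_prop hab huw e4 (hN i hab p hp (hp3 i) v hv hvp))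
  intro α β hα hβ u w huw
  have h1 : u ≠ 0 ∨ w ≠ 0 := by
    by_contra h
    push Not at h
    exact huw h
  exact main u w h1 α β hα hβ

end Pool.Agent.Helper69.DL
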