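import Pool.Agent.Helper81.DL.Frob
import Pool.Agent.Helper69.DL.First
import Pool.Agent.Helper69.DL.Sep

/-! # The Euler derivation for the equations of the first order -/

open MvPolynomial

namespace Pool.Agent.Helper69.DL
open Pool.Agent.Helper81.DL

variable {p : ℕ} [hp : Fact p.Prime] {F : Type} [Field F] [Algebra (ZMod p) F] [CharP F p]

open Pool.Agent.Helper20.DL in
/-- the Euler derivation, if `δ (B (x, y)) = 0` (after helper81) -/
theorem exists_euler2 {x y : F} (hx : x ≠ 0) (hy : y ≠ 0) {H B : MvPolynomial (Fin 2) ℤ}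
    (hB : H ^ p = expand p H + C (p : ℤ) * B) (hH0 : aeval ![x, y] H = 0)
    {A₁ B₁ A₂ B₂ : MvPolynomial (Fin 2) ℤ} {P₁ P₂ : Polynomial ℤ}
    (hP₁ : P₁.map (Int.castRingHom (ZMod p)) ≠ 0) (hP₂ : P₂.map (Int.castRingHom (ZMod p)) ≠ 0)
    (h₁ : A₁ * H + B₁ * pderiv 0 H = Polynomial.aeval (X 1) P₁)
    (h₂ : A₂ * H + B₂ * pderiv 1 H = Polynomial.aeval (X 0) P₂)
    (δ : Derivation (ZMod p) F F) (hδ : ¬ (δ x = 0 ∧ δ y = 0))
    (hB0 : δ (aeval ![x, y] B) = 0) :
    ∃ u w : ℤ, ¬ (u = 0 ∧ w = 0) ∧ |u| ≤ Nat.sqrt p ∧ |w| ≤ Nat.sqrt p ∧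
      ∃ δ' : Derivation (ZMod p) F F, δ' x = u * x ∧ δ' y = w * y := by
  have hp1 : p - 1 ≠ 0 := by have := hp.out.two_le; omega
  set a := aeval ![x, y] (pderiv 0 H) with ha
  set b := aeval ![x, y] (pderiv 1 H) with hb
  have e1 : a * δ x + b * δ y = 0 := by
    have := deriv_aeval δ x y H
    rw [hH0, map_zero] at this
    exact this.symm
  have hψ : ∀ i : Fin 2, aeval ![x, y] (pderiv i B) =
      -((![x, y] i) ^ (p - 1) * (aeval ![x, y] (pderiv i H)) ^ p) := by
    intro i
    rw [deriv_psi hp.out hB, map_sub, map_mul, map_mul, map_pow, map_pow, hH0, zero_pow hp1, zero_mul,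
      aeval_expand_eq, aeval_X, zero_sub]
  have e2 : x ^ (p - 1) * a ^ p * δ x + y ^ (p - 1) * b ^ p * δ y = 0 := by
    have := deriv_aeval δ x y B
    rw [hB0, hψ, hψ] at this
    simp only [Matrix.cons_val_zero, Matrix.cons_val_one] at this
    linear_combination this
  -- the two degenerate cases
  have hay : a = 0 → δ y = 0 := by
    intro h0
    have h3 := congrArg (aeval ![x, y]) h₁
    rw [map_add, map_mul, map_mul, hH0, mul_zero, ← ha, h0, mul_zero, add_zero] at h3
    have h4 : aeval ![x, y] (Polynomial.aeval (X 1 : MvPolynomial (Fin 2) ℤ) P₁) =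
        Polynomial.aeval y P₁ := by
      rw [← Polynomial.aeval_algHom_apply, aeval_X]; rfl
    rw [h4] at h3
    obtain ⟨n, hn, h5⟩ := exists_pow_of_root hy hP₁ h3.symm
    exact deriv_root δ hn h5
  have hbx : b = 0 → δ x = 0 := by
    intro h0
    have h3 := congrArg (aeval ![x, y]) h₂
    rw [map_add, map_mul, map_mul, hH0, mul_zero, ← hb, h0, mul_zero, add_zero] at h3
    have h4 : aeval ![x, y] (Polynomial.aeval (X 0 : MvPolynomial (Fin 2) ℤ) P₂) =
        Polynomial.aeval x P₂ := by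
      rw [← Polynomial.aeval_algHom_apply, aeval_X]; rfl
    rw [h4] at h3
    obtain ⟨n, hn, h5⟩ := exists_pow_of_root hx hP₂ h3.symm
    exact deriv_root δ hn h5
  by_cases ha0 : a = 0
  · have hy0 := hay ha0
    have hx0 : δ x ≠ 0 := fun h => hδ ⟨h, hy0⟩
    refine ⟨1, 0, by simp, by simpa using Nat.succ_le_of_lt (Nat.sqrt_pos.2 hp.out.pos), by simp,
      (x / δ x) • δ, ?_, ?_⟩
    · rw [Derivation.smul_apply, smul_eq_mul]
      push_cast
      field_simp
    · rw [Derivation.smul_apply, hy0, smul_zero]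
      push_cast
      ring
  by_cases hb0 : b = 0
  · have hx0 := hbx hb0
    have hy0 : δ y ≠ 0 := fun h => hδ ⟨hx0, h⟩
    refine ⟨0, 1, by simp, by simp, by simpa using Nat.succ_le_of_lt (Nat.sqrt_pos.2 hp.out.pos),
      (y / δ y) • δ, ?_, ?_⟩
    · rw [Derivation.smul_apply, hx0, smul_zero]
      push_cast
      ring
    · rw [Derivation.smul_apply, smul_eq_mul]
      push_cast
      field_simp
  have hx0 : δ x ≠ 0 := by
    intro h
    rw [h, mul_zero, zero_add, mul_eq_zero] at e1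
    exact hδ ⟨h, e1.resolve_left hb0⟩
  -- the ratio lies in the prime field
  have hpow : ∀ z : F, z ^ p = z ^ (p - 1) * z := by
    intro z
    rw [← pow_succ]
    congr 1
    have := hp.out.two_le
    omega
  have e3 : (x * a) ^ (p - 1) = (y * b) ^ (p - 1) := by
    rw [hpow a, hpow b] at e2
    have h3 : a * δ x * ((x * a) ^ (p - 1) - (y * b) ^ (p - 1)) = 0 := by
      rw [mul_pow, mul_pow]
      linear_combination e2 - (y ^ (p - 1) * b ^ (p - 1)) * e1
    have h4 := (mul_eq_zero.1 h3).resolve_left (mul_ne_zero ha0 hx0)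
    exact sub_eq_zero.1 h4
  set c := x * a / (y * b) with hc
  have hc1 : c ^ p = c := by
    rw [hpow, hc, div_pow, e3, div_self (pow_ne_zero _ (mul_ne_zero hy hb0)), one_mul]
  have hc2 : ∃ n : ℤ, c = n := by
    have h3 : c ∈ (⊥ : Subfield F) := (Subfield.mem_bot_iff_pow_eq_self F p).2 hc1
    rw [Subfield.bot_eq_of_zMod_algebra p] at h3
    obtain ⟨z, hz⟩ := h3
    obtain ⟨n, rfl⟩ := ZMod.intCast_surjective z
    exact ⟨n, by rw [← hz]; simp⟩
  obtain ⟨n, hn⟩ := hc2
  obtain ⟨u, w, h0, hu, hw, hd⟩ := dirichlet hp.out 1 (-n)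
  refine ⟨u, w, h0, hu, hw, (u * (x / δ x)) • δ, ?_, ?_⟩
  · rw [Derivation.smul_apply, smul_eq_mul]
    field_simp
  · rw [Derivation.smul_apply, smul_eq_mul]
    have h3 : (u : F) * (-n) = w := by
      have h4 : ((u * (-n) - w * 1 : ℤ) : F) = 0 := by
        obtain ⟨k, hk⟩ := hd
        rw [hk]
        push_cast
        rw [CharP.cast_eq_zero F p, zero_mul]
      push_cast at h4
      linear_combination h4
    have h5 : δ y = -(a / b) * δ x := by
      field_simp
      linear_combination e1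
    have h6 : x * a = c * (y * b) := by
      rw [hc]
      field_simp
    rw [h5, ← h3, ← hn]
    have h7 : (u : F) * (x / δ x) * (-(a / b) * δ x) = -(u * ((x * a) / b)) := by
      field_simp
    rw [h7, h6]
    field_simp

end Pool.Agent.Helper69.DL
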