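import Pool.Agent.Helper69.DL.Rel2
import Pool.Agent.Helper22.DL.AffAB

/-! # `TorsionRel2` from the finiteness for roots of unity of order prime to `p` -/

namespace Pool.Agent.Helper69.DL
open Pool.Agent.Helper22.DL

theorem torsionRel2_of (h : ∀ (v : AbsoluteValue ℂ ℝ) (_ : IsNonarchimedean v) (p : ℕ) (_ : p.Prime)
    (_ : v (p : ℂ) < 1), FinitePairs2 v p) : TorsionRel2 := by
  intro v hv p hp hvp H hH G hG μ₁ μ₂ hμ₁ hμ₂ c hc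
  obtain ⟨B, hB⟩ := torsion_rel2 hv hp hvp (h v hv p hp hvp) hH hG μ₁ μ₂ hμ₁ hμ₂ c hc
  exact ⟨B, fun x y u ζ₁ ζ₂ g₁ g₂ h1 h2 h3 h4 hu => hB x y u ζ₁ ζ₂ g₁ g₂ h1 h2 h3 h4 fun i => (hu i).le⟩

end Pool.Agent.Helper69.DL
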