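import Pool.Agent.Helper20.ZD.Roots
import Pool.Agent.Helper20.ZD.Splits

/-! # Values of polynomials at roots of unity of order prime to `p` -/

open MvPolynomial

namespace Pool.Agent.Helper69.DL
open Pool.Agent.Helper20.ZD

variable {σ : Type*} {v : AbsoluteValue ℂ ℝ}

lemma expand_pow_zmod {p : ℕ} [Fact p.Prime] (f : ℕ) (g : MvPolynomial σ (ZMod p)) :
    expand (p ^ f) g = g ^ p ^ f := by
  induction f with
  | zero => simp
  | succ f ih => rw [pow_succ, expand_mul, expand_zmod, map_pow, ih, pow_mul]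

/-- `H ^ q - H(X ^ q) = p B` -/
lemma exists_frob {p : ℕ} (hp : p.Prime) (f : ℕ) (H : MvPolynomial σ ℤ) :
    ∃ B : MvPolynomial σ ℤ, H ^ p ^ f - expand (p ^ f) H = C (p : ℤ) * B := by
  have := Fact.mk hp
  have h1 : C (p : ℤ) ∣ H ^ p ^ f - expand (p ^ f) H := by
    rw [C_dvd_iff_zmod, map_sub, map_pow, map_expand, expand_pow_zmod, sub_self]
  exact h1

/-- values of integral polynomials at integral points -/
lemma v_aeval_le (hv : IsNonarchimedean v) (h : MvPolynomial σ ℤ) {η : σ → ℂ} (hη : ∀ i, v (η i) ≤ 1) :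
    v (aeval η h) ≤ 1 := by
  induction h using MvPolynomial.induction_on with
  | C a => simpa using hv.apply_intCast_le_one
  | add f g hf hg => rw [map_add]; exact (hv _ _).trans (max_le hf hg)
  | mul_X f i hf =>
    rw [map_mul, map_mul, aeval_X]
    exact mul_le_one₀ hf (AbsoluteValue.nonneg v _) (hη i)

lemma v_sub_one_eq (hv : IsNonarchimedean v) {c : ℂ} (hc : v c < 1) : v (c - 1) = 1 := by
  rw [← map_neg_eq_map, neg_sub, sub_eq_add_neg]
  have h1 : v (-c) < v 1 := by rw [map_neg_eq_map, map_one]; exact hc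
  rw [hv.add_eq_left_of_lt h1, map_one]

/-- the exponent -/
lemma pow_q {p N : ℕ} (hp : p.Prime) (hpN : Nat.Coprime p N) {η : ℂ} (hη : η ^ N = 1) :
    η ^ p ^ Nat.totient N = η := by
  have h1 := Nat.ModEq.pow_totient hpN
  have h2 : 1 ≤ p ^ Nat.totient N := Nat.one_le_pow _ _ hp.pos
  obtain ⟨k, hk⟩ := (Nat.modEq_iff_dvd' h2).1 h1.symm
  have h3 : p ^ Nat.totient N = N * k + 1 := by omega
  rw [h3, pow_add, pow_mul, hη, one_pow, one_mul, pow_one]

lemma coprime_pos {p N : ℕ} (hp : p.Prime) (hpN : Nat.Coprime p N) : 0 < N := by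
  rcases Nat.eq_zero_or_pos N with rfl | hN
  · rw [Nat.coprime_zero_right] at hpN
    exact absurd hpN hp.one_lt.ne'
  · exact hN

/-- the identity at the point `η` -/
lemma frob_eval {p N : ℕ} (hp : p.Prime) (hpN : Nat.Coprime p N) {H B : MvPolynomial σ ℤ}
    (hB : H ^ p ^ Nat.totient N - expand (p ^ Nat.totient N) H = C (p : ℤ) * B) {η : σ → ℂ}
    (hη : ∀ i, η i ^ N = 1) :
    aeval η H * (aeval η H ^ (p ^ Nat.totient N - 1) - 1) = (p : ℂ) * aeval η B := by
  have h1 := congrArg (aeval η : MvPolynomial σ ℤ →ₐ[ℤ] ℂ) hB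
  rw [map_sub, map_pow, map_mul, aeval_expand] at h1
  have h2 : (η ^ p ^ Nat.totient N : σ → ℂ) = η := funext fun i => pow_q hp hpN (hη i)
  have h3 : 1 ≤ p ^ Nat.totient N := Nat.one_le_pow _ _ hp.pos
  have h4 : aeval η H ^ p ^ Nat.totient N = aeval η H * aeval η H ^ (p ^ Nat.totient N - 1) := by
    rw [← pow_succ']
    congr 1
    omega
  rw [h2, h4, algHom_C] at h1
  have h5 : (algebraMap ℤ ℂ) (p : ℤ) = (p : ℂ) := by simp
  rw [h5] at h1
  rw [← h1]
  ring

/-- `v(H(η)) = v(p) v(B(η))` if `v(H(η)) < 1` -/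
lemma frob_val (hv : IsNonarchimedean v) {p N : ℕ} (hp : p.Prime) (hpN : Nat.Coprime p N)
    {H B : MvPolynomial σ ℤ}
    (hB : H ^ p ^ Nat.totient N - expand (p ^ Nat.totient N) H = C (p : ℤ) * B) {η : σ → ℂ}
    (hη : ∀ i, η i ^ N = 1) (hlt : v (aeval η H) < 1) : v (aeval η H) = v (p : ℂ) * v (aeval η B) := by
  have h1 := congrArg v (frob_eval hp hpN hB hη)
  rw [map_mul, map_mul] at h1
  have hN := coprime_pos hp hpN
  have h2 : 2 ≤ p ^ Nat.totient N :=
    hp.two_le.trans (Nat.le_self_pow (Nat.totient_pos.2 hN).ne' p)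
  have h3 : v (aeval η H ^ (p ^ Nat.totient N - 1)) < 1 := by
    rw [map_pow]
    exact pow_lt_one₀ (AbsoluteValue.nonneg v _) hlt (by omega)
  rw [v_sub_one_eq hv h3, mul_one] at h1
  exact h1

lemma root_le (hv : IsNonarchimedean v) {p N : ℕ} (hp : p.Prime) (hpN : Nat.Coprime p N) {η : σ → ℂ}
    (hη : ∀ i, η i ^ N = 1) (i : σ) : v (η i) ≤ 1 := (val_root (coprime_pos hp hpN) (hη i)).le

/-- **unramified values** -/
theorem unramified (hv : IsNonarchimedean v) {p N : ℕ} (hp : p.Prime) (hpN : Nat.Coprime p N)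
    (H : MvPolynomial σ ℤ) {η : σ → ℂ} (hη : ∀ i, η i ^ N = 1) (hlt : v (aeval η H) < 1) :
    v (aeval η H) ≤ v (p : ℂ) := by
  obtain ⟨B, hB⟩ := exists_frob hp (Nat.totient N) H
  rw [frob_val hv hp hpN hB hη hlt]
  exact mul_le_of_le_one_right (AbsoluteValue.nonneg v _) (v_aeval_le hv B (root_le hv hp hpN hη))

/-- `v(A(η)) < 1` implies `v(A(η ^ p)) < 1` -/
lemma frob_lt_one (hv : IsNonarchimedean v) {p : ℕ} (hp : p.Prime) (hvp : v (p : ℂ) < 1)
    (A : MvPolynomial σ ℤ) {η : σ → ℂ} (hη : ∀ i, v (η i) ≤ 1) (hlt : v (aeval η A) < 1) :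
    v (aeval (η ^ p) A) < 1 := by
  obtain ⟨E, hE⟩ := exists_frob hp 1 A
  rw [pow_one] at hE
  have h1 := congrArg (aeval η : MvPolynomial σ ℤ →ₐ[ℤ] ℂ) hE
  rw [map_sub, map_pow, map_mul, aeval_expand, algHom_C] at h1
  have h2 : aeval (η ^ p) A = aeval η A ^ p - (algebraMap ℤ ℂ) (p : ℤ) * aeval η E := by
    rw [← h1]; ring
  have h5 : (algebraMap ℤ ℂ) (p : ℤ) = (p : ℂ) := by simp
  rw [h2, h5, sub_eq_add_neg]
  refine lt_of_le_of_lt (hv _ _) (max_lt ?_ ?_)
  · rw [map_pow]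
    exact pow_lt_one₀ (AbsoluteValue.nonneg v _) hlt hp.ne_zero
  · rw [map_neg_eq_map, map_mul]
    exact lt_of_le_of_lt (mul_le_of_le_one_right (AbsoluteValue.nonneg v _) (v_aeval_le hv E hη)) hvp

/-- `v(H(η)) < v(p)` implies `v(H(η ^ p)) < v(p)` -/
theorem frob_small (hv : IsNonarchimedean v) {p N : ℕ} (hp : p.Prime) (hvp : v (p : ℂ) < 1)
    (hpN : Nat.Coprime p N) (H : MvPolynomial σ ℤ) {η : σ → ℂ} (hη : ∀ i, η i ^ N = 1)
    (hlt : v (aeval η H) < v (p : ℂ)) : v (aeval (η ^ p) H) < v (p : ℂ) := by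
  obtain ⟨B, hB⟩ := exists_frob hp (Nat.totient N) H
  have hηp : ∀ i, (η ^ p) i ^ N = 1 := fun i => by
    rw [Pi.pow_apply, ← pow_mul, mul_comm, pow_mul, hη i, one_pow]
  have hle := root_le hv hp hpN hη
  have h0 : 0 < v (p : ℂ) := (AbsoluteValue.pos_iff v).2 (by exact_mod_cast hp.ne_zero)
  have h1 := frob_val hv hp hpN hB hη (hlt.trans hvp)
  have h2 : v (aeval η B) < 1 := by
    by_contra hcon
    push Not at hcon
    rw [h1] at hlt
    nlinarith
  have h3 := frob_lt_one hv hp hvp B hle h2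
  have h4 := frob_val hv hp hpN hB hηp (frob_lt_one hv hp hvp H hle (hlt.trans hvp))
  rw [h4]
  nlinarith

/-- **the second equation modulo `p`** -/
theorem psi_small (hv : IsNonarchimedean v) {p N : ℕ} (hp : p.Prime) (hvp : v (p : ℂ) < 1)
    (hpN : Nat.Coprime p N) {H B : MvPolynomial σ ℤ} (hB : H ^ p - expand p H = C (p : ℤ) * B) {η : σ → ℂ}
    (hη : ∀ i, η i ^ N = 1) (hlt : v (aeval η H) < v (p : ℂ)) : v (aeval η B) < 1 := by
  have h0 : 0 < v (p : ℂ) := (AbsoluteValue.pos_iff v).2 (by exact_mod_cast hp.ne_zero)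
  have h1 := congrArg (aeval η : MvPolynomial σ ℤ →ₐ[ℤ] ℂ) hB
  rw [map_sub, map_pow, map_mul, aeval_expand, algHom_C] at h1
  have h5 : (algebraMap ℤ ℂ) (p : ℤ) = (p : ℂ) := by simp
  rw [h5] at h1
  have h2 := congrArg v h1
  rw [map_mul] at h2
  have h3 : v (aeval η H ^ p - aeval (η ^ p) H) < v (p : ℂ) := by
    rw [sub_eq_add_neg]
    refine lt_of_le_of_lt (hv _ _) (max_lt ?_ ?_)
    · rw [map_pow]
      refine lt_of_le_of_lt ?_ hlt
      exact pow_le_of_le_one (AbsoluteValue.nonneg v _) (hlt.trans hvp).le hp.ne_zero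
    · rw [map_neg_eq_map]
      exact frob_small hv hp hvp hpN H hη hlt
  rw [h2] at h3
  by_contra hcon
  push Not at hcon
  nlinarith

end Pool.Agent.Helper69.DL
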