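import Pool.Agent.Helper69.DL.TorsionRel

/-! # Torsion points near the curve to the first order -/

open MvPolynomial

namespace Pool.Agent.Helper69.DL
open Pool.Agent.Helper20.ZD Pool.Agent.Helper20.DL Pool.Agent.Helper22.DL

variable {v : AbsoluteValue ℂ ℝ}

/-- the pairs of roots of unity of order prime to `p` which are near a point `(x, y)` of the curve `H = 0`
up to terms of the first order in `p`, which depend on numbers `u_i` algebraic over `x` resp. `y` -/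
def pairs2 (v : AbsoluteValue ℂ ℝ) (p : ℕ) (H : MvPolynomial (Fin 2) ℤ) (G : Fin 4 → MvPolynomial (Fin 2) ℤ)
    (c : Fin 4 → ℤ) : Set (ℂ × ℂ) :=
  {z : ℂ × ℂ | (∃ N : ℕ, N.Coprime p ∧ z.1 ^ N = 1 ∧ z.2 ^ N = 1) ∧ ∃ (x y : ℂ) (u : Fin 4 → ℂ),
    (∀ i, v (u i) ≤ 1) ∧ ev H x y = 0 ∧ ev (G 0) (u 0) x = 0 ∧ ev (G 1) (u 1) x = 0 ∧ ev (G 2) (u 2) y = 0 ∧
    ev (G 3) (u 3) y = 0 ∧ v (x - z.1 * (1 + p * (c 0 * u 0 + c 1 * u 1))) < v (p : ℂ) ∧
    v (y - z.2 * (1 + p * (c 2 * u 2 + c 3 * u 3))) < v (p : ℂ)}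

lemma v_le_of_near (hv : IsNonarchimedean v) {x y : ℂ} {r : ℝ} (hy : v y ≤ r) (h : v (x - y) ≤ r) :
    v x ≤ r := by
  rw [show x = (x - y) + y by ring]
  exact (hv _ _).trans (max_le h hy)

lemma v_lt_of_near (hv : IsNonarchimedean v) {x y : ℂ} {r : ℝ} (hy : v y < r) (h : v (x - y) < r) :
    v x < r := by
  rw [show x = (x - y) + y by ring]
  exact (hv _ _).trans_lt (max_lt h hy)

lemma v_pow_sub_lt (hv : IsNonarchimedean v) {x y : ℂ} (hx : v x ≤ 1) (hy : v y ≤ 1) (h : v (x - y) < 1) (k : ℕ) :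
    v (x ^ k - y ^ k) < 1 := lt_of_le_of_lt (v_pow_sub_pow_le hv hx hy k) h

/-- **the Frobenius lemma**: `B(η) = -(H(η) / p) ^ p` modulo the maximal ideal, if `v(H(η)) ≤ v(p)` -/
theorem frob_first_order {σ : Type*} (hv : IsNonarchimedean v) {p N : ℕ} (hp : p.Prime) (hp2 : p ≠ 2)
    (hvp : v (p : ℂ) < 1) (hpN : Nat.Coprime p N) {H B : MvPolynomial σ ℤ}
    (hB : H ^ p - expand p H = C (p : ℤ) * B) {η : σ → ℂ} (hη : ∀ i, η i ^ N = 1)
    (hle : v (aeval η H) ≤ v (p : ℂ)) : v (aeval η B + (aeval η H / p) ^ p) < 1 := by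
  have hp0 : (p : ℂ) ≠ 0 := by exact_mod_cast hp.ne_zero
  have h0 : 0 < v (p : ℂ) := (AbsoluteValue.pos_iff v).2 hp0
  have hη1 := root_le hv hp hpN hη
  have hηp : ∀ i, (η ^ p) i ^ N = 1 := fun i => by
    rw [Pi.pow_apply, ← pow_mul, mul_comm, pow_mul, hη i, one_pow]
  obtain ⟨Q, hQ⟩ := exists_frob hp (Nat.totient N) H
  set q := p ^ Nat.totient N with hq
  have hN := coprime_pos hp hpN
  have hq2 : 2 ≤ q := hp.two_le.trans (Nat.le_self_pow (Nat.totient_pos.2 hN).ne' p)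
  have hcast : (algebraMap ℤ ℂ) (p : ℤ) = (p : ℂ) := by simp
  -- the value divided by `p`
  have key : ∀ ξ : σ → ℂ, (∀ i, ξ i ^ N = 1) → v (aeval ξ H) < 1 → v (aeval ξ H) ≤ v (p : ℂ) ∧
      v (aeval ξ H / p + aeval ξ Q) < 1 := by
    intro ξ hξ hlt
    have h1 := unramified hv hp hpN H hξ hlt
    refine ⟨h1, ?_⟩
    have h2 := frob_eval hp hpN hQ hξ
    have h3 : aeval ξ H / p + aeval ξ Q = aeval ξ H / p * aeval ξ H ^ (q - 1) := by
      have h4 : aeval ξ Q = aeval ξ H * (aeval ξ H ^ (q - 1) - 1) / p := by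
        rw [h2]; field_simp
      rw [h4]
      field_simp
      ring
    rw [h3, map_mul, map_div₀, map_pow]
    have h5 : v (aeval ξ H) / v (p : ℂ) ≤ 1 := (div_le_one h0).2 h1
    have h6 : v (aeval ξ H) ^ (q - 1) < 1 := pow_lt_one₀ (AbsoluteValue.nonneg v _) hlt (by omega)
    exact lt_of_le_of_lt (mul_le_of_le_one_left (pow_nonneg (AbsoluteValue.nonneg v _) _) h5) h6
  have hlt := lt_of_le_of_lt hle hvp
  obtain ⟨-, k1⟩ := key η hη hlt
  obtain ⟨k0, k2⟩ := key (η ^ p) hηp (frob_lt_one hv hp hvp H hη1 hlt)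
  -- `Q(η ^ p) = Q(η) ^ p`
  obtain ⟨E, hE⟩ := exists_frob hp 1 Q
  rw [pow_one] at hE
  have e1 := congrArg (aeval η : MvPolynomial σ ℤ →ₐ[ℤ] ℂ) hE
  rw [map_sub, map_pow, map_mul, aeval_expand, algHom_C, hcast] at e1
  have k3 : v (aeval η Q ^ p - aeval (η ^ p) Q) < 1 := by
    rw [e1, map_mul]
    exact lt_of_le_of_lt (mul_le_of_le_one_right h0.le (v_aeval_le hv E hη1)) hvp
  have hodd : Odd p := hp.odd_of_ne_two hp2
  have hQ1 : v (aeval η Q) ≤ 1 := v_aeval_le hv Q hη1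
  have hc1 : v (aeval η H / p) ≤ 1 := by rw [map_div₀]; exact (div_le_one h0).2 hle
  have k4 : v ((aeval η H / p) ^ p + aeval η Q ^ p) < 1 := by
    have h6 := v_pow_sub_lt hv hc1 (y := -aeval η Q) (by rw [map_neg_eq_map]; exact hQ1)
      (by rw [sub_neg_eq_add]; exact k1) p
    rw [hodd.neg_pow, sub_neg_eq_add] at h6
    exact h6
  -- the value of `B`
  have b1 := congrArg (aeval η : MvPolynomial σ ℤ →ₐ[ℤ] ℂ) hB
  rw [map_sub, map_pow, map_mul, aeval_expand, algHom_C, hcast] at b1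
  have b2 : aeval η B = aeval η H / p * aeval η H ^ (p - 1) - aeval (η ^ p) H / p := by
    have h7 : aeval η H ^ p = aeval η H * aeval η H ^ (p - 1) := by
      rw [← pow_succ']
      congr 1
      have := hp.one_lt
      omega
    rw [h7] at b1
    field_simp
    rw [b1, mul_comm]
  have k5 : v (aeval η H / p * aeval η H ^ (p - 1)) < 1 := by
    rw [map_mul, map_pow]
    have h6 : v (aeval η H) ^ (p - 1) < 1 :=
      pow_lt_one₀ (AbsoluteValue.nonneg v _) hlt (by have := hp.one_lt; omega)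
    exact lt_of_le_of_lt (mul_le_of_le_one_left (pow_nonneg (AbsoluteValue.nonneg v _) _) hc1) h6
  have hsum : aeval η B + (aeval η H / p) ^ p = aeval η H / p * aeval η H ^ (p - 1) +
      (-(aeval (η ^ p) H / p + aeval (η ^ p) Q) + (-(aeval η Q ^ p - aeval (η ^ p) Q) +
        ((aeval η H / p) ^ p + aeval η Q ^ p))) := by
    rw [b2]; ring
  rw [hsum]
  refine (hv _ _).trans_lt (max_lt k5 ((hv _ _).trans_lt (max_lt ?_ ((hv _ _).trans_lt (max_lt ?_ k4)))))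
  · rw [map_neg_eq_map]; exact k2
  · rw [map_neg_eq_map]; exact k3

/-- scaling of the coordinates by integers prime to `p` -/
theorem goodRel_scale (hv : IsNonarchimedean v) {p : ℕ} (hp : p.Prime) (hvp : v (p : ℂ) < 1) {a b : ℤ}
    (ha : ¬ (p : ℤ) ∣ a) (hb : ¬ (p : ℤ) ∣ b) {H : MvPolynomial (Fin 2) ℤ} (h : GoodRel v p H) :
    GoodRel v p (scale a b H) := by
  have ha0 : a ≠ 0 := by rintro rfl; exact ha (dvd_zero _)
  have hb0 : b ≠ 0 := by rintro rfl; exact hb (dvd_zero _)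
  have hpi : Prime (p : ℤ) := Nat.prime_iff_prime_int.1 hp
  have hcoef : ∀ m, ¬ (p : ℤ) ∣ H.coeff m → ¬ (p : ℤ) ∣ (scale a b H).coeff m := by
    intro m hm h1
    rw [scale_coeff] at h1
    rcases hpi.dvd_or_dvd h1 with h2 | h2
    · rcases hpi.dvd_or_dvd h2 with h3 | h3
      · exact hm h3
      · exact ha (hpi.dvd_of_dvd_pow h3)
    · exact hb (hpi.dvd_of_dvd_pow h2)
  have hdeg : ∀ i, (scale a b H).degreeOf i = H.degreeOf i := fun i => by
    rw [degreeOf_eq_sup, degreeOf_eq_sup, scale_support ha0 hb0]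
  refine ⟨scale_noCoset hv hp hvp ha hb h.noCoset, ?_, ?_, ?_, ?_, ?_, ?_, ?_⟩
  · obtain ⟨m, h1, h2⟩ := h.bot₀
    exact ⟨m, h1, hcoef m h2⟩
  · obtain ⟨m, h1, h2⟩ := h.bot₁
    exact ⟨m, h1, hcoef m h2⟩
  · obtain ⟨m, h1, h2⟩ := h.top₀
    exact ⟨m, by rw [hdeg]; exact h1, hcoef m h2⟩
  · obtain ⟨m, h1, h2⟩ := h.top₁
    exact ⟨m, by rw [hdeg]; exact h1, hcoef m h2⟩
  · refine sqf_scale hp 0 1 a b ha hb (pderiv_scale₀ a b H) ?_ h.sqf₀
    simp [scale]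
  · refine sqf_scale hp 1 0 b a hb ha (pderiv_scale₁ a b H) ?_ h.sqf₁
    simp [scale]
  · rw [scale_totalDegree ha0 hb0]; exact h.large

end Pool.Agent.Helper69.DL
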