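import Pool.Agent.Helper69.DL.Integrate
import Pool.Agent.Helper81.DL.Frob

/-! # Torsion points modulo `p ^ 2` -/

open MvPolynomial

namespace Pool.Agent.Helper69.DL
open Pool.Agent.Helper20.ZD Pool.Agent.Helper20.DL Pool.Agent.Helper22.DL

lemma map_ne_zero_of {p : ℕ} {Δ : Polynomial ℤ} (h : ∃ k, ¬ (p : ℤ) ∣ Δ.coeff k) :
    Δ.map (Int.castRingHom (ZMod p)) ≠ 0 := by
  obtain ⟨k, hk⟩ := h
  intro h0
  have h1 := congrArg (fun P => Polynomial.coeff P k) h0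
  rw [Polynomial.coeff_map, Polynomial.coeff_zero] at h1
  exact hk ((ZMod.intCast_zmod_eq_zero_iff_dvd _ _).1 h1)

/-- **torsion points modulo `p ^ 2`** -/
theorem torsionRel : TorsionRel := by
  have key : ∀ D : ℕ, 4 * D ^ 2 < 64 * (D + 1) ^ 2 := fun D => by
    have : D ^ 2 ≤ (D + 1) ^ 2 := Nat.pow_le_pow_left (Nat.le_succ D) 2
    have h0 : 0 < (D + 1) ^ 2 := by positivity
    omega
  refine torsionRel_of fun v hv p hp hvp H hNC hl h1 h2 => ?_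
  obtain ⟨A₁, B₁, P₁, h₁, hP₁⟩ := h1
  obtain ⟨A₂, B₂, P₂, h₂, hP₂⟩ := h2
  refine (Pool.Agent.Helper81.DL.finite_pairs hv hp hvp (D := H.totalDegree)
    (fun i => degreeOf_le_totalDegree H i) ((key _).trans_le hl) hNC (map_ne_zero_of hP₁) (map_ne_zero_of hP₂)
    h₁ h₂).subset ?_
  rintro z ⟨⟨N, hN, -, hz1, hz2⟩, hz⟩
  exact ⟨⟨N, hN, hz1, hz2⟩, by rw [← ev_eq_aeval]; exact hz⟩

end Pool.Agent.Helper69.DL
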